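import Pool.Agent.Lib.MP_b573ec_lc_LT.V2.Defs3

/-!
# `cubeFn` restricted to the last bits `d` is the relation of phase 1
-/

namespace Pool.Agent.LT

open Finset Polynomial

namespace CubeRestrictAux

/-- the closed form of the windows -/
theorem window_eq {t : ℕ} (ht : 1 ≤ t) (a b : ℕ → ZMod 2) (N : ℕ)
    (hb : ∀ i < N, b i = if t ≤ i then a (i - t) else 0) :
    ∀ i ≤ N, window t a b i =
      ∑ j ∈ range t, if j < i then C (a (i - 1 - j)) * X ^ j else 0 := by
  intro i
  induction i with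
  | zero =>
    intro _
    simp [window]
  | succ i ih =>
    intro hi
    have hi' : i < N := by omega
    rw [window, ih hi'.le, hb i hi']
    obtain ⟨s, rfl⟩ : ∃ s, t = s + 1 := ⟨t - 1, by omega⟩
    rw [sum_range_succ, sum_range_succ']
    have h1 : (∑ k ∈ range s, if k + 1 < i + 1 then
        C (a (i + 1 - 1 - (k + 1))) * X ^ (k + 1) else 0) =
        X * ∑ k ∈ range s, if k < i then C (a (i - 1 - k)) * X ^ k else (0 : (ZMod 2)[X]) := by
      rw [mul_sum]
      refine sum_congr rfl fun k _ => ?_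
      by_cases hk : k < i
      · rw [if_pos hk, if_pos (by omega)]
        have e : i + 1 - 1 - (k + 1) = i - 1 - k := by omega
        rw [e, pow_succ]
        ring
      · rw [if_neg hk, if_neg (by omega), mul_zero]
    rw [h1]
    have h2 : (if 0 < i + 1 then C (a (i + 1 - 1 - 0)) * X ^ 0 else (0 : (ZMod 2)[X])) =
        C (a i) := by
      rw [if_pos (by omega)]
      simp
    rw [h2]
    by_cases hs : s < i
    · rw [if_pos hs, if_pos (by omega : s + 1 ≤ i)]
      have e : i - (s + 1) = i - 1 - s := by omega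
      rw [e]
      have h3 : C (a (i - 1 - s)) * X ^ (s + 1) + C (a (i - 1 - s)) * X ^ (s + 1) =
          (0 : (ZMod 2)[X]) := CharTwo.add_self_eq_zero _
      have h4 : X * (C (a (i - 1 - s)) * X ^ s) = C (a (i - 1 - s)) * X ^ (s + 1) := by
        rw [pow_succ]; ring
      rw [mul_add, h4]
      linear_combination h3
    · rw [if_neg hs, if_neg (by omega : ¬ s + 1 ≤ i)]
      simp

/-- the entering bits -/
def al (M : ℕ) (y : ℕ → ZMod 2) (w0 : (Fin M → ZMod 2) × (Fin (3 * M) → ZMod 2)) (i : ℕ) :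
    ZMod 2 :=
  if h : i < M then w0.1 ⟨M - 1 - i, by omega⟩
  else if h : i < 4 * M then w0.2 ⟨4 * M - 1 - i, by omega⟩
  else if i = 4 * M then 0 else y (i - (4 * M + 1))

theorem al_fst {M : ℕ} (y : ℕ → ZMod 2) (w0 : (Fin M → ZMod 2) × (Fin (3 * M) → ZMod 2))
    (j : Fin M) : al M y w0 (M - 1 - (j : ℕ)) = w0.1 j := by
  have hj := j.2
  unfold al
  rw [dif_pos (by omega)]
  have e : (⟨M - 1 - (M - 1 - (j : ℕ)), by omega⟩ : Fin M) = j := by
    ext
    simp only
    omega
  rw [e]

theorem al_snd {M : ℕ} (y : ℕ → ZMod 2) (w0 : (Fin M → ZMod 2) × (Fin (3 * M) → ZMod 2))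
    (j : Fin (3 * M)) : al M y w0 (4 * M - 1 - (j : ℕ)) = w0.2 j := by
  have hj := j.2
  unfold al
  rw [dif_neg (by omega), dif_pos (by omega)]
  have e : (⟨4 * M - 1 - (4 * M - 1 - (j : ℕ)), by omega⟩ : Fin (3 * M)) = j := by
    ext
    simp only
    omega
  rw [e]

theorem al_big {M : ℕ} (y : ℕ → ZMod 2) (w0 : (Fin M → ZMod 2) × (Fin (3 * M) → ZMod 2))
    {i : ℕ} (hi : 4 * M + 1 ≤ i) : al M y w0 i = y (i - (4 * M + 1)) := by
  unfold al
  rw [dif_neg (by omega), dif_neg (by omega), if_neg (by omega)]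

/-- the value of the input at position `j`, except the last bits `d` -/
def vl (M : ℕ) (y : ℕ → ZMod 2) (w0 : (Fin M → ZMod 2) × (Fin (3 * M) → ZMod 2)) (j : ℕ) :
    ZMod 2 :=
  if j % 4 = 0 then al M y w0 (j / 4)
  else if j % 4 = 1 then (if 3 * M ≤ j / 4 then al M y w0 (j / 4 - 3 * M) else 0)
  else if j % 4 = 2 then (if 4 * M ≤ j / 4 then al M y w0 (j / 4 - 4 * M) else 0)
  else (if j / 4 = 4 * M - 1 then 1 else 0)

/-- the substitution -/
def sg (n M : ℕ) (j : Fin n) : Option (Fin (n / 4 - 8 * M)) :=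
  if h : (j : ℕ) % 4 = 3 ∧ 8 * M ≤ (j : ℕ) / 4 ∧ (j : ℕ) / 4 < n / 4 then
    some ⟨(j : ℕ) / 4 - 8 * M, by omega⟩ else none

/-- the constants -/
def cst (n M : ℕ) (y : ℕ → ZMod 2) (w0 : (Fin M → ZMod 2) × (Fin (3 * M) → ZMod 2)) : Inp n :=
  fun j => decide (vl M y w0 j = 1)

theorem zmod2 (z : ZMod 2) : (if decide (z = 1) = true then (1 : ZMod 2) else 0) = z := by
  revert z; decide

theorem bit_none {n M : ℕ} (y : ℕ → ZMod 2) (w0 : (Fin M → ZMod 2) × (Fin (3 * M) → ZMod 2))
    (d : Inp (n / 4 - 8 * M)) {j : ℕ} (hj : j < n)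
    (h : ¬ (j % 4 = 3 ∧ 8 * M ≤ j / 4 ∧ j / 4 < n / 4)) :
    bit (subst (sg n M) (cst n M y w0) d) j = vl M y w0 j := by
  unfold bit
  rw [dif_pos hj]
  unfold subst sg
  rw [dif_neg h]
  simp only [Option.elim_none]
  unfold cst
  exact zmod2 _

theorem bit_some {n M : ℕ} (y : ℕ → ZMod 2) (w0 : (Fin M → ZMod 2) × (Fin (3 * M) → ZMod 2))
    (d : Inp (n / 4 - 8 * M)) (v : Fin (n / 4 - 8 * M)) :
    bit (subst (sg n M) (cst n M y w0) d) (4 * (8 * M + v) + 3) = if d v then 1 else 0 := by
  have hv := v.2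
  have hj : 4 * (8 * M + (v : ℕ)) + 3 < n := by omega
  unfold bit
  rw [dif_pos hj]
  unfold subst sg
  rw [dif_pos (by simp only; omega)]
  simp only [Option.elim_some]
  have e : (⟨(4 * (8 * M + (v : ℕ)) + 3) / 4 - 8 * M, by omega⟩ : Fin (n / 4 - 8 * M)) = v := by
    ext
    simp only
    omega
  rw [e]
  by_cases h : d v = true
  · rw [if_pos h, if_pos h]
  · rw [if_neg h, if_neg h]

theorem cpoly_add {m : ℕ} (a b : Fin m → ZMod 2) : cpoly (a + b) = cpoly a + cpoly b := by
  unfold cpoly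
  rw [← sum_add_distrib]
  refine sum_congr rfl fun i _ => ?_
  rw [Pi.add_apply, C_add, add_mul]

theorem cpoly_zero {m : ℕ} : cpoly (0 : Fin m → ZMod 2) = 0 := by
  unfold cpoly
  simp

theorem cpoly_ite {m : ℕ} (p : Bool) (a : Fin m → ZMod 2) :
    cpoly (if p then a else 0) = C (if p then (1 : ZMod 2) else 0) * cpoly a := by
  cases p <;> simp [cpoly_zero]

theorem cpoly_sum {m : ℕ} {ι : Type} (s : Finset ι) (f : ι → Fin m → ZMod 2) :
    cpoly (∑ i ∈ s, f i) = ∑ i ∈ s, cpoly (f i) := by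
  classical
  induction s using Finset.induction_on with
  | empty => simp [cpoly_zero]
  | insert i s hi ih => rw [sum_insert hi, sum_insert hi, cpoly_add, ih]

/-- the weighted sum splits -/
theorem wsum_split {N M : ℕ} (hM : 1 ≤ M) (hN : 8 * M ≤ N) (d : ℕ → ZMod 2)
    (W : ℕ → (ZMod 2)[X]) (h0 : ∀ i < 8 * M, d i = if i = 4 * M - 1 then 1 else 0) :
    wsum N d W = W (4 * M) + ∑ v : Fin (N - 8 * M), C (d (8 * M + v)) * W (8 * M + v + 1) := by
  unfold wsum
  have e : N = 8 * M + (N - 8 * M) := by omega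
  have h1 : (∑ i ∈ range N, C (d i) * W (i + 1)) =
      ∑ i ∈ range (8 * M + (N - 8 * M)), C (d i) * W (i + 1) := by rw [← e]
  rw [h1, sum_range_add, sum_range (n := N - 8 * M)]
  congr 1
  rw [sum_eq_single (4 * M - 1)]
  · rw [h0 _ (by omega), if_pos rfl, C_1, one_mul]
    congr 1
    omega
  · intro i hi hne
    rw [mem_range] at hi
    rw [h0 i hi, if_neg hne, C_0, zero_mul]
  · intro h
    exfalso
    apply h
    rw [mem_range]
    omega

end CubeRestrictAux

open CubeRestrictAux

open Classical in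
theorem cube_restrict (n M : ℕ) (hM : 1 ≤ M) (hn : 8 * M < n / 4) (y : ℕ → ZMod 2)
    (w0 : (Fin M → ZMod 2) × (Fin (3 * M) → ZMod 2)) :
    ∃ (σ : Fin n → Option (Fin (n / 4 - 8 * M))) (c : Inp n), ∀ d : Inp (n / 4 - 8 * M),
      cubeFn n M (subst σ c d) = decide (¬ Cub (hash (fun v => gamC M y (v : ℕ)) d + w0)) := by
  refine ⟨sg n M, cst n M y w0, fun d => ?_⟩
  set x : Inp n := subst (sg n M) (cst n M y w0) d with hx
  -- the bits
  have ha : ∀ i < n / 4, bit x (4 * i) = al M y w0 i := by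
    intro i hi
    rw [hx, bit_none y w0 d (by omega) (by omega)]
    unfold vl
    rw [if_pos (by omega)]
    congr 1
    omega
  have hb : ∀ i < n / 4, bit x (4 * i + 1) =
      if 3 * M ≤ i then al M y w0 (i - 3 * M) else 0 := by
    intro i hi
    rw [hx, bit_none y w0 d (by omega) (by omega)]
    unfold vl
    have e : (4 * i + 1) / 4 = i := by omega
    rw [if_neg (by omega), if_pos (by omega), e]
  have hc : ∀ i < n / 4, bit x (4 * i + 2) =
      if 4 * M ≤ i then al M y w0 (i - 4 * M) else 0 := by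
    intro i hi
    rw [hx, bit_none y w0 d (by omega) (by omega)]
    unfold vl
    have e : (4 * i + 2) / 4 = i := by omega
    rw [if_neg (by omega), if_neg (by omega), if_pos (by omega), e]
  have hd : ∀ i < 8 * M, bit x (4 * i + 3) = if i = 4 * M - 1 then 1 else 0 := by
    intro i hi
    rw [hx, bit_none y w0 d (by omega) (by omega)]
    unfold vl
    have e : (4 * i + 3) / 4 = i := by omega
    rw [if_neg (by omega), if_neg (by omega), if_neg (by omega), e]
  have hdv : ∀ v : Fin (n / 4 - 8 * M), bit x (4 * (8 * M + v) + 3) = if d v then 1 else 0 :=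
    fun v => bit_some y w0 d v
  -- the windows
  have hW1 := window_eq (t := 3 * M) (by omega) (fun i => bit x (4 * i))
    (fun i => bit x (4 * i + 1)) (n / 4) (by
      intro i hi
      rw [hb i hi]
      by_cases h : 3 * M ≤ i
      · rw [if_pos h, if_pos h, ha _ (by omega)]
      · rw [if_neg h, if_neg h])
  have hW2 := window_eq (t := M) hM (fun i => bit x (4 * i + 1))
    (fun i => bit x (4 * i + 2)) (n / 4) (by
      intro i hi
      rw [hc i hi]
      by_cases h : M ≤ i
      · rw [if_pos h, hb _ (by omega)]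
        by_cases h' : 4 * M ≤ i
        · rw [if_pos h', if_pos (by omega)]
          congr 1
          omega
        · rw [if_neg h', if_neg (by omega)]
      · rw [if_neg h, if_neg (by omega)])
  set W1 := window (3 * M) (fun i => bit x (4 * i)) (fun i => bit x (4 * i + 1)) with hW1d
  set W2 := window M (fun i => bit x (4 * i + 1)) (fun i => bit x (4 * i + 2)) with hW2d
  have hW1a : W1 (4 * M) = cpoly w0.2 := by
    rw [hW1 _ (by omega), sum_range]
    unfold cpoly
    refine sum_congr rfl fun j _ => ?_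
    have hj := j.2
    rw [if_pos (by omega), ha _ (by omega), al_snd]
  have hW1b : ∀ v : Fin (n / 4 - 8 * M), W1 (8 * M + v + 1) = cpoly (gamC M y v).2 := by
    intro v
    have hv := v.2
    rw [hW1 _ (by omega), sum_range]
    unfold cpoly
    refine sum_congr rfl fun j _ => ?_
    have hj := j.2
    rw [if_pos (by omega), ha _ (by omega), al_big y w0 (by omega)]
    unfold gamC
    simp only
    congr 3
    omega
  have hW2a : W2 (4 * M) = cpoly w0.1 := by
    rw [hW2 _ (by omega), sum_range]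
    unfold cpoly
    refine sum_congr rfl fun j _ => ?_
    have hj := j.2
    rw [if_pos (by omega), hb _ (by omega), if_pos (by omega)]
    have e : 4 * M - 1 - (j : ℕ) - 3 * M = M - 1 - (j : ℕ) := by omega
    rw [e, al_fst]
  have hW2b : ∀ v : Fin (n / 4 - 8 * M), W2 (8 * M + v + 1) = cpoly (gamC M y v).1 := by
    intro v
    have hv := v.2
    rw [hW2 _ (by omega), sum_range]
    unfold cpoly
    refine sum_congr rfl fun j _ => ?_
    have hj := j.2
    rw [if_pos (by omega), hb _ (by omega), if_pos (by omega), al_big y w0 (by omega)]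
    unfold gamC
    simp only
    congr 3
    omega
  have hs1 : wsum (n / 4) (fun i => bit x (4 * i + 3)) W1 =
      cpoly (hash (fun v : Fin (n / 4 - 8 * M) => gamC M y (v : ℕ)) d + w0).2 := by
    rw [wsum_split hM hn.le _ _ hd, hW1a, Prod.snd_add, cpoly_add, add_comm]
    congr 1
    unfold hash
    rw [Prod.snd_sum, cpoly_sum]
    refine sum_congr rfl fun v _ => ?_
    simp only
    rw [hdv v, hW1b v]
    rw [← cpoly_ite]
    congr 1
    cases d v <;> rfl
  have hs2 : wsum (n / 4) (fun i => bit x (4 * i + 3)) W2 =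
      cpoly (hash (fun v : Fin (n / 4 - 8 * M) => gamC M y (v : ℕ)) d + w0).1 := by
    rw [wsum_split hM hn.le _ _ hd, hW2a, Prod.fst_add, cpoly_add, add_comm]
    congr 1
    unfold hash
    rw [Prod.fst_sum, cpoly_sum]
    refine sum_congr rfl fun v _ => ?_
    simp only
    rw [hdv v, hW2b v]
    rw [← cpoly_ite]
    congr 1
    cases d v <;> rfl
  unfold cubeFn Cub
  rw [← hW1d, ← hW2d, hs1, hs2]
  exact decide_eq_decide.2 Iff.rfl

end Pool.Agent.LT
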