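import Pool.Agent.Lib.MP_b573ec_lc_LT.V2.Defs3

/-!
# `factorFn` restricted to the last bits `d`
-/

namespace Pool.Agent.LT

open Finset Polynomial

namespace FactorRestrictAux

/-- the windows, when the leaving bits are the entering bits of `t` steps before -/
theorem window_eq (t N : ℕ) (a b : ℕ → ZMod 2)
    (hb : ∀ i < N, b i = if t ≤ i then a (i - t) else 0) :
    ∀ i ≤ N, window t a b i = ∑ j ∈ range t, if j < i then C (a (i - 1 - j)) * X ^ j else 0 := by
  intro i
  induction i with
  | zero =>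
    intro _
    simp [window]
  | succ i ih =>
    intro hi
    have hbi := hb i (by omega)
    obtain ⟨g, hg⟩ : ∃ g : ℕ → (ZMod 2)[X], ∀ j, g j = if j < i + 1 then C (a (i - j)) * X ^ j else 0 :=
      ⟨_, fun _ => rfl⟩
    have h1 : window t a b (i + 1) = X * window t a b i + C (a i) + C (b i) * X ^ t := rfl
    have h2 : X * window t a b i = ∑ j ∈ range t, g (j + 1) := by
      rw [ih (by omega), mul_sum]
      refine sum_congr rfl fun j _ => ?_
      rw [hg]
      by_cases hj : j < i
      · rw [if_pos hj, if_pos (by omega), pow_succ]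
        have e : i - 1 - j = i - (j + 1) := by omega
        rw [e]
        ring
      · rw [if_neg hj, if_neg (by omega), mul_zero]
    have h3 : C (a i) = g 0 := by
      rw [hg, if_pos (by omega)]
      simp
    have h4 : C (b i) * X ^ t = g t := by
      rw [hg, hbi]
      by_cases ht : t ≤ i
      · rw [if_pos ht, if_pos (by omega)]
      · rw [if_neg ht, if_neg (by omega), map_zero, zero_mul]
    have h5 : ∑ j ∈ range t, g (j + 1) + g 0 = ∑ j ∈ range t, g j + g t := by
      rw [← sum_range_succ', sum_range_succ]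
    rw [h1, h2, h3, h4, h5, add_assoc, CharTwo.add_self_eq_zero, add_zero]
    refine sum_congr rfl fun j _ => ?_
    rw [hg]
    have e : i + 1 - 1 - j = i - j := by omega
    rw [e]

theorem cpoly_add {D : ℕ} (u w : Fin D → ZMod 2) : cpoly (u + w) = cpoly u + cpoly w := by
  unfold cpoly
  rw [← sum_add_distrib]
  refine sum_congr rfl fun i _ => ?_
  rw [Pi.add_apply, map_add, add_mul]

theorem cpoly_zero {D : ℕ} : cpoly (0 : Fin D → ZMod 2) = 0 := by
  unfold cpoly
  refine sum_eq_zero fun i _ => ?_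
  rw [Pi.zero_apply, map_zero, zero_mul]

theorem cpoly_sum {D : ℕ} {ι : Type} (s : Finset ι) (f : ι → Fin D → ZMod 2) :
    cpoly (∑ i ∈ s, f i) = ∑ i ∈ s, cpoly (f i) := by
  classical
  induction s using Finset.induction_on with
  | empty => simp [cpoly_zero]
  | insert a s ha ih => rw [sum_insert ha, sum_insert ha, cpoly_add, ih]

theorem cpoly_range {D : ℕ} (u : Fin D → ZMod 2) (f : ℕ → (ZMod 2)[X])
    (h : ∀ j : Fin D, f j = C (u j) * X ^ (j : ℕ)) : ∑ j ∈ range D, f j = cpoly u := by
  rw [Finset.sum_range]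
  exact sum_congr rfl fun j _ => h j

theorem zmod_ite (z : ZMod 2) : (if decide (z = 1) = true then (1 : ZMod 2) else 0) = z := by
  revert z
  decide

/-- the entering bits -/
def al (D : ℕ) (y : ℕ → ZMod 2) (w0 : Fin D → ZMod 2) (i : ℕ) : ZMod 2 :=
  if h : i < D then w0 ⟨D - 1 - i, by omega⟩ else if i = D then 0 else y (i - (D + 1))

/-- the constant bits -/
def cst (D : ℕ) (y : ℕ → ZMod 2) (w0 : Fin D → ZMod 2) (j : ℕ) : ZMod 2 :=
  if j % 3 = 0 then al D y w0 (j / 3)
  else if j % 3 = 1 then (if D ≤ j / 3 then al D y w0 (j / 3 - D) else 0)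
  else if j / 3 = D - 1 then 1 else 0

end FactorRestrictAux

open FactorRestrictAux

open Classical in
theorem factor_restrict (n D ℓ : ℕ) (hD : 1 ≤ D) (hn : 2 * D < n / 3) (y : ℕ → ZMod 2)
    (w0 : Fin D → ZMod 2) :
    ∃ (σ : Fin n → Option (Fin (n / 3 - 2 * D))) (c : Inp n), ∀ d : Inp (n / 3 - 2 * D),
      factorFn n D ℓ (subst σ c d) = decide (∃ π : (ZMod 2)[X], Irreducible π ∧
        π.natDegree = ℓ ∧ π ∣ cpoly (hash (fun v => gamF D y (v : ℕ)) d + w0)) := by
  obtain ⟨σ, hσ1, hσ2⟩ : ∃ σ : Fin n → Option (Fin (n / 3 - 2 * D)),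
      (∀ j : Fin n, ¬ ((j : ℕ) % 3 = 2 ∧ 2 * D ≤ (j : ℕ) / 3 ∧ (j : ℕ) / 3 < n / 3) →
        σ j = none) ∧
      ∀ (v : Fin (n / 3 - 2 * D)) (h : 3 * (2 * D + (v : ℕ)) + 2 < n), σ ⟨_, h⟩ = some v := by
    refine ⟨fun j => if h : (j : ℕ) % 3 = 2 ∧ 2 * D ≤ (j : ℕ) / 3 ∧ (j : ℕ) / 3 < n / 3 then
      some ⟨(j : ℕ) / 3 - 2 * D, by omega⟩ else none, fun j hj => dif_neg hj, fun v h => ?_⟩
    have hv := v.2
    have hc : (3 * (2 * D + (v : ℕ)) + 2) % 3 = 2 ∧ 2 * D ≤ (3 * (2 * D + (v : ℕ)) + 2) / 3 ∧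
      (3 * (2 * D + (v : ℕ)) + 2) / 3 < n / 3 := by omega
    refine (dif_pos hc).trans ?_
    congr 1
    apply Fin.ext
    change (3 * (2 * D + (v : ℕ)) + 2) / 3 - 2 * D = v
    omega
  refine ⟨σ, fun j => decide (cst D y w0 j = 1), fun d => ?_⟩
  obtain ⟨x, hx⟩ : ∃ x, x = subst σ (fun j : Fin n => decide (cst D y w0 j = 1)) d := ⟨_, rfl⟩
  rw [← hx]
  -- the bits
  have hbc : ∀ j, j < n → ¬ (j % 3 = 2 ∧ 2 * D ≤ j / 3 ∧ j / 3 < n / 3) →
      bit x j = cst D y w0 j := by
    intro j hj hc
    unfold bit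
    rw [dif_pos hj, hx]
    unfold subst
    rw [hσ1 ⟨j, hj⟩ hc]
    exact zmod_ite _
  have hba : ∀ i < n / 3, bit x (3 * i) = al D y w0 i := by
    intro i hi
    rw [hbc (3 * i) (by omega) (by omega)]
    unfold cst
    rw [if_pos (by omega)]
    congr 1
    omega
  have hbb : ∀ i < n / 3, bit x (3 * i + 1) = if D ≤ i then al D y w0 (i - D) else 0 := by
    intro i hi
    rw [hbc (3 * i + 1) (by omega) (by omega)]
    unfold cst
    have e : (3 * i + 1) / 3 = i := by omega
    rw [if_neg (by omega), if_pos (by omega), e]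
  have hbd : ∀ i < 2 * D, bit x (3 * i + 2) = if i = D - 1 then 1 else 0 := by
    intro i hi
    rw [hbc (3 * i + 2) (by omega) (by omega)]
    unfold cst
    have e : (3 * i + 2) / 3 = i := by omega
    rw [if_neg (by omega), if_neg (by omega), e]
  have hbv : ∀ v : Fin (n / 3 - 2 * D), bit x (3 * (2 * D + (v : ℕ)) + 2) =
      if d v then 1 else 0 := by
    intro v
    have hv := v.2
    unfold bit
    rw [dif_pos (by omega), hx]
    unfold subst
    rw [hσ2 v (by omega)]
    rfl
  -- the windows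
  have hwin := window_eq D (n / 3) (fun i => bit x (3 * i)) (fun i => bit x (3 * i + 1)) (by
    intro i hi
    rw [hbb i hi]
    by_cases h : D ≤ i
    · rw [if_pos h, if_pos h, hba (i - D) (by omega)]
    · rw [if_neg h, if_neg h])
  have hW1 : window D (fun i => bit x (3 * i)) (fun i => bit x (3 * i + 1)) (D - 1 + 1) =
      cpoly w0 := by
    rw [hwin _ (by omega)]
    refine cpoly_range _ _ fun j => ?_
    have hj := j.2
    rw [if_pos (by omega), hba _ (by omega)]
    unfold al
    rw [dif_pos (by omega)]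
    congr 3
    apply Fin.ext
    simp only
    omega
  have hW2 : ∀ v : Fin (n / 3 - 2 * D),
      window D (fun i => bit x (3 * i)) (fun i => bit x (3 * i + 1)) (2 * D + (v : ℕ) + 1) =
      cpoly (gamF D y (v : ℕ)) := by
    intro v
    have hv := v.2
    rw [hwin _ (by omega)]
    refine cpoly_range _ _ fun j => ?_
    have hj := j.2
    rw [if_pos (by omega), hba _ (by omega)]
    unfold al gamF
    rw [dif_neg (by omega), if_neg (by omega)]
    congr 3
    omega
  -- the sum
  have hsum : wsum (n / 3) (fun i => bit x (3 * i + 2))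
      (window D (fun i => bit x (3 * i)) (fun i => bit x (3 * i + 1))) =
      cpoly (hash (fun v : Fin (n / 3 - 2 * D) => gamF D y (v : ℕ)) d + w0) := by
    unfold wsum
    have hN : n / 3 = 2 * D + (n / 3 - 2 * D) := by omega
    have e1 : ∀ f : ℕ → (ZMod 2)[X], ∑ i ∈ range (n / 3), f i =
        ∑ i ∈ range (2 * D), f i + ∑ v : Fin (n / 3 - 2 * D), f (2 * D + v) := by
      intro f
      rw [← Finset.sum_range (fun v => f (2 * D + v)), ← sum_range_add, ← hN]
    rw [e1, cpoly_add, add_comm]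
    congr 1
    · unfold hash
      rw [cpoly_sum]
      refine sum_congr rfl fun v _ => ?_
      beta_reduce
      rw [hbv v, hW2 v]
      by_cases hd : d v = true
      · rw [if_pos hd, if_pos hd, map_one, one_mul]
      · rw [if_neg hd, if_neg hd, map_zero, zero_mul, cpoly_zero]
    · rw [Finset.sum_eq_single (D - 1)]
      · beta_reduce
        rw [hbd (D - 1) (by omega), if_pos rfl, map_one, one_mul, hW1]
      · intro i hi hne
        beta_reduce
        rw [hbd i (mem_range.1 hi), if_neg hne, map_zero, zero_mul]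
      · intro h
        exact absurd (mem_range.2 (by omega)) h
  unfold factorFn
  rw [hsum]

end Pool.Agent.LT
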