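import Pool.Agent.Lib.MP_b573ec_lc_LT.V2.Defs3

/-!
# Representatives of the points of degree `ℓ` of `GF(2 ^ ℓ)`
-/

namespace Pool.Agent.LT

open Finset Polynomial

namespace IrrPointsAux

section General

variable {K : Type} [Field K] [Algebra (ZMod 2) K] [Finite K]

lemma pow_eq (θ : K) : θ ^ (2 ^ (minpoly (ZMod 2) θ).natDegree) = θ := by
  have hint : IsIntegral (ZMod 2) θ := Algebra.IsIntegral.isIntegral θ
  have h1 : Module.finrank (ZMod 2) (IntermediateField.adjoin (ZMod 2) {θ}) =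
      (minpoly (ZMod 2) θ).natDegree := IntermediateField.adjoin.finrank hint
  letI : Fintype (IntermediateField.adjoin (ZMod 2) {θ}) := Fintype.ofFinite _
  have h2 : Fintype.card (IntermediateField.adjoin (ZMod 2) {θ}) =
      2 ^ (minpoly (ZMod 2) θ).natDegree := by
    rw [Module.card_eq_pow_finrank (K := ZMod 2), ZMod.card, h1]
  have h3 := FiniteField.pow_card (IntermediateField.AdjoinSimple.gen (ZMod 2) θ)
  rw [h2] at h3
  have h4 := congrArg (algebraMap (IntermediateField.adjoin (ZMod 2) {θ}) K) h3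
  rw [map_pow, IntermediateField.AdjoinSimple.algebraMap_gen] at h4
  exact h4

lemma natDegree_pos (θ : K) : 0 < (minpoly (ZMod 2) θ).natDegree :=
  minpoly.natDegree_pos (Algebra.IsIntegral.isIntegral θ)

lemma card_fibre [Fintype K] [DecidableEq K] (θ : K) :
    (univ.filter fun θ' : K => minpoly (ZMod 2) θ' = minpoly (ZMod 2) θ).card =
      (minpoly (ZMod 2) θ).natDegree := by
  classical
  have hint : IsIntegral (ZMod 2) θ := Algebra.IsIntegral.isIntegral θ
  have hsep : (minpoly (ZMod 2) θ).Separable := Algebra.IsSeparable.isSeparable (ZMod 2) θ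
  have hspl : ((minpoly (ZMod 2) θ).map (algebraMap (ZMod 2) K)).Splits :=
    Normal.splits inferInstance θ
  rw [← card_rootSet_eq_natDegree hsep hspl]
  rw [← Set.toFinset_card]
  congr 1
  ext θ'
  rw [mem_filter, Set.mem_toFinset, mem_rootSet]
  constructor
  · rintro ⟨-, h⟩
    refine ⟨minpoly.ne_zero hint, ?_⟩
    rw [← h]
    exact minpoly.aeval _ _
  · rintro ⟨-, h⟩
    refine ⟨mem_univ _, ?_⟩
    exact (minpoly.eq_of_irreducible_of_monic (minpoly.irreducible hint) h
      (minpoly.monic hint)).symm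

lemma card_small (d : ℕ) [Fintype K] [DecidableEq K] (hd : d ≠ 0) :
    (univ.filter fun θ : K => θ ^ (2 ^ d) = θ).card ≤ 2 ^ d := by
  classical
  have h0 : (X ^ 2 ^ d - X : K[X]) ≠ 0 := FiniteField.X_pow_card_pow_sub_X_ne_zero K hd one_lt_two
  have h1 : (X ^ 2 ^ d - X : K[X]).natDegree = 2 ^ d :=
    FiniteField.X_pow_card_pow_sub_X_natDegree_eq K hd one_lt_two
  calc (univ.filter fun θ : K => θ ^ (2 ^ d) = θ).card
      ≤ (X ^ 2 ^ d - X : K[X]).roots.toFinset.card := by
        apply card_le_card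
        intro θ hθ
        rw [mem_filter] at hθ
        rw [Multiset.mem_toFinset, mem_roots h0]
        simp [hθ.2]
    _ ≤ Multiset.card (X ^ 2 ^ d - X : K[X]).roots := Multiset.toFinset_card_le _
    _ ≤ (X ^ 2 ^ d - X : K[X]).natDegree := card_roots' _
    _ = 2 ^ d := h1

end General

lemma sum_pow_lt (m : ℕ) : ∑ d ∈ Icc 1 m, 2 ^ d < 2 ^ (m + 1) := by
  induction m with
  | zero => simp
  | succ m ih =>
    rw [sum_Icc_succ_top (by omega)]
    calc ∑ d ∈ Icc 1 m, 2 ^ d + 2 ^ (m + 1) < 2 ^ (m + 1) + 2 ^ (m + 1) := by omega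
      _ = 2 ^ (m + 1 + 1) := by ring

end IrrPointsAux

open IrrPointsAux in
theorem exists_points (ℓ : ℕ) (hℓ : 4 ≤ ℓ) :
    ∃ Θ : Finset (GaloisField 2 ℓ), Points (GaloisField 2 ℓ) ℓ Θ ∧ 4 * Θ.card ≤ 2 ^ ℓ ∧
      2 ^ ℓ ≤ 2 * ℓ * Θ.card := by
  classical
  have hℓ0 : ℓ ≠ 0 := by omega
  letI : Fintype (GaloisField 2 ℓ) := Fintype.ofFinite _
  have hcard : Fintype.card (GaloisField 2 ℓ) = 2 ^ ℓ := by
    rw [← Nat.card_eq_fintype_card]
    exact GaloisField.card 2 ℓ hℓ0
  have hfr : Module.finrank (ZMod 2) (GaloisField 2 ℓ) = ℓ := GaloisField.finrank 2 hℓ0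
  set A : Finset (GaloisField 2 ℓ) :=
    univ.filter fun θ => (minpoly (ZMod 2) θ).natDegree = ℓ with hA
  set B : Finset (GaloisField 2 ℓ) :=
    univ.filter fun θ => ¬ (minpoly (ZMod 2) θ).natDegree = ℓ with hB
  have hAB : A.card + B.card = 2 ^ ℓ := by
    rw [hA, hB, card_filter_add_card_filter_not, card_univ, hcard]
  have hBcard : B.card ≤ 2 ^ (ℓ - 1) := by
    have h1 : B ⊆ (Icc 1 (ℓ / 2)).biUnion
        fun d => univ.filter fun θ : GaloisField 2 ℓ => θ ^ (2 ^ d) = θ := by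
      intro θ hθ
      rw [hB, mem_filter] at hθ
      rw [mem_biUnion]
      refine ⟨(minpoly (ZMod 2) θ).natDegree, ?_, ?_⟩
      · have hdvd : (minpoly (ZMod 2) θ).natDegree ∣ ℓ := by
          have h2 : Module.finrank (ZMod 2) (IntermediateField.adjoin (ZMod 2) {θ}) =
              (minpoly (ZMod 2) θ).natDegree :=
            IntermediateField.adjoin.finrank (Algebra.IsIntegral.isIntegral θ)
          have h3 := Module.finrank_mul_finrank (ZMod 2)
            (IntermediateField.adjoin (ZMod 2) {θ}) (GaloisField 2 ℓ)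
          rw [h2, hfr] at h3
          exact ⟨_, h3.symm⟩
        obtain ⟨e, he⟩ := hdvd
        have hpos := IrrPointsAux.natDegree_pos θ
        rw [mem_Icc]
        refine ⟨hpos, ?_⟩
        rw [Nat.le_div_iff_mul_le (by norm_num)]
        have he2 : 2 ≤ e := by
          rcases Nat.lt_or_ge e 2 with h | h
          · interval_cases e
            · omega
            · exfalso
              apply hθ.2
              omega
          · exact h
        calc (minpoly (ZMod 2) θ).natDegree * 2 ≤ (minpoly (ZMod 2) θ).natDegree * e :=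
              Nat.mul_le_mul_left _ he2
          _ = ℓ := he.symm
      · rw [mem_filter]
        exact ⟨mem_univ _, pow_eq θ⟩
    calc B.card ≤ _ := card_le_card h1
      _ ≤ ∑ d ∈ Icc 1 (ℓ / 2), (univ.filter fun θ : GaloisField 2 ℓ => θ ^ (2 ^ d) = θ).card :=
        card_biUnion_le
      _ ≤ ∑ d ∈ Icc 1 (ℓ / 2), 2 ^ d := by
        apply sum_le_sum
        intro d hd
        rw [mem_Icc] at hd
        exact card_small d (by omega)
      _ ≤ 2 ^ (ℓ / 2 + 1) := (sum_pow_lt _).le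
      _ ≤ 2 ^ (ℓ - 1) := Nat.pow_le_pow_right (by norm_num) (by omega)
  have hpow : 2 ^ ℓ = 2 * 2 ^ (ℓ - 1) := by
    rw [← pow_succ', Nat.sub_add_cancel (by omega)]
  have hAcard : 2 ^ (ℓ - 1) ≤ A.card := by omega
  set S := A.image fun θ => minpoly (ZMod 2) θ with hS
  have hAS : A.card = S.card * ℓ := by
    rw [card_eq_sum_card_image (fun θ => minpoly (ZMod 2) θ) A, ← hS]
    rw [sum_const_nat (m := ℓ)]
    intro μ hμ
    rw [hS, mem_image] at hμ
    obtain ⟨θ, hθ, rfl⟩ := hμ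
    rw [hA, mem_filter] at hθ
    rw [hA, filter_filter]
    refine Eq.trans ?_ ((card_fibre θ).trans hθ.2)
    congr 1
    ext θ'
    simp only [mem_filter, mem_univ, true_and]
    constructor
    · rintro ⟨-, h⟩
      exact h
    · intro h
      refine ⟨?_, h⟩
      rw [h]
      exact hθ.2
  have hex : ∀ μ : (ZMod 2)[X], ∃ θ : GaloisField 2 ℓ, μ ∈ S → θ ∈ A ∧ minpoly (ZMod 2) θ = μ := by
    intro μ
    by_cases h : μ ∈ S
    · rw [hS, mem_image] at h
      obtain ⟨θ, hθ, h2⟩ := h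
      exact ⟨θ, fun _ => ⟨hθ, h2⟩⟩
    · exact ⟨0, fun h' => absurd h' h⟩
  choose g hg using hex
  have hΘ : (S.image g).card = S.card := by
    apply card_image_of_injOn
    intro μ hμ μ' hμ' h
    rw [← (hg μ hμ).2, ← (hg μ' hμ').2, h]
  refine ⟨S.image g, ⟨?_, ?_, ?_⟩, ?_, ?_⟩
  · intro π hπ hdeg
    have : Fact (Irreducible π) := ⟨hπ⟩
    have hπ0 : π ≠ 0 := hπ.ne_zero
    have : Module.Finite (ZMod 2) (AdjoinRoot π) := (AdjoinRoot.powerBasis hπ0).finite
    have hfin : Module.finrank (ZMod 2) (AdjoinRoot π) = ℓ := by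
      rw [(AdjoinRoot.powerBasis hπ0).finrank, AdjoinRoot.powerBasis_dim, hdeg]
    have hN : Nat.card (AdjoinRoot π) = 2 ^ ℓ := by
      rw [Module.natCard_eq_pow_finrank (K := ZMod 2), hfin, Nat.card_zmod]
    let e : AdjoinRoot π ≃ₐ[ZMod 2] GaloisField 2 ℓ := GaloisField.algEquivGaloisField 2 ℓ hN
    set θ' := e (AdjoinRoot.root π) with hθ'
    have hroot : aeval θ' π = 0 := by
      rw [hθ', ← AlgEquiv.coe_toAlgHom, aeval_algHom_apply, AdjoinRoot.aeval_eq, AdjoinRoot.mk_self, map_zero]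
    have hint : IsIntegral (ZMod 2) θ' := Algebra.IsIntegral.isIntegral θ'
    have hdvd : minpoly (ZMod 2) θ' ∣ π := minpoly.dvd _ _ hroot
    have hassoc : Associated (minpoly (ZMod 2) θ') π :=
      (minpoly.irreducible hint).associated_of_dvd hπ hdvd
    have hdeg' : (minpoly (ZMod 2) θ').natDegree = ℓ := by
      rw [natDegree_eq_of_degree_eq (degree_eq_degree_of_associated hassoc), hdeg]
    have hmem : minpoly (ZMod 2) θ' ∈ S := by
      rw [hS, mem_image]
      exact ⟨θ', by rw [hA, mem_filter]; exact ⟨mem_univ _, hdeg'⟩, rfl⟩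
    refine ⟨g (minpoly (ZMod 2) θ'), mem_image_of_mem _ hmem, ?_⟩
    have h2 : minpoly (ZMod 2) (g (minpoly (ZMod 2) θ')) ∣ π := by
      rw [(hg _ hmem).2]
      exact hdvd
    obtain ⟨q, hq⟩ := h2
    rw [hq, map_mul, minpoly.aeval, zero_mul]
  · intro θ hθ
    rw [mem_image] at hθ
    obtain ⟨μ, hμ, rfl⟩ := hθ
    have := (hg μ hμ).1
    rw [hA, mem_filter] at this
    exact this.2
  · intro θ hθ θ' hθ' h
    rw [mem_image] at hθ hθ'
    obtain ⟨μ, hμ, rfl⟩ := hθ
    obtain ⟨μ', hμ', rfl⟩ := hθ'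
    rw [(hg μ hμ).2, (hg μ' hμ').2] at h
    rw [h]
  · rw [hΘ]
    calc 4 * S.card ≤ ℓ * S.card := Nat.mul_le_mul_right _ hℓ
      _ = A.card := by rw [hAS, mul_comm]
      _ ≤ 2 ^ ℓ := by omega
  · rw [hΘ, hpow, mul_assoc, mul_comm ℓ, ← hAS]
    omega

end Pool.Agent.LT
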