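import Pool.Agent.Lib.MP_b573ec_lc_LT.V2.Defs3
import Pool.Agent.Lib.MP_b573ec_lc_LT.Cubic

/-!
# Module V8b of project LT: evaluations at points of degree `ℓ` are independent
-/

namespace Pool.Agent.LT

open Finset Polynomial

theorem evalHom_eq {K : Type} [Field K] [Algebra (ZMod 2) K] (D : ℕ) (t : K)
    (c : Fin D → ZMod 2) : evalHom D t c = aeval t (cpoly c) := by
  unfold cpoly
  rw [map_sum]
  simp only [map_mul, aeval_C, map_pow, aeval_X]
  rfl

namespace IrrSepAux

theorem isIntegral_of_fintype {K : Type} [Field K] [Fintype K] [Algebra (ZMod 2) K] (t : K) :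
    IsIntegral (ZMod 2) t := by
  have : Module.Finite (ZMod 2) K := Module.Finite.of_finite
  exact Algebra.IsIntegral.isIntegral t

theorem aeval_cpoly_inj {K : Type} [Field K] [Fintype K] [Algebra (ZMod 2) K] {ℓ : ℕ} {t : K}
    (ht : (minpoly (ZMod 2) t).natDegree = ℓ) :
    Function.Injective fun c : Fin ℓ → ZMod 2 => aeval t (cpoly c) := by
  intro c c' h
  have h1 : aeval t (cpoly c - cpoly c') = 0 := by
    rw [map_sub, sub_eq_zero]
    exact h
  have h2 : cpoly c - cpoly c' = 0 := by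
    by_contra hne
    have hd := minpoly.dvd (ZMod 2) t h1
    have h3 := natDegree_le_of_dvd hd hne
    have h4 : (cpoly c - cpoly c').degree < ((ℓ : ℕ) : WithBot ℕ) :=
      (degree_sub_le _ _).trans_lt (max_lt (CubicAux.degree_cpoly c) (CubicAux.degree_cpoly c'))
    have h5 := (natDegree_lt_iff_degree_lt hne).2 h4
    omega
  exact CubicAux.cpoly_inj (sub_eq_zero.1 h2)

theorem aeval_cpoly_surj {K : Type} [Field K] [Fintype K] [Algebra (ZMod 2) K] {ℓ : ℕ} {t : K}
    (hK : Fintype.card K = 2 ^ ℓ) (ht : (minpoly (ZMod 2) t).natDegree = ℓ) :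
    Function.Surjective fun c : Fin ℓ → ZMod 2 => aeval t (cpoly c) := by
  have hc : Fintype.card (Fin ℓ → ZMod 2) = Fintype.card K := by
    rw [hK, Fintype.card_fun, ZMod.card, Fintype.card_fin]
  exact ((Fintype.bijective_iff_injective_and_card _).2 ⟨aeval_cpoly_inj ht, hc⟩).2

end IrrSepAux

open IrrSepAux

theorem points_sep {K : Type} [Field K] [Fintype K] [Algebra (ZMod 2) K] {ℓ D p : ℕ}
    (hK : Fintype.card K = 2 ^ ℓ) {Θ : Finset K} (hΘ : Points K ℓ Θ) (hp : 1 ≤ p)
    (hD : 2 * p * ℓ ≤ D) :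
    ∀ t ∈ Θ, ∀ S ⊆ Θ, t ∉ S → S.card < 2 * p →
      ∀ y : K, ∃ z : Fin D → ZMod 2, evalHom D t z = y ∧ ∀ s ∈ S, evalHom D s z = 0 := by
  intro t ht S hS htS hcard y
  have htd := hΘ.degree t ht
  have hmono : ∀ s : K, (minpoly (ZMod 2) s).Monic := fun s =>
    minpoly.monic (isIntegral_of_fintype s)
  set R : (ZMod 2)[X] := ∏ s ∈ S, minpoly (ZMod 2) s with hR
  have hRm : R.Monic := monic_prod_of_monic _ _ fun s _ => hmono s
  have hRd : R.natDegree = S.card * ℓ := by
    rw [hR, natDegree_prod_of_monic _ _ fun s _ => hmono s,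
      Finset.sum_congr rfl fun s hs => hΘ.degree s (hS hs), sum_const, smul_eq_mul]
  have hRt : aeval t R ≠ 0 := by
    rw [hR, map_prod]
    refine prod_ne_zero_iff.2 fun s hs h0 => ?_
    have hd := minpoly.dvd (ZMod 2) t h0
    have hirr : Irreducible (minpoly (ZMod 2) s) := minpoly.irreducible (isIntegral_of_fintype s)
    have hirt : Irreducible (minpoly (ZMod 2) t) := minpoly.irreducible (isIntegral_of_fintype t)
    have heq := eq_of_monic_of_associated (hmono t) (hmono s)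
      (hirt.associated_of_dvd hirr hd)
    have := hΘ.inj t ht s (hS hs) heq
    exact htS (this ▸ hs)
  obtain ⟨b, hb⟩ := aeval_cpoly_surj hK htd (y / aeval t R)
  have hb' : aeval t (cpoly b) = y / aeval t R := hb
  have hdeg : (R * cpoly b).degree < ((D : ℕ) : WithBot ℕ) := by
    by_cases hz : cpoly b = 0
    · rw [hz, mul_zero, degree_zero]
      exact WithBot.bot_lt_coe _
    · have h1 : (cpoly b).natDegree < ℓ :=
        (natDegree_lt_iff_degree_lt hz).2 (CubicAux.degree_cpoly b)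
      rw [← natDegree_lt_iff_degree_lt (mul_ne_zero hRm.ne_zero hz),
        natDegree_mul hRm.ne_zero hz, hRd]
      have h2 : (S.card + 1) * ℓ ≤ 2 * p * ℓ := Nat.mul_le_mul_right _ (by omega)
      have h3 : (S.card + 1) * ℓ = S.card * ℓ + ℓ := by ring
      omega
  obtain ⟨z, hz⟩ := CubicAux.exists_cpoly (m := D) (R * cpoly b) hdeg
  refine ⟨z, ?_, ?_⟩
  · rw [evalHom_eq, hz, map_mul, hb', mul_div_cancel₀ _ hRt]
  · intro s hs
    rw [evalHom_eq, hz, map_mul]
    have h0 : aeval s R = 0 := by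
      rw [hR, map_prod]
      exact prod_eq_zero hs (minpoly.aeval (ZMod 2) s)
    rw [h0, zero_mul]

theorem points_iff {K : Type} [Field K] [Fintype K] [Algebra (ZMod 2) K] {ℓ : ℕ}
    {Θ : Finset K} (hΘ : Points K ℓ Θ) (P : (ZMod 2)[X]) :
    (∃ π : (ZMod 2)[X], Irreducible π ∧ π.natDegree = ℓ ∧ π ∣ P) ↔ ∃ t ∈ Θ, aeval t P = 0 := by
  constructor
  · rintro ⟨π, h1, h2, Q, rfl⟩
    obtain ⟨θ, hθ, h0⟩ := hΘ.complete π h1 h2
    exact ⟨θ, hθ, by rw [map_mul, h0, zero_mul]⟩
  · rintro ⟨t, ht, h0⟩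
    exact ⟨minpoly (ZMod 2) t, minpoly.irreducible (isIntegral_of_fintype t), hΘ.degree t ht,
      minpoly.dvd (ZMod 2) t h0⟩

end Pool.Agent.LT
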