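import Pool.Agent.Lib.MP_b573ec_lc_LT.V2.NumericCore

set_option autoImplicit false

namespace Pool.Agent.LT

open Finset Polynomial

namespace NumericQ1Aux

/-- the exponent of a power of two below a power of `2kh` -/
theorem log_mul_le (x E h : ℕ) (hx : 1 ≤ x) (hxh : x ^ E ≤ 2 ^ h) : Nat.log 2 x * E ≤ h := by
  have h1 : 2 ^ Nat.log 2 x ≤ x := Nat.pow_log_le_self 2 (by omega)
  have h2 : 2 ^ (Nat.log 2 x * E) ≤ 2 ^ h := by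
    rw [pow_mul]
    exact (Nat.pow_le_pow_left h1 E).trans hxh
  exact (Nat.pow_le_pow_iff_right (by norm_num)).1 h2

theorem h0_aux (k h t : ℕ) (hk : 1 ≤ k) (ht : 1 ≤ t) (ht2 : 2 * k * h < 2 ^ (t + 1))
    (hh : t * (10 ^ 10 * k ^ 2) ≤ h) :
    100000 * (16 * k + 1) ^ 2 * (Nat.log 2 (2 * (16 * k + 1) * h) + 1) ≤ h := by
  have h1 : 2 * (16 * k + 1) * h < 2 ^ (t + 6) := by
    have h2 : 2 * (16 * k + 1) * h ≤ 17 * (2 * k * h) := by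
      calc 2 * (16 * k + 1) * h ≤ 2 * (17 * k) * h :=
            Nat.mul_le_mul_right _ (Nat.mul_le_mul_left _ (by omega))
        _ = 17 * (2 * k * h) := by ring
    have h3 : (2 : ℕ) ^ (t + 6) = 2 ^ (t + 1) * 32 := by
      rw [show t + 6 = (t + 1) + 5 from rfl, pow_add 2 (t + 1) 5]
      norm_num
    omega
  have h2 : Nat.log 2 (2 * (16 * k + 1) * h) + 1 ≤ 7 * t := by
    have h3 : Nat.log 2 (2 * (16 * k + 1) * h) < t + 6 :=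
      Nat.log_lt_of_lt_pow' (by omega) h1
    omega
  have h3 : (16 * k + 1) ^ 2 ≤ 289 * k ^ 2 := by
    calc (16 * k + 1) ^ 2 ≤ (17 * k) ^ 2 := Nat.pow_le_pow_left (by omega) 2
      _ = 289 * k ^ 2 := by ring
  calc 100000 * (16 * k + 1) ^ 2 * (Nat.log 2 (2 * (16 * k + 1) * h) + 1)
      ≤ 100000 * (289 * k ^ 2) * (7 * t) :=
        Nat.mul_le_mul (Nat.mul_le_mul_left _ h3) h2
    _ = 202300000 * (k ^ 2 * t) := by ring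
    _ ≤ 10 ^ 10 * (k ^ 2 * t) := Nat.mul_le_mul_right _ (by norm_num)
    _ = t * (10 ^ 10 * k ^ 2) := by ring
    _ ≤ h := hh

/-- all facts about `M = n / 2^h` -/
theorem M_facts (n S h : ℕ) (hS : 1 ≤ S) (hh : 20 ≤ h) (hn : S * 4 ^ h ≤ n) :
    S * 2 ^ h ≤ n / 2 ^ h ∧ 2 ^ h ≤ n / 2 ^ h ∧ 2 ^ h * (n / 2 ^ h) ≤ n ∧
      n < 2 ^ h * (2 * (n / 2 ^ h)) ∧ 2 ^ 20 * (n / 2 ^ h) ≤ n ∧ 2 ^ 20 ≤ n / 2 ^ h := by
  have hp : 0 < 2 ^ h := by positivity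
  have h20 : 2 ^ 20 ≤ 2 ^ h := Nat.pow_le_pow_right (by norm_num) hh
  have h4 : 4 ^ h = 2 ^ h * 2 ^ h := by
    rw [← mul_pow]
    norm_num
  rw [h4, ← mul_assoc] at hn
  have h1 : S * 2 ^ h ≤ n / 2 ^ h := (Nat.le_div_iff_mul_le hp).2 hn
  have h2 : 2 ^ h ≤ S * 2 ^ h := Nat.le_mul_of_pos_left _ hS
  have h3 : 2 ^ h * (n / 2 ^ h) ≤ n := Nat.mul_div_le _ _
  have h5 : n < 2 ^ h * (n / 2 ^ h + 1) := Nat.lt_mul_div_succ n hp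
  have h6 : 2 ^ h ≤ n / 2 ^ h := h2.trans h1
  refine ⟨h1, h6, h3, lt_of_lt_of_le h5 ?_, (Nat.mul_le_mul_right _ h20).trans h3,
    h20.trans h6⟩
  exact Nat.mul_le_mul_left _ (by omega)

theorem pow_n5 (n : ℕ) (hn : 2 ^ 20 ≤ n) : 2 ^ (4 * (Nat.log 2 n + 5)) ≤ n ^ 5 := by
  have h1 : 2 ^ Nat.log 2 n ≤ n := Nat.pow_log_le_self 2 (by omega)
  calc 2 ^ (4 * (Nat.log 2 n + 5)) = (2 ^ Nat.log 2 n) ^ 4 * 2 ^ 20 := by
        rw [← pow_mul, ← pow_add]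
        congr 1
        ring
    _ ≤ n ^ 4 * n := Nat.mul_le_mul (Nat.pow_le_pow_left h1 4) hn
    _ = n ^ 5 := by ring

end NumericQ1Aux

open NumericQ1Aux

theorem numericQ1 : ∃ C : ℕ, ∀ n k S h : ℕ, 1 ≤ k → 1 ≤ S → 1 ≤ h →
    (2 * k * h) ^ (C * k ^ 2) ≤ 2 ^ h → S * 4 ^ h ≤ n →
    ∃ k0 L r e lam : ℕ, 1 ≤ k0 ∧ 1 ≤ n / 2 ^ h ∧ n / 2 ^ h ≤ n ∧ 8 * (n / 2 ^ h) < n / 4 ∧
      k * n + (n / 4 - 8 * (n / 2 ^ h)) ≤ k0 * (n / 4 - 8 * (n / 2 ^ h)) ∧ 1 ≤ L ∧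
      k0 * (n / 4 - 8 * (n / 2 ^ h)) ≤ r * L ∧
      16 * k0 * RR2 k0 (2 ^ 40 * h ^ 2) * (16 * h * (4 * (n / 2 ^ h))) ≤
        n / 4 - 8 * (n / 2 ^ h) ∧
      512 * k0 ^ 2 * RR2 k0 (2 ^ 40 * h ^ 2) * L ≤ n / 4 - 8 * (n / 2 ^ h) ∧
      64 * (16 * h * (4 * (n / 2 ^ h))) ≤ (e + 1) * (2 ^ 40 * h ^ 2) ∧
      64 * typ2 k0 (2 ^ 40 * h ^ 2) * 2 ^ (S * r) * nsub (n / 4 - 8 * (n / 2 ^ h)) e ≤ 2 ^ lam ∧
      64 * (lam + 4 * h + 2) ≤ 4 * (n / 2 ^ h) ∧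
      (3 * (n / 4 - 8 * (n / 2 ^ h))) ^ 4 < 2 ^ (4 * h) * (4 * (4 * (n / 2 ^ h))) ^ 4 ∧
      4 * (4 * (n / 2 ^ h)) ≤ n / 4 - 8 * (n / 2 ^ h) ∧
      2 ^ (4 * (Nat.log 2 n + 5)) ≤ n ^ 5 := by
  refine ⟨10 ^ 10, fun n k S h hk hS hh hC hn => ?_⟩
  have hkh : 1 ≤ k * h := Nat.mul_pos hk hh
  have h2kh : 2 ≤ 2 * k * h := by
    have : 2 * k * h = 2 * (k * h) := by ring
    omega
  have ht1 : 1 ≤ Nat.log 2 (2 * k * h) := by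
    rw [Nat.le_log_iff_pow_le (by norm_num) (by omega)]
    omega
  have ht2 : 2 * k * h < 2 ^ (Nat.log 2 (2 * k * h) + 1) :=
    Nat.lt_pow_succ_log_self (by norm_num) _
  have ht3 : Nat.log 2 (2 * k * h) * (10 ^ 10 * k ^ 2) ≤ h :=
    log_mul_le _ _ _ (by omega) hC
  generalize Nat.log 2 (2 * k * h) = t at ht1 ht2 ht3
  have hh0 := h0_aux k h t hk ht1 ht2 ht3
  have hh20 : 20 ≤ h := by
    have hk2 : 1 ≤ k ^ 2 := Nat.one_le_pow _ _ hk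
    have h3 : 10 ^ 10 * 1 ≤ 10 ^ 10 * k ^ 2 := Nat.mul_le_mul_left _ hk2
    have h4 : 10 ^ 10 * k ^ 2 ≤ t * (10 ^ 10 * k ^ 2) := Nat.le_mul_of_pos_left _ ht1
    omega
  obtain ⟨hM1, hM2, hM3, hM4, hM5, hM6⟩ := M_facts n S h hS hh20 hn
  have hn20 : 2 ^ 20 ≤ n := by omega
  have hn5 := pow_n5 n hn20
  generalize n / 2 ^ h = M at hM1 hM2 hM3 hM4 hM5 hM6 ⊢
  have hn' : n ≤ 8 * (n / 4 - 8 * M) := by omega
  have hn'' : 4 * (n / 4 - 8 * M) ≤ n := by omega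
  have hlt : 8 * M < n / 4 := by omega
  generalize n / 4 - 8 * M = n' at hn' hn'' ⊢
  have c1 : 3 * n' < 2 ^ h * (4 * (4 * M)) := by
    have h5 : 2 ^ h * (4 * (4 * M)) = 8 * (2 ^ h * (2 * M)) := by ring
    rw [h5]
    omega
  have c2 : 2 ^ h * (4 * M) ≤ 32 * n' := by
    have h5 : 2 ^ h * (4 * M) = 4 * (2 ^ h * M) := by ring
    rw [h5]
    omega
  have c3 : S * 2 ^ h ≤ 16 * h * (4 * M) := by
    refine hM1.trans ?_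
    calc M ≤ 64 * h * M := Nat.le_mul_of_pos_left _ (by omega)
      _ = 16 * h * (4 * M) := by ring
  obtain ⟨L, r, e, lam, d1, d2, d3, d4, d5, d6, d7⟩ :=
    numericCore (16 * k + 1) h n' (4 * M) S (by omega) hh hS hh0 c1 c2 c3 (by omega)
  refine ⟨16 * k + 1, L, r, e, lam, by omega, by omega, by omega, hlt, ?_, d1, d2, d3, d4, d5,
    d6, d7, ?_, by omega, hn5⟩
  · calc k * n + n' ≤ k * (8 * n') + n' := Nat.add_le_add_right (Nat.mul_le_mul_left _ hn') _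
      _ ≤ 16 * (k * n') + n' := by
          have h5 : k * (8 * n') = 8 * (k * n') := by ring
          omega
      _ = (16 * k + 1) * n' := by ring
  · have h5 : 2 ^ (4 * h) * (4 * (4 * M)) ^ 4 = (2 ^ h * (4 * (4 * M))) ^ 4 := by
      rw [mul_pow (2 ^ h), ← pow_mul, mul_comm h 4]
    rw [h5]
    exact Nat.pow_lt_pow_left c1 (by norm_num)

end Pool.Agent.LT
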