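import Pool.Agent.Lib.MP_b573ec_lc_LT.V2.NumericCore

/-!
# V15c NumericQ2: parameters of the second theorem
-/

namespace Pool.Agent.LT

open Finset Polynomial

namespace NumericQ2Aux

theorem pow_big (b : ℕ) (hb : 20 ≤ b) : 6144 * b ≤ 2 ^ b := by
  induction b, hb using Nat.le_induction with
  | base => norm_num
  | succ b hb ih => rw [pow_succ]; omega

/-- the exponents -/
theorem exp_le {k h M : ℕ} (hk : 1 ≤ k) (hh : 1 ≤ h) (H : (2 * k * h) ^ M ≤ 2 ^ h) :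
    Nat.log 2 (2 * k * h) * M ≤ h := by
  have h0 : 2 * k * h ≠ 0 := by positivity
  have h1 : (2 ^ Nat.log 2 (2 * k * h)) ^ M ≤ 2 ^ h :=
    le_trans (Nat.pow_le_pow_left (Nat.pow_log_le_self 2 h0) M) H
  rw [← pow_mul] at h1
  exact (Nat.pow_le_pow_iff_right (by norm_num)).1 h1

/-- the logarithm of the parameters -/
theorem log_le {k h t k0 : ℕ} (ht : Nat.log 2 (2 * k * h) = t)
    (hk0 : k0 ≤ 24577 * (t + 1) * k) (ht1 : 1 ≤ t) :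
    Nat.log 2 (2 * k0 * h) + 1 ≤ 10 * (t + 1) := by
  have h1 : 2 * k * h < 2 ^ (t + 1) := by
    rw [← ht]; exact Nat.lt_pow_succ_log_self (by norm_num) _
  have h2 : t + 1 < 2 ^ (t + 1) := Nat.lt_two_pow_self
  have h3 : 2 * k0 * h < 2 ^ (15 + 2 * (t + 1)) := by
    calc 2 * k0 * h ≤ 2 * (24577 * (t + 1) * k) * h := by gcongr
      _ = 24577 * (t + 1) * (2 * k * h) := by ring
      _ ≤ 24577 * (t + 1) * 2 ^ (t + 1) := by gcongr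
      _ < 2 ^ 15 * 2 ^ (t + 1) * 2 ^ (t + 1) := by
          have h5 : 24577 * (t + 1) < 2 ^ 15 * 2 ^ (t + 1) := by omega
          exact Nat.mul_lt_mul_of_pos_right h5 (by positivity)
      _ = 2 ^ (15 + 2 * (t + 1)) := by rw [pow_add, two_mul, pow_add]; ring
  have h4 : Nat.log 2 (2 * k0 * h) < 15 + 2 * (t + 1) := Nat.log_lt_of_lt_pow' (by omega) h3
  omega

/-- the last but one condition of the core -/
theorem core0 {k t h k0 l : ℕ} (ht1 : 1 ≤ t) (hk0 : k0 ≤ 24577 * (t + 1) * k)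
    (hl : l ≤ 10 * (t + 1)) (H : t * (10 ^ 17 * k ^ 2 * (t + 1) ^ 2) ≤ h) :
    100000 * k0 ^ 2 * l ≤ h := by
  refine le_trans ?_ H
  calc 100000 * k0 ^ 2 * l ≤ 100000 * (24577 * (t + 1) * k) ^ 2 * (10 * (t + 1)) := by gcongr
    _ = 604028929000000 * (t + 1) * (k ^ 2 * (t + 1) ^ 2) := by ring
    _ ≤ t * 10 ^ 17 * (k ^ 2 * (t + 1) ^ 2) := by
        apply Nat.mul_le_mul_right
        omega
    _ = t * (10 ^ 17 * k ^ 2 * (t + 1) ^ 2) := by ring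

theorem typ_le {k h t k0 : ℕ} (hh : 1 ≤ h) (ht : Nat.log 2 (2 * k * h) = t)
    (hk0 : k0 ≤ 24577 * (t + 1) * k) (ht1 : 1 ≤ t) {T l : ℕ} (hl : l ≤ 10 * (t + 1))
    (hT : T ≤ 2 ^ 12 * k0 ^ 4 * l) : 256 * T ≤ 2 ^ (128 * (t + 1)) := by
  have h1 : 2 * k * h < 2 ^ (t + 1) := by
    rw [← ht]; exact Nat.lt_pow_succ_log_self (by norm_num) _
  have h2 : t + 1 ≤ 2 ^ (t + 1) := Nat.lt_two_pow_self.le
  have h3 : k ≤ 2 ^ (t + 1) := by nlinarith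
  calc 256 * T ≤ 256 * (2 ^ 12 * (24577 * (t + 1) * k) ^ 4 * (10 * (t + 1))) := by
        refine Nat.mul_le_mul_left _ (le_trans hT ?_)
        gcongr
    _ ≤ 2 ^ 8 * (2 ^ 12 * (2 ^ 15 * 2 ^ (t + 1) * 2 ^ (t + 1)) ^ 4 * (2 ^ 4 * 2 ^ (t + 1))) := by
        gcongr <;> norm_num
    _ = 2 ^ (84 + 9 * (t + 1)) := by
        rw [← pow_add, ← pow_add, ← pow_mul, ← pow_add, ← pow_add, ← pow_add, ← pow_add]
        congr 1
        ring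
    _ ≤ 2 ^ (128 * (t + 1)) := Nat.pow_le_pow_right (by norm_num) (by omega)

/-- the sizes -/
theorem sizes {n h S : ℕ} (hS : 1 ≤ S) (hh : 20 ≤ h) (H : S * 4 ^ h ≤ n) :
    S * 2 ^ h ≤ n / 2 ^ h ∧ 2 ^ h ≤ n / 2 ^ h ∧ 2 ^ h * (n / 2 ^ h) ≤ n ∧
      n < 2 * (2 ^ h * (n / 2 ^ h)) ∧ n ≤ 16 * (n / 3 - 2 * (n / 2 ^ h)) ∧
      3 * (n / 3 - 2 * (n / 2 ^ h)) ≤ n ∧ 2 * (n / 2 ^ h) < n / 3 ∧
      4 * (n / 2 ^ h) ≤ n / 3 - 2 * (n / 2 ^ h) := by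
  have e4 : (4 : ℕ) ^ h = 2 ^ h * 2 ^ h := by
    rw [show (4 : ℕ) = 2 * 2 by norm_num, mul_pow]
  have hbig : 6144 * h ≤ 2 ^ h := pow_big h hh
  have hp : 0 < 2 ^ h := by positivity
  have a1 : S * 2 ^ h ≤ n / 2 ^ h := by
    rw [Nat.le_div_iff_mul_le hp, mul_assoc, ← e4]; exact H
  have a2 : 2 ^ h ≤ n / 2 ^ h := le_trans (Nat.le_mul_of_pos_left _ hS) a1
  have a3 : 2 ^ h * (n / 2 ^ h) ≤ n := Nat.mul_div_le n _
  have a4 : n < 2 ^ h * (n / 2 ^ h) + 2 ^ h := by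
    have := Nat.lt_mul_div_succ n hp
    rw [mul_add, mul_one] at this
    exact this
  have a5 : 2 ^ h ≤ 2 ^ h * (n / 2 ^ h) := Nat.le_mul_of_pos_right _ (by omega)
  have a6 : 6144 * (n / 2 ^ h) ≤ 2 ^ h * (n / 2 ^ h) := by
    apply Nat.mul_le_mul_right
    nlinarith
  refine ⟨a1, a2, a3, by omega, by omega, by omega, by omega, by omega⟩

/-- the number of points -/
theorem points {n h D lam : ℕ} (hh : 20 ≤ h) (hn0 : 2 ^ h * 2 ^ h ≤ n) (hD : 2 ^ h ≤ D)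
    (hn : n < 2 * (2 ^ h * D)) (hDn : D ≤ n) (hlam : 64 * (lam + 4 * h + 2) ≤ D) :
    ∃ p : ℕ, 1 ≤ p ∧ 2 * p * (3 * (Nat.log 2 n + 1)) ≤ D ∧
      (512 * p ^ 2) ^ p * 2 ^ (lam + 4 * h) * (2 * (3 * (Nat.log 2 n + 1))) ^ p ≤
        2 ^ (3 * (Nat.log 2 n + 1) * p) ∧
      2 ^ (3 * (3 * (Nat.log 2 n + 1))) ≤ n ^ 10 := by
  obtain ⟨a, ha⟩ : ∃ a, a = Nat.log 2 n + 1 := ⟨_, rfl⟩
  rw [← ha]
  have hp : 0 < 2 ^ h := by positivity
  have hn1 : n ≠ 0 := by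
    intro h0
    rw [h0] at hn0
    have : 0 < 2 ^ h * 2 ^ h := by positivity
    omega
  have b1 : 2 ^ a ≤ 2 * n := by
    rw [ha, pow_succ]
    have := Nat.pow_log_le_self 2 hn1
    omega
  have b2 : n < 2 ^ a := by
    rw [ha]; exact Nat.lt_pow_succ_log_self (by norm_num) _
  have b3 : 2 * h < a := by
    have h1 : 2 ^ (2 * h) < 2 ^ a := by
      rw [two_mul, pow_add]; omega
    exact (Nat.pow_lt_pow_iff_right (by norm_num)).1 h1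
  have b4 : 6144 * (a / 2) ≤ 2 ^ (a / 2) := pow_big _ (by omega)
  have b5 : 2 ^ (a / 2) * 2 ^ (a - a / 2) = 2 ^ a := by
    rw [← pow_add]; congr 1; omega
  have b6 : 2 ^ (a / 2) ≤ 2 ^ (a - a / 2) := Nat.pow_le_pow_right (by norm_num) (by omega)
  have b7 : 6 * a ≤ D := by
    by_contra hc
    rw [not_le] at hc
    have c1 : n < 2 * (D * D) := lt_of_lt_of_le hn (by gcongr)
    have c2 : 2 ^ a ≤ 4 * (D * D) := by omega
    have c3 : D ≤ 18 * (a / 2) := by omega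
    have c4 : (6144 * (a / 2)) * (6144 * (a / 2)) ≤ 2 ^ a := by
      rw [← b5]
      exact Nat.mul_le_mul b4 (le_trans b4 b6)
    have c5 : 4 * (D * D) ≤ 4 * ((18 * (a / 2)) * (18 * (a / 2))) := by gcongr
    have c6 : 0 < a / 2 := by omega
    nlinarith [Nat.mul_pos c6 c6]
  have hpa : 0 < 6 * a := by omega
  refine ⟨D / (6 * a), ?_, ?_, ?_, ?_⟩
  · exact Nat.div_pos b7 hpa
  · calc 2 * (D / (6 * a)) * (3 * a) = 6 * a * (D / (6 * a)) := by ring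
      _ ≤ D := Nat.mul_div_le D _
  · obtain ⟨p, hp⟩ : ∃ p, p = D / (6 * a) := ⟨_, rfl⟩
    rw [← hp]
    have p1 : 1 ≤ p := by rw [hp]; exact Nat.div_pos b7 hpa
    have p2 : D < 6 * a * (p + 1) := by
      rw [hp]; exact Nat.lt_mul_div_succ D hpa
    have p3 : p ≤ 2 ^ a := by
      rw [hp]
      exact le_trans (Nat.div_le_self _ _) (by omega)
    have p4 : lam + 4 * h ≤ a / 2 * p := by
      have q1 : D < 12 * (a * p) := by nlinarith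
      have q2 : 16 * (lam + 4 * h) ≤ 3 * (a * p) := by omega
      have q3 : 3 * a ≤ 16 * (a / 2) := by omega
      have q4 : 3 * (a * p) ≤ 16 * (a / 2 * p) := by
        have := Nat.mul_le_mul_right p q3
        nlinarith
      omega
    have p5 : 512 * p ^ 2 * 2 ^ (a / 2) * (2 * (3 * a)) ≤ 2 ^ (3 * a) := by
      calc 512 * p ^ 2 * 2 ^ (a / 2) * (2 * (3 * a))
          ≤ 512 * (2 ^ a) ^ 2 * 2 ^ (a / 2) * (2 * (3 * a)) := by gcongr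
        _ = (2 ^ a) ^ 2 * (2 ^ (a / 2) * (3072 * a)) := by ring
        _ ≤ (2 ^ a) ^ 2 * (2 ^ (a / 2) * 2 ^ (a - a / 2)) := by
            gcongr
            have := pow_big (a - a / 2) (by omega)
            omega
        _ = 2 ^ (3 * a) := by
            rw [b5, ← pow_mul, ← pow_add]; congr 1; ring
    calc (512 * p ^ 2) ^ p * 2 ^ (lam + 4 * h) * (2 * (3 * a)) ^ p
        ≤ (512 * p ^ 2) ^ p * 2 ^ (a / 2 * p) * (2 * (3 * a)) ^ p := by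
          gcongr
          norm_num
      _ = (512 * p ^ 2 * 2 ^ (a / 2) * (2 * (3 * a))) ^ p := by
          rw [pow_mul, ← mul_pow, ← mul_pow]
      _ ≤ (2 ^ (3 * a)) ^ p := Nat.pow_le_pow_left p5 _
      _ = 2 ^ (3 * a * p) := by rw [← pow_mul]
  · have c1 : 512 ≤ n := by
      have := pow_big h hh
      nlinarith
    calc 2 ^ (3 * (3 * a)) = (2 ^ a) ^ 9 := by rw [← pow_mul]; congr 1; ring
      _ ≤ (2 * n) ^ 9 := by gcongr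
      _ = 512 * n ^ 9 := by ring
      _ ≤ n * n ^ 9 := by gcongr
      _ = n ^ 10 := by ring

end NumericQ2Aux

open NumericQ2Aux in
theorem numericQ2 : ∃ C : ℕ, ∀ n k S h : ℕ, 1 ≤ k → 1 ≤ S → 1 ≤ h →
    (2 * k * h) ^ (C * k ^ 2 * (Nat.log 2 (2 * k * h) + 1) ^ 2) ≤ 2 ^ h → S * 4 ^ h ≤ n →
    ∃ k0 L r e lam s p : ℕ, 1 ≤ k0 ∧ 1 ≤ s ∧ 1 ≤ n / 2 ^ h ∧ 2 * (n / 2 ^ h) < n / 3 ∧
      12 * s * (k * n) + (n / 3 - 2 * (n / 2 ^ h)) ≤ k0 * (n / 3 - 2 * (n / 2 ^ h)) ∧ 1 ≤ L ∧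
      k0 * (n / 3 - 2 * (n / 2 ^ h)) ≤ r * L ∧
      16 * k0 * RR2 k0 (2 ^ 40 * h ^ 2) * (16 * h * (n / 2 ^ h)) ≤ n / 3 - 2 * (n / 2 ^ h) ∧
      512 * k0 ^ 2 * RR2 k0 (2 ^ 40 * h ^ 2) * L ≤ n / 3 - 2 * (n / 2 ^ h) ∧
      64 * (16 * h * (n / 2 ^ h)) ≤ (e + 1) * (2 ^ 40 * h ^ 2) ∧
      64 * typ2 k0 (2 ^ 40 * h ^ 2) * (2 ^ S * (12 * s + 1)) ^ r *
        nsub (n / 3 - 2 * (n / 2 ^ h)) e ≤ 2 ^ lam ∧
      256 * typ2 k0 (2 ^ 40 * h ^ 2) ≤ 2 ^ s ∧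
      (3 * (n / 3 - 2 * (n / 2 ^ h))) ^ 4 < 2 ^ (4 * h) * (4 * (n / 2 ^ h)) ^ 4 ∧
      4 * (n / 2 ^ h) ≤ n / 3 - 2 * (n / 2 ^ h) ∧ 1 ≤ p ∧
      2 * p * (3 * (Nat.log 2 n + 1)) ≤ n / 2 ^ h ∧
      (512 * p ^ 2) ^ p * 2 ^ (lam + 4 * h) * (2 * (3 * (Nat.log 2 n + 1))) ^ p ≤
        2 ^ (3 * (Nat.log 2 n + 1) * p) ∧
      2 ^ (3 * (3 * (Nat.log 2 n + 1))) ≤ n ^ 10 := by
  refine ⟨10 ^ 17, ?_⟩
  intro n k S h hk hS hh H Hn
  have H1 := exp_le hk hh H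
  obtain ⟨t, ht⟩ : ∃ t, Nat.log 2 (2 * k * h) = t := ⟨_, rfl⟩
  rw [ht] at H1
  have ht1 : 1 ≤ t := by
    rw [← ht]
    apply Nat.log_pos (by norm_num)
    nlinarith
  have hhbig : 10 ^ 17 * (t + 1) ≤ h := by
    refine le_trans ?_ H1
    have e1 : 1 ≤ t * k ^ 2 * (t + 1) := Nat.succ_le_of_lt (by positivity)
    calc 10 ^ 17 * (t + 1) = 10 ^ 17 * (t + 1) * 1 := by ring
      _ ≤ 10 ^ 17 * (t + 1) * (t * k ^ 2 * (t + 1)) := Nat.mul_le_mul_left _ e1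
      _ = t * (10 ^ 17 * k ^ 2 * (t + 1) ^ 2) := by ring
  obtain ⟨k0, hk0⟩ : ∃ k0, k0 = 192 * (128 * (t + 1)) * k + 1 := ⟨_, rfl⟩
  have hk0le : k0 ≤ 24577 * (t + 1) * k := by
    have : 1 ≤ (t + 1) * k := Nat.succ_le_of_lt (by positivity)
    rw [hk0]
    nlinarith
  have hk01 : 1 ≤ k0 := by rw [hk0]; exact Nat.le_add_left _ _
  have hl := log_le ht hk0le ht1
  have h20 : 20 ≤ h := by omega
  obtain ⟨z1, z2, z3, z4, z5, z6, z7, z8⟩ := sizes hS h20 Hn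
  obtain ⟨D, hD⟩ : ∃ D, D = n / 2 ^ h := ⟨_, rfl⟩
  obtain ⟨n', hn'⟩ : ∃ n', n' = n / 3 - 2 * D := ⟨_, rfl⟩
  rw [← hD] at z1 z2 z3 z4 z5 z6 z7 z8 ⊢
  rw [← hn'] at z5 z6 z8 ⊢
  obtain ⟨S', hS'⟩ : ∃ S', S' = S + (Nat.log 2 (12 * (128 * (t + 1)) + 1) + 1) := ⟨_, rfl⟩
  have hS'1 : 2 ^ S * (12 * (128 * (t + 1)) + 1) ≤ 2 ^ S' := by
    rw [hS', pow_add]
    gcongr
    exact (Nat.lt_pow_succ_log_self (by norm_num) _).le
  have hS'2 : S' ≤ 2 * h * S := by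
    have e1 : Nat.log 2 (12 * (128 * (t + 1)) + 1) ≤ 12 * (128 * (t + 1)) + 1 :=
      Nat.log_le_self _ _
    have e2 : S' ≤ S + h := by omega
    nlinarith
  obtain ⟨L, r, e, lam, c1, c2, c3, c4, c5, c6, c7⟩ :=
    numericCore k0 h n' D S' hk01 hh (by omega) (core0 ht1 hk0le hl H1)
      (by
        calc 3 * n' ≤ n := z6
          _ < 2 * (2 ^ h * D) := z4
          _ ≤ 2 ^ h * (4 * D) := by nlinarith)
      (by omega)
      (by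
        calc S' * 2 ^ h ≤ 2 * h * S * 2 ^ h := by gcongr
          _ = 2 * h * (S * 2 ^ h) := by ring
          _ ≤ 2 * h * D := by gcongr
          _ ≤ 16 * h * D := by gcongr; norm_num)
      z2
  have hn0 : 2 ^ h * 2 ^ h ≤ n := by
    refine le_trans ?_ z3
    gcongr
  have hDn : D ≤ n := by rw [hD]; exact Nat.div_le_self _ _
  obtain ⟨p, p1, p2, p3, p4⟩ := points h20 hn0 z2 z4 hDn c7
  have hD1 : 1 ≤ D := le_trans Nat.one_le_two_pow z2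
  refine ⟨k0, L, r, e, lam, 128 * (t + 1), p, hk01, by omega, hD1, z7, ?_, c1, c2, c3, c4, c5,
    ?_, ?_, ?_, z8, p1, p2, p3, p4⟩
  · calc 12 * (128 * (t + 1)) * (k * n) + n'
        ≤ 12 * (128 * (t + 1)) * (k * (16 * n')) + n' := by gcongr
      _ = k0 * n' := by rw [hk0]; ring
  · refine le_trans ?_ c6
    have e1 : (2 ^ S * (12 * (128 * (t + 1)) + 1)) ^ r ≤ 2 ^ (S' * r) := by
      rw [pow_mul]; exact Nat.pow_le_pow_left hS'1 r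
    gcongr
  · exact typ_le hh ht hk0le ht1 hl (typ2_le k0 h hk01 hh)
  · have e1 : 3 * n' < 2 ^ h * (4 * D) := by
      calc 3 * n' ≤ n := z6
        _ < 2 * (2 ^ h * D) := z4
        _ ≤ 2 ^ h * (4 * D) := by nlinarith
    calc (3 * n') ^ 4 < (2 ^ h * (4 * D)) ^ 4 := Nat.pow_lt_pow_left e1 (by norm_num)
      _ = 2 ^ (4 * h) * (4 * D) ^ 4 := by rw [mul_pow, ← pow_mul, mul_comm h 4]

end Pool.Agent.LT
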