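import Pool.Agent.Lib.MP_b573ec_lc_LT.V2.Defs3
import Pool.Agent.Lib.MP_b573ec_lc_LT.Profile

/-!
# Profile2: a scale at which one multiplicity dominates, sharper version
-/

namespace Pool.Agent.LT

open Finset Polynomial

namespace Profile2Aux

/-- weight of the multiplicity `i` at the scale `Q` -/
noncomputable def aw {n : ℕ} (f : Fin n → ℕ) (Q : ℝ) (i : ℕ) : ℝ :=
  (ProfileAux.cnt f i : ℝ) / Q ^ i

theorem aw_nonneg {n : ℕ} (f : Fin n → ℕ) {Q : ℝ} (hQ : 0 < Q) (i : ℕ) : 0 ≤ aw f Q i := by
  unfold aw; positivity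

theorem aw_mul {n : ℕ} (f : Fin n → ℕ) (Q κ : ℝ) (i : ℕ) :
    aw f (Q * κ) i = aw f Q i / κ ^ i := by
  unfold aw
  rw [mul_pow, div_div]

theorem exists_first_max (K : ℕ) (hK : 1 ≤ K) (g : ℕ → ℝ) :
    ∃ j ∈ Icc 1 K, (∀ i ∈ Icc 1 K, g i ≤ g j) ∧ ∀ i ∈ Icc 1 K, i < j → g i < g j := by
  classical
  obtain ⟨j0, hj0, hmax⟩ := Finset.exists_max_image (Icc 1 K) g
    ⟨1, Finset.mem_Icc.mpr ⟨le_refl 1, hK⟩⟩
  have hne : ((Icc 1 K).filter fun i => g i = g j0).Nonempty :=
    ⟨j0, Finset.mem_filter.mpr ⟨hj0, rfl⟩⟩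
  obtain ⟨hj, hgj⟩ := Finset.mem_filter.mp (Finset.min'_mem _ hne)
  refine ⟨_, hj, fun i hi => ?_, fun i hi hij => ?_⟩
  · rw [hgj]; exact hmax i hi
  · rw [hgj]
    refine lt_of_le_of_ne (hmax i hi) fun h => ?_
    have := Finset.min'_le ((Icc 1 K).filter fun i => g i = g j0) i
      (Finset.mem_filter.mpr ⟨hi, h⟩)
    omega

theorem exists_const (K : ℕ) (J : ℕ → ℕ) (h1 : ∀ m, 1 ≤ J m) (h2 : J 0 ≤ K)
    (hanti : ∀ m, J (m + 1) ≤ J m) :
    ∃ t < K, J (2 * t) = J (2 * t + 1) ∧ J (2 * t + 2) = J (2 * t + 1) := by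
  by_contra hcon
  push Not at hcon
  have hstep : ∀ t < K, J (2 * t + 2) + 1 ≤ J (2 * t) := by
    intro t ht
    have e1 := hanti (2 * t)
    have e2 := hanti (2 * t + 1)
    have e3 : J (2 * t + 2) ≤ J (2 * t + 1) := e2
    by_cases h : J (2 * t) = J (2 * t + 1)
    · have := hcon t ht h
      omega
    · omega
  have hind : ∀ t ≤ K, J (2 * t) + t ≤ J 0 := by
    intro t
    induction t with
    | zero => intro _; simp
    | succ t ih =>
      intro ht
      have e1 := ih (by omega)
      have e2 := hstep t (by omega)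
      have e3 : 2 * (t + 1) = 2 * t + 2 := by ring
      rw [e3]
      omega
  have e1 := hind K le_rfl
  have e2 := h1 (2 * K)
  omega

theorem choose_le {i T : ℕ} (hT : 1 ≤ T) : 2 * i.choose (T + 1) ≤ i ^ (T + 1) := by
  have h1 := Nat.descFactorial_le_pow i (T + 1)
  rw [Nat.descFactorial_eq_factorial_mul_choose] at h1
  refine le_trans (Nat.mul_le_mul_right _ ?_) h1
  calc 2 = Nat.factorial 2 := by simp
    _ ≤ Nat.factorial (T + 1) := Nat.factorial_le (by omega)

theorem sum_choose_le {i : ℕ} (hi : 2 ≤ i) (T : ℕ) (hT : 1 ≤ T) :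
    ∑ t ∈ Icc 1 T, i.choose t ≤ i ^ T := by
  induction T, hT using Nat.le_induction with
  | base => simp
  | succ T hT ih =>
    rw [Finset.sum_Icc_succ_top (by omega)]
    have h1 := choose_le (i := i) hT
    have h2 : 2 * i ^ T ≤ i ^ (T + 1) := by
      rw [pow_succ, mul_comm 2]
      exact Nat.mul_le_mul_left _ hi
    omega

theorem cnt_le_pow {i j : ℕ} (hj : 1 ≤ j) (hij : j < i) : cnt i j ≤ i ^ (i - j) :=
  sum_choose_le (by omega) _ (by omega)

theorem cnt_le_two_pow (i j : ℕ) : cnt i j ≤ 2 ^ i := by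
  unfold cnt
  rw [← Nat.sum_range_choose]
  apply Finset.sum_le_sum_of_subset
  intro t ht
  have := Finset.mem_Icc.mp ht
  exact Finset.mem_range.mpr (by omega)

theorem geom_small (x : ℝ) (hx0 : 0 ≤ x) (hx : x ≤ 1 / 2) (N : ℕ) :
    ∑ t ∈ Finset.range N, x ^ (t + 1) ≤ 2 * x := by
  have h1 : ∑ t ∈ Finset.range N, x ^ (t + 1) = x * ∑ t ∈ Finset.range N, x ^ t := by
    rw [Finset.mul_sum]
    apply Finset.sum_congr rfl
    intro t _
    rw [pow_succ, mul_comm]
  have h2 : ∑ t ∈ Finset.range N, x ^ t ≤ 2 := by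
    have h3 : (∑ t ∈ Finset.range N, x ^ t) * (1 - x) ≤ 1 := by
      have h4 := geom_sum_mul_neg x N
      rw [h4]
      have : 0 ≤ x ^ N := by positivity
      linarith
    by_contra h5
    push Not at h5
    nlinarith
  rw [h1]
  nlinarith

end Profile2Aux

open Profile2Aux

theorem exists_scale2 (n k E : ℕ) (hn : 1 ≤ n) (hk : 1 ≤ k) (hE : 1 ≤ E) (f : Fin n → ℕ)
    (hf : ∀ v, 1 ≤ f v) (hsum : ∑ v, f v ≤ k * n) :
    ∃ m ≤ 4 * k, ∃ j, 1 ≤ j ∧ j ≤ 2 * k ∧
      0 < (univ.filter fun v => f v = j).card ∧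
      n * (QQ k E m) ^ j ≤ 4 * k * (univ.filter fun v => f v = j).card * (QQ k E m) ^ (2 * k) ∧
      (∑ v ∈ univ.filter (fun v => f v < j), 2 / (QQ k E m : ℝ) ^ f v) +
        (∑ v ∈ univ.filter (fun v => j < f v), 2 * (cnt (f v) j : ℝ) / (QQ k E m : ℝ) ^ f v) ≤
        ((univ.filter fun v => f v = j).card : ℝ) / (E * (QQ k E m : ℝ) ^ j) := by
  have hkR : (1 : ℝ) ≤ k := by exact_mod_cast hk
  have hER : (1 : ℝ) ≤ E := by exact_mod_cast hE
  set κ : ℝ := 64 * k * E with hκ
  have hκ64 : 64 ≤ κ := by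
    rw [hκ]
    have : (1 : ℝ) ≤ k * E := by nlinarith
    nlinarith
  have hκ0 : 0 < κ := by linarith
  have hκ1 : 1 ≤ κ := by linarith
  have hQsucc : ∀ m, (QQ k E (m + 1) : ℝ) = (QQ k E m : ℝ) * κ := by
    intro m
    unfold QQ
    push_cast
    rw [hκ, pow_succ]
    ring
  have hQpos : ∀ m, (0 : ℝ) < (QQ k E m : ℝ) := by
    intro m
    unfold QQ
    have : (0 : ℝ) < k := by linarith
    have : (0 : ℝ) < E := by linarith
    push_cast
    positivity
  have hQge : ∀ m, 32 * (k : ℝ) * 4 ^ k * E ≤ (QQ k E m : ℝ) := by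
    intro m
    induction m with
    | zero =>
      unfold QQ
      push_cast
      simp
    | succ m ih =>
      rw [hQsucc]
      nlinarith [hQpos m]
  obtain ⟨i0, hi0, hni0⟩ := ProfileAux.exists_i0 n k hn f hf hsum
  choose J hJmem hJmax hJfirst using fun m => exists_first_max (2 * k) (by omega)
    (aw f (QQ k E m : ℝ))
  have hJanti : ∀ m, J (m + 1) ≤ J m := by
    intro m
    by_contra hlt
    push Not at hlt
    have h1 := hJfirst (m + 1) (J m) (hJmem m) hlt
    rw [hQsucc, aw_mul, aw_mul] at h1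
    have h2 := hJmax m (J (m + 1)) (hJmem (m + 1))
    have h3 : aw f (QQ k E m : ℝ) (J (m + 1)) / κ ^ J (m + 1) ≤
        aw f (QQ k E m : ℝ) (J m) / κ ^ J m := by
      apply div_le_div₀ (aw_nonneg f (hQpos m) _) h2 (by positivity)
      exact pow_le_pow_right₀ hκ1 hlt.le
    linarith
  obtain ⟨t, ht, hJ1, hJ2⟩ := exists_const (2 * k) J (fun m => (Finset.mem_Icc.mp (hJmem m)).1)
    (Finset.mem_Icc.mp (hJmem 0)).2 hJanti
  set m := 2 * t + 1 with hm
  set j := J m with hj
  have hjI : j ∈ Icc 1 (2 * k) := hJmem m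
  have hj1 := (Finset.mem_Icc.mp hjI).1
  have hj2 := (Finset.mem_Icc.mp hjI).2
  set Q : ℝ := (QQ k E m : ℝ) with hQ
  have hQ0 : 0 < Q := hQpos m
  have hQg : 32 * (k : ℝ) * 4 ^ k * E ≤ Q := hQge m
  have h4k : (4 : ℝ) ≤ 4 ^ k := by
    calc (4 : ℝ) = 4 ^ 1 := by norm_num
      _ ≤ 4 ^ k := pow_le_pow_right₀ (by norm_num) hk
  have hQ128 : 128 ≤ Q := by
    refine le_trans ?_ hQg
    have h1 : (4 : ℝ) ≤ k * 4 ^ k := by nlinarith
    have h2 : (4 : ℝ) ≤ k * 4 ^ k * E := by nlinarith
    nlinarith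
  have hQ1 : 1 ≤ Q := by linarith
  have hmax : ∀ i ∈ Icc 1 (2 * k), aw f Q i ≤ aw f Q j := hJmax m
  -- domination
  have hlow : ∀ i ∈ Icc 1 (2 * k), i < j → aw f Q i * κ ^ (j - i) ≤ aw f Q j := by
    intro i hi hij
    have h1 := hJmax (m + 1) i hi
    have h2 : J (m + 1) = j := hJ2
    rw [h2, hQsucc, aw_mul, aw_mul, ← hQ, div_le_div_iff₀ (by positivity) (by positivity)] at h1
    have h3 : κ ^ j = κ ^ (j - i) * κ ^ i := by rw [← pow_add]; congr 1; omega
    rw [h3, ← mul_assoc] at h1
    exact le_of_mul_le_mul_right h1 (by positivity)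
  have hhigh : ∀ i ∈ Icc 1 (2 * k), j < i → aw f Q i * κ ^ (i - j) ≤ aw f Q j := by
    intro i hi hij
    have h1 := hJmax (2 * t) i hi
    rw [hJ1] at h1
    have h4 : ∀ l, aw f Q l = aw f (QQ k E (2 * t) : ℝ) l / κ ^ l := by
      intro l
      rw [← aw_mul, ← hQsucc]
    rw [h4, h4, div_mul_eq_mul_div, div_le_div_iff₀ (by positivity) (by positivity)]
    have h3 : κ ^ i = κ ^ (i - j) * κ ^ j := by rw [← pow_add]; congr 1; omega
    rw [h3]
    have h5 : 0 ≤ κ ^ (i - j) * κ ^ j := by positivity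
    calc aw f (QQ k E (2 * t) : ℝ) i * κ ^ (i - j) * κ ^ j
        = aw f (QQ k E (2 * t) : ℝ) i * (κ ^ (i - j) * κ ^ j) := by ring
      _ ≤ aw f (QQ k E (2 * t) : ℝ) j * (κ ^ (i - j) * κ ^ j) :=
          mul_le_mul_of_nonneg_right h1 h5
  have hi0pos : 0 < ProfileAux.cnt f i0 := by
    rcases Nat.eq_zero_or_pos (ProfileAux.cnt f i0) with h | h
    · rw [h] at hni0; omega
    · exact h
  have hai0 : 0 < aw f Q i0 := by
    unfold aw
    have : (0 : ℝ) < ProfileAux.cnt f i0 := by exact_mod_cast hi0pos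
    positivity
  have haj0 : 0 < aw f Q j := lt_of_lt_of_le hai0 (hmax i0 hi0)
  have hjpos : 0 < ProfileAux.cnt f j := by
    rcases Nat.eq_zero_or_pos (ProfileAux.cnt f j) with h | h
    · unfold aw at haj0
      rw [h] at haj0
      simp at haj0
    · exact h
  -- the third claim
  have hthird : (n : ℝ) ≤ 4 * k * aw f Q j * Q ^ (2 * k) := by
    have h1 : (n : ℝ) ≤ 4 * k * ProfileAux.cnt f i0 := by exact_mod_cast hni0
    have h2 : (ProfileAux.cnt f i0 : ℝ) = aw f Q i0 * Q ^ i0 := by
      unfold aw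
      field_simp
    have h3 : aw f Q i0 * Q ^ i0 ≤ aw f Q j * Q ^ (2 * k) :=
      mul_le_mul (hmax i0 hi0) (pow_le_pow_right₀ hQ1 (Finset.mem_Icc.mp hi0).2)
        (by positivity) haj0.le
    calc (n : ℝ) ≤ 4 * k * ProfileAux.cnt f i0 := h1
      _ = 4 * k * (aw f Q i0 * Q ^ i0) := by rw [h2]
      _ ≤ 4 * k * (aw f Q j * Q ^ (2 * k)) := mul_le_mul_of_nonneg_left h3 (by positivity)
      _ = 4 * k * aw f Q j * Q ^ (2 * k) := by ring
  have hajv : aw f Q j * Q ^ j = ProfileAux.cnt f j := by
    unfold aw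
    field_simp
  refine ⟨m, by omega, j, hj1, hj2, hjpos, ?_, ?_⟩
  · have h1 : (n : ℝ) * Q ^ j ≤ 4 * k * ProfileAux.cnt f j * Q ^ (2 * k) := by
      calc (n : ℝ) * Q ^ j ≤ 4 * k * aw f Q j * Q ^ (2 * k) * Q ^ j :=
            mul_le_mul_of_nonneg_right hthird (by positivity)
        _ = 4 * k * (aw f Q j * Q ^ j) * Q ^ (2 * k) := by ring
        _ = 4 * k * ProfileAux.cnt f j * Q ^ (2 * k) := by rw [hajv]
    rw [hQ] at h1
    unfold ProfileAux.cnt at h1
    exact_mod_cast h1
  · -- last claim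
    have hS1 : (∑ v ∈ univ.filter (fun v => f v < j), 2 / Q ^ f v) ≤ aw f Q j / (16 * E) := by
      calc (∑ v ∈ univ.filter (fun v => f v < j), 2 / Q ^ f v)
          ≤ ∑ i ∈ Finset.Ico 1 j, (ProfileAux.cnt f i : ℝ) * (2 / Q ^ i) := by
            apply ProfileAux.sum_le_cnt f _ _ _ (fun i => 2 / Q ^ i)
            · intro i; positivity
            · intro v hv
              exact Finset.mem_Ico.mpr ⟨hf v, (Finset.mem_filter.mp hv).2⟩
        _ ≤ ∑ i ∈ Finset.Ico 1 j, 2 * (aw f Q j / κ) := by
            apply Finset.sum_le_sum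
            intro i hi
            have hi' := Finset.mem_Ico.mp hi
            have h1 := hlow i (Finset.mem_Icc.mpr ⟨hi'.1, by omega⟩) hi'.2
            have h2 : aw f Q i ≤ aw f Q j / κ := by
              rw [le_div_iff₀ hκ0]
              refine le_trans (mul_le_mul_of_nonneg_left ?_ (aw_nonneg f hQ0 i)) h1
              calc κ = κ ^ 1 := (pow_one κ).symm
                _ ≤ κ ^ (j - i) := pow_le_pow_right₀ hκ1 (by omega)
            have h3 : (ProfileAux.cnt f i : ℝ) * (2 / Q ^ i) = 2 * aw f Q i := by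
              unfold aw; ring
            rw [h3]
            linarith
        _ = ((j - 1 : ℕ) : ℝ) * (2 * (aw f Q j / κ)) := by
            rw [Finset.sum_const, Nat.card_Ico, nsmul_eq_mul]
        _ ≤ (2 * k) * (2 * (aw f Q j / κ)) := by
            apply mul_le_mul_of_nonneg_right
            · have : j - 1 ≤ 2 * k := by omega
              exact_mod_cast this
            · positivity
        _ = aw f Q j / (16 * E) := by
            rw [hκ]
            field_simp
            ring
    have hS2 : (∑ v ∈ univ.filter (fun v => j < f v ∧ f v ≤ 2 * k),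
        2 * (cnt (f v) j : ℝ) / Q ^ f v) ≤ aw f Q j / (8 * E) := by
      calc (∑ v ∈ univ.filter (fun v => j < f v ∧ f v ≤ 2 * k),
            2 * (cnt (f v) j : ℝ) / Q ^ f v)
          ≤ ∑ i ∈ Finset.Ioc j (2 * k), (ProfileAux.cnt f i : ℝ) *
              (2 * (cnt i j : ℝ) / Q ^ i) := by
            apply ProfileAux.sum_le_cnt f _ _ _ (fun i => 2 * (cnt i j : ℝ) / Q ^ i)
            · intro i; positivity
            · intro v hv
              exact Finset.mem_Ioc.mpr (Finset.mem_filter.mp hv).2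
        _ ≤ ∑ i ∈ Finset.Ioc j (2 * k), (2 * aw f Q j) * (1 / (32 * E : ℝ)) ^ (i - j) := by
            apply Finset.sum_le_sum
            intro i hi
            have hi' := Finset.mem_Ioc.mp hi
            have h1 := hhigh i (Finset.mem_Icc.mpr ⟨by omega, hi'.2⟩) hi'.1
            have h3 : (ProfileAux.cnt f i : ℝ) * (2 * (cnt i j : ℝ) / Q ^ i) =
                2 * ((cnt i j : ℝ) * aw f Q i) := by
              unfold aw; ring
            have h4 : (cnt i j : ℝ) ≤ (2 * k : ℝ) ^ (i - j) := by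
              have h5 := cnt_le_pow hj1 hi'.1
              have h6 : (cnt i j : ℝ) ≤ (i : ℝ) ^ (i - j) := by exact_mod_cast h5
              refine le_trans h6 ?_
              apply pow_le_pow_left₀ (by positivity)
              exact_mod_cast hi'.2
            have h5 : aw f Q i ≤ aw f Q j / κ ^ (i - j) := by
              rw [le_div_iff₀ (by positivity)]
              exact h1
            have h6 : (cnt i j : ℝ) * aw f Q i ≤
                (2 * k : ℝ) ^ (i - j) * (aw f Q j / κ ^ (i - j)) :=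
              mul_le_mul h4 h5 (aw_nonneg f hQ0 i) (by positivity)
            have h7 : (2 * k : ℝ) ^ (i - j) * (aw f Q j / κ ^ (i - j)) =
                aw f Q j * (1 / (32 * E : ℝ)) ^ (i - j) := by
              have h8 : (1 / (32 * E : ℝ)) = 2 * k / κ := by
                rw [hκ]
                field_simp
                ring
              rw [h8, div_pow]
              ring
            rw [h3]
            rw [h7] at h6
            linarith
        _ = (2 * aw f Q j) * ∑ i ∈ Finset.Ioc j (2 * k), (1 / (32 * E : ℝ)) ^ (i - j) := by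
            rw [Finset.mul_sum]
        _ ≤ (2 * aw f Q j) * (2 * (1 / (32 * E : ℝ))) := by
            apply mul_le_mul_of_nonneg_left _ (by positivity)
            have h1 : ∑ i ∈ Finset.Ioc j (2 * k), (1 / (32 * E : ℝ)) ^ (i - j) =
                ∑ s ∈ Finset.range (2 * k - j), (1 / (32 * E : ℝ)) ^ (s + 1) := by
              symm
              apply Finset.sum_bij (fun s _ => s + 1 + j)
              · intro s hs
                have := Finset.mem_range.mp hs
                exact Finset.mem_Ioc.mpr ⟨by omega, by omega⟩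
              · intro a _ b _ hab
                omega
              · intro i hi
                have := Finset.mem_Ioc.mp hi
                exact ⟨i - j - 1, Finset.mem_range.mpr (by omega), by omega⟩
              · intro s _
                congr 1
                omega
            rw [h1]
            apply geom_small
            · positivity
            · rw [div_le_div_iff₀ (by positivity) (by norm_num)]
              linarith
        _ = aw f Q j / (8 * E) := by
            field_simp
            ring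
    have hS3 : (∑ v ∈ univ.filter (fun v => 2 * k < f v), 2 * (cnt (f v) j : ℝ) / Q ^ f v) ≤
        aw f Q j / (2 * E) := by
      have h2Q : 2 / Q ≤ 1 := by
        rw [div_le_one hQ0]; linarith
      calc (∑ v ∈ univ.filter (fun v => 2 * k < f v), 2 * (cnt (f v) j : ℝ) / Q ^ f v)
          ≤ ∑ v ∈ univ.filter (fun v => 2 * k < f v), 2 * (2 / Q) ^ (2 * k + 1) := by
            apply Finset.sum_le_sum
            intro v hv
            have h1 : (cnt (f v) j : ℝ) ≤ 2 ^ f v := by exact_mod_cast cnt_le_two_pow (f v) j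
            calc 2 * (cnt (f v) j : ℝ) / Q ^ f v ≤ 2 * 2 ^ f v / Q ^ f v := by
                  apply div_le_div_of_nonneg_right _ (by positivity)
                  linarith
              _ = 2 * (2 / Q) ^ f v := by rw [div_pow]; ring
              _ ≤ 2 * (2 / Q) ^ (2 * k + 1) := by
                  apply mul_le_mul_of_nonneg_left _ (by norm_num)
                  exact pow_le_pow_of_le_one (by positivity) h2Q (Finset.mem_filter.mp hv).2
        _ = ((univ.filter (fun v => 2 * k < f v)).card : ℝ) * (2 * (2 / Q) ^ (2 * k + 1)) := by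
            rw [Finset.sum_const, nsmul_eq_mul]
        _ ≤ n * (2 * (2 / Q) ^ (2 * k + 1)) := by
            apply mul_le_mul_of_nonneg_right _ (by positivity)
            have : (univ.filter (fun v => 2 * k < f v)).card ≤ n := by
              calc (univ.filter (fun v => 2 * k < f v)).card
                  ≤ (univ : Finset (Fin n)).card := Finset.card_filter_le _ _
                _ = n := by simp
            exact_mod_cast this
        _ ≤ (4 * k * aw f Q j * Q ^ (2 * k)) * (2 * (2 / Q) ^ (2 * k + 1)) :=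
            mul_le_mul_of_nonneg_right hthird (by positivity)
        _ = 16 * k * 4 ^ k * aw f Q j / Q := by
            rw [div_pow, pow_succ (2 : ℝ), pow_succ Q, pow_mul (2 : ℝ)]
            field_simp
            norm_num
            try ring
        _ ≤ aw f Q j / (2 * E) := by
            rw [div_le_div_iff₀ hQ0 (by positivity)]
            have h1 : 16 * (k : ℝ) * 4 ^ k * (2 * E) ≤ Q := by linarith
            calc 16 * (k : ℝ) * 4 ^ k * aw f Q j * (2 * E)
                = aw f Q j * (16 * (k : ℝ) * 4 ^ k * (2 * E)) := by ring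
              _ ≤ aw f Q j * Q := mul_le_mul_of_nonneg_left h1 haj0.le
    have hsplit : (∑ v ∈ univ.filter (fun v => j < f v), 2 * (cnt (f v) j : ℝ) / Q ^ f v) =
        (∑ v ∈ univ.filter (fun v => j < f v ∧ f v ≤ 2 * k), 2 * (cnt (f v) j : ℝ) / Q ^ f v) +
        (∑ v ∈ univ.filter (fun v => 2 * k < f v), 2 * (cnt (f v) j : ℝ) / Q ^ f v) := by
      rw [← Finset.sum_filter_add_sum_filter_not (univ.filter (fun v => j < f v))
        (fun v => f v ≤ 2 * k), Finset.filter_filter, Finset.filter_filter]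
      congr 1
      apply Finset.sum_congr _ (fun _ _ => rfl)
      ext v
      simp only [Finset.mem_filter, Finset.mem_univ, true_and, not_le]
      constructor
      · exact fun h => h.2
      · exact fun h => ⟨by omega, h⟩
    have hfin : ((univ.filter fun v => f v = j).card : ℝ) / (E * Q ^ j) = aw f Q j / E := by
      unfold aw ProfileAux.cnt
      field_simp
    rw [hfin, hsplit]
    have hX : 0 ≤ aw f Q j / E := by positivity
    have e1 : aw f Q j / (16 * E) = (1 / 16) * (aw f Q j / E) := by field_simp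
    have e2 : aw f Q j / (8 * E) = (1 / 8) * (aw f Q j / E) := by field_simp
    have e3 : aw f Q j / (2 * E) = (1 / 2) * (aw f Q j / E) := by field_simp
    rw [e1] at hS1
    rw [e2] at hS2
    rw [e3] at hS3
    linarith

end Pool.Agent.LT
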