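import Pool.Agent.Lib.MP_b573ec_lc_LT.V2.Defs3
import Pool.Agent.Lib.MP_b573ec_lc_LT.Random

/-!
# V3: random colourings of the blocks and random samples, sharper set of exceptional variables

`Pool.Agent.LT.good_pairs2`: for at least half of the pairs `(F, u)` of a colouring `F` of the
blocks by `Q` colours and a map `u` from the variables to `s` classes, both feet of the class `0`
are large and the set `abad2` of exceptional variables is small.
-/

namespace Pool.Agent.LT

open Finset Polynomial

namespace Random2Aux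

/-- the number of functions with prescribed values on `S` -/
theorem card_pi_eq {ι α : Type} [Fintype ι] [DecidableEq ι] [Fintype α] [DecidableEq α]
    (S : Finset ι) (g : ι → α) [∀ F : ι → α, Decidable (∀ l ∈ S, F l = g l)] :
    (univ.filter fun F : ι → α => ∀ l ∈ S, F l = g l).card * Fintype.card α ^ S.card =
      Fintype.card α ^ Fintype.card ι := by
  have h1 : (univ.filter fun F : ι → α => ∀ l ∈ S, F l = g l) =
      Fintype.piFinset (fun l => if l ∈ S then {g l} else univ) := by
    ext F
    simp only [mem_filter, mem_univ, true_and, Fintype.mem_piFinset]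
    constructor
    · intro h l
      by_cases hl : l ∈ S
      · simp [hl, h l hl]
      · simp [hl]
    · intro h l hl
      have := h l
      simpa [hl] using this
  rw [h1, Fintype.card_piFinset]
  have h2 : ∀ l, (if l ∈ S then ({g l} : Finset α) else univ).card =
      if l ∈ S then 1 else Fintype.card α := by
    intro l
    split_ifs <;> simp
  simp only [h2]
  rw [Finset.prod_ite, Finset.prod_const, Finset.prod_const, one_pow, one_mul]
  have h4 : (univ.filter fun l => l ∉ S) = Sᶜ := by
    ext l; simp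
  rw [h4, Finset.card_compl, ← pow_add]
  congr 1
  have := Finset.card_le_univ S
  omega

/-- the number of pairs with prescribed colours and prescribed classes -/
theorem card_pairs_eq {n r Q s : ℕ} (hs : 1 ≤ s) (S : Finset (Fin r)) (g : Fin r → Fin Q)
    (v : Fin n) :
    (univ.filter fun p : (Fin r → Fin Q) × (Fin n → Fin s) =>
      (∀ l ∈ S, p.1 l = g l) ∧ (p.2 v : ℕ) = 0).card * (Q ^ S.card * s) = Q ^ r * s ^ n := by
  have h1 : (univ.filter fun p : (Fin r → Fin Q) × (Fin n → Fin s) =>
      (∀ l ∈ S, p.1 l = g l) ∧ (p.2 v : ℕ) = 0) =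
      (univ.filter fun F : Fin r → Fin Q => ∀ l ∈ S, F l = g l) ×ˢ
      (univ.filter fun u : Fin n → Fin s => ∀ w ∈ ({v} : Finset (Fin n)), u w = ⟨0, hs⟩) := by
    ext p
    simp only [mem_filter, mem_univ, true_and, mem_product, mem_singleton, forall_eq]
    rw [Fin.ext_iff (a := p.2 v)]
  rw [h1, card_product]
  have h2 := card_pi_eq S g
  have h3 := card_pi_eq ({v} : Finset (Fin n)) (fun _ => (⟨0, hs⟩ : Fin s))
  simp only [Fintype.card_fin, card_singleton, pow_one] at h2 h3
  calc _ = ((univ.filter fun F : Fin r → Fin Q => ∀ l ∈ S, F l = g l).card * Q ^ S.card) *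
      ((univ.filter fun u : Fin n → Fin s =>
        ∀ w ∈ ({v} : Finset (Fin n)), u w = ⟨0, hs⟩).card * s) := by ring
    _ = _ := by rw [h2, h3]

/-- the event that `v` belongs to the class `0` and is mixed with many blocks of colour `c` -/
def Mv {n r Q s : ℕ} (Lay : Fin n → Finset (Fin r)) (j c : ℕ) (v : Fin n)
    (p : (Fin r → Fin Q) × (Fin n → Fin s)) : Prop :=
  mixed Lay (fun l => (p.1 l : ℕ)) j c v ∧ (p.2 v : ℕ) = 0

instance {n r Q s : ℕ} (Lay : Fin n → Finset (Fin r)) (j c : ℕ) (v : Fin n)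
    (p : (Fin r → Fin Q) × (Fin n → Fin s)) : Decidable (Mv Lay j c v p) := by
  unfold Mv; infer_instance

/-- number of nonempty subsets with at most `S.card - j` elements -/
theorem card_cnt {α : Type} [DecidableEq α] (S : Finset α) (j : ℕ) :
    (S.powerset.filter fun T => 1 ≤ T.card ∧ T.card ≤ S.card - j).card = cnt S.card j := by
  have h1 : (S.powerset.filter fun T => 1 ≤ T.card ∧ T.card ≤ S.card - j) =
      (Icc 1 (S.card - j)).biUnion fun t => S.powersetCard t := by
    ext T
    simp only [mem_filter, mem_powerset, mem_biUnion, mem_Icc, mem_powersetCard]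
    constructor
    · rintro ⟨h1, h2⟩
      exact ⟨T.card, h2, h1, rfl⟩
    · rintro ⟨t, h1, h2, rfl⟩
      exact ⟨h2, h1⟩
  rw [h1, card_biUnion]
  · unfold cnt
    refine Finset.sum_congr rfl fun t _ => ?_
    rw [card_powersetCard]
  · intro t _ t' _ htt'
    rw [Function.onFun, Finset.disjoint_left]
    intro T h1 h2
    rw [mem_powersetCard] at h1 h2
    exact htt' (h1.2.symm.trans h2.2)

theorem card_Mv {n r Q s : ℕ} (hQ : 2 ≤ Q) (hs : 1 ≤ s) (Lay : Fin n → Finset (Fin r))
    (j c : ℕ) (hc : c < 2) (v : Fin n) :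
    ((univ.filter fun p : (Fin r → Fin Q) × (Fin n → Fin s) => Mv Lay j c v p).card : ℝ) ≤
      (cnt (Lay v).card j : ℝ) / ((Q : ℝ) ^ (Lay v).card * s) *
        ((Q : ℝ) ^ r * (s : ℝ) ^ n) := by
  have hQ0 : (0 : ℝ) < Q := by
    have : 0 < Q := by omega
    exact_mod_cast this
  have hs0 : (0 : ℝ) < s := by
    have : 0 < s := by omega
    exact_mod_cast this
  set g : Finset (Fin r) → Fin r → Fin Q := fun T l =>
    if l ∈ T then ⟨1 - c, by omega⟩ else ⟨c, by omega⟩ with hg
  have h1 : (univ.filter fun p : (Fin r → Fin Q) × (Fin n → Fin s) => Mv Lay j c v p) ⊆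
      ((Lay v).powerset.filter fun T => 1 ≤ T.card ∧ T.card ≤ (Lay v).card - j).biUnion
        fun T => univ.filter fun p : (Fin r → Fin Q) × (Fin n → Fin s) =>
          (∀ l ∈ Lay v, p.1 l = g T l) ∧ (p.2 v : ℕ) = 0 := by
    intro p hp
    simp only [mem_filter, mem_univ, true_and, Mv, mixed] at hp
    obtain ⟨⟨h2, h3, l0, hl0, hl0'⟩, hu⟩ := hp
    rw [mem_biUnion]
    refine ⟨(Lay v).filter fun l => ¬ ((p.1 l : ℕ) = c), ?_, ?_⟩
    · rw [mem_filter, mem_powerset]
      refine ⟨filter_subset _ _, ?_, ?_⟩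
      · rw [Nat.one_le_iff_ne_zero, Finset.card_ne_zero]
        exact ⟨l0, by simp [hl0, hl0']⟩
      · have := Finset.card_filter_add_card_filter_not (s := Lay v)
          (fun l => (p.1 l : ℕ) = c)
        omega
    · simp only [mem_filter, mem_univ, true_and]
      refine ⟨fun l hl => ?_, hu⟩
      have := h2 l hl
      rw [Fin.ext_iff]
      simp only [hg, mem_filter, hl, true_and]
      by_cases hlc : (p.1 l : ℕ) = c
      · simp [hlc]
      · simp only [hlc, not_false_eq_true, if_true]
        omega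
  have h2 : ∀ T ∈ (Lay v).powerset.filter fun T => 1 ≤ T.card ∧ T.card ≤ (Lay v).card - j,
      (univ.filter fun p : (Fin r → Fin Q) × (Fin n → Fin s) =>
          (∀ l ∈ Lay v, p.1 l = g T l) ∧ (p.2 v : ℕ) = 0).card * (Q ^ (Lay v).card * s) ≤
      Q ^ r * s ^ n := fun T _ => (card_pairs_eq hs (Lay v) (g T) v).le
  have h3 : (univ.filter fun p : (Fin r → Fin Q) × (Fin n → Fin s) => Mv Lay j c v p).card *
      (Q ^ (Lay v).card * s) ≤ cnt (Lay v).card j * (Q ^ r * s ^ n) := by
    calc _ ≤ (∑ T ∈ (Lay v).powerset.filter fun T => 1 ≤ T.card ∧ T.card ≤ (Lay v).card - j,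
        (univ.filter fun p : (Fin r → Fin Q) × (Fin n → Fin s) =>
          (∀ l ∈ Lay v, p.1 l = g T l) ∧ (p.2 v : ℕ) = 0).card) * (Q ^ (Lay v).card * s) :=
        Nat.mul_le_mul_right _ (le_trans (card_le_card h1) card_biUnion_le)
      _ = ∑ T ∈ (Lay v).powerset.filter fun T => 1 ≤ T.card ∧ T.card ≤ (Lay v).card - j,
        (univ.filter fun p : (Fin r → Fin Q) × (Fin n → Fin s) =>
          (∀ l ∈ Lay v, p.1 l = g T l) ∧ (p.2 v : ℕ) = 0).card * (Q ^ (Lay v).card * s) := by
        rw [Finset.sum_mul]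
      _ ≤ ∑ _T ∈ (Lay v).powerset.filter fun T => 1 ≤ T.card ∧ T.card ≤ (Lay v).card - j,
        Q ^ r * s ^ n := Finset.sum_le_sum h2
      _ = _ := by rw [Finset.sum_const, card_cnt, smul_eq_mul]
  have h3' : ((univ.filter fun p : (Fin r → Fin Q) × (Fin n → Fin s) =>
      Mv Lay j c v p).card : ℝ) * ((Q : ℝ) ^ (Lay v).card * s) ≤
      (cnt (Lay v).card j : ℝ) * ((Q : ℝ) ^ r * (s : ℝ) ^ n) := by
    exact_mod_cast h3
  rw [div_mul_eq_mul_div, le_div_iff₀ (by positivity)]
  exact h3'

/-- the exceptional set is small with probability at least `7/8` -/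
theorem bad_small2 {n r : ℕ} (Lay : Fin n → Finset (Fin r)) (Q s j e E : ℕ) (hQ : 2 ≤ Q)
    (hs : 1 ≤ s) (hE : 1 ≤ E)
    (h3 : (∑ v ∈ univ.filter (fun v => (Lay v).card < j), 2 / (Q : ℝ) ^ (Lay v).card) +
        (∑ v ∈ univ.filter (fun v => j < (Lay v).card),
          2 * (cnt (Lay v).card j : ℝ) / (Q : ℝ) ^ (Lay v).card) ≤
        ((univ.filter fun v => (Lay v).card = j).card : ℝ) / (E * (Q : ℝ) ^ j))
    (h4 : 8 * (univ.filter fun v => (Lay v).card = j).card ≤ (e + 1) * E * s * Q ^ j) :
    8 * ((univ.filter fun p : (Fin r → Fin Q) × (Fin n → Fin s) =>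
        ¬ ((abad2 Lay (fun l => (p.1 l : ℕ))
          (univ.filter fun v => (p.2 v : ℕ) = 0) j).card ≤ e)).card : ℝ) ≤
      (Q : ℝ) ^ r * (s : ℝ) ^ n := by
  have hQ0 : (0 : ℝ) < Q := by
    have : 0 < Q := by omega
    exact_mod_cast this
  have hs0 : (0 : ℝ) < s := by
    have : 0 < s := by omega
    exact_mod_cast this
  have hE0 : (0 : ℝ) < E := by
    have : 0 < E := by omega
    exact_mod_cast this
  set M : ℝ := (Q : ℝ) ^ r * (s : ℝ) ^ n with hMdef
  have hM : 0 < M := by positivity
  set N : ℝ := ((univ.filter fun v => (Lay v).card = j).card : ℝ) with hN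
  set T0 : Finset (Fin Q) := {⟨0, by omega⟩} with hT0
  set T1 : Finset (Fin Q) := {⟨1, by omega⟩} with hT1
  have hc0 : T0.card = 1 := card_singleton _
  have hc1 : T1.card = 1 := card_singleton _
  -- the expectation
  have e1 : ∑ ω : (Fin r → Fin Q) × (Fin n → Fin s),
      ((abad2 Lay (fun l => (ω.1 l : ℕ)) (univ.filter fun v => (ω.2 v : ℕ) = 0) j).card : ℝ) ≤
      N / (E * (Q : ℝ) ^ j) / s * M := by
    have b1 : ∀ ω : (Fin r → Fin Q) × (Fin n → Fin s),
        ((abad2 Lay (fun l => (ω.1 l : ℕ)) (univ.filter fun v => (ω.2 v : ℕ) = 0) j).card : ℝ) ≤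
        (((univ.filter fun v => (Lay v).card < j).filter fun v => RandomAux.Ev Lay T0 v ω).card :
          ℝ) +
        (((univ.filter fun v => (Lay v).card < j).filter fun v => RandomAux.Ev Lay T1 v ω).card :
          ℝ) +
        ((((univ.filter fun v => j < (Lay v).card).filter fun v => Mv Lay j 0 v ω).card : ℝ) +
        (((univ.filter fun v => j < (Lay v).card).filter fun v => Mv Lay j 1 v ω).card : ℝ)) := by
      intro ω
      have hsub : abad2 Lay (fun l => (ω.1 l : ℕ)) (univ.filter fun v => (ω.2 v : ℕ) = 0) j ⊆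
          (((univ.filter fun v => (Lay v).card < j).filter fun v => RandomAux.Ev Lay T0 v ω) ∪
          ((univ.filter fun v => (Lay v).card < j).filter fun v => RandomAux.Ev Lay T1 v ω)) ∪
          (((univ.filter fun v => j < (Lay v).card).filter fun v => Mv Lay j 0 v ω) ∪
          ((univ.filter fun v => j < (Lay v).card).filter fun v => Mv Lay j 1 v ω)) := by
        intro v hv
        unfold abad2 at hv
        rw [mem_filter, mem_filter] at hv
        obtain ⟨⟨_, hu⟩, hv⟩ := hv
        have hmix : ∀ c : ℕ, mixed Lay (fun l => (ω.1 l : ℕ)) j c v → j < (Lay v).card := by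
          rintro c ⟨_, h2, l0, hl0, hl0'⟩
          simp only at h2 hl0'
          have h5 := Finset.card_filter_add_card_filter_not (s := Lay v)
            (fun l => (ω.1 l : ℕ) = c)
          have h6 : 0 < ((Lay v).filter fun l => ¬ ((ω.1 l : ℕ) = c)).card := by
            rw [Finset.card_pos]
            exact ⟨l0, by simp [hl0, hl0']⟩
          omega
        rcases hv with ⟨hj1, h0 | h0⟩ | h0 | h0
        · apply mem_union_left
          apply mem_union_left
          simp only [mem_filter, mem_univ, true_and]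
          refine ⟨hj1, fun l hl => ?_, hu⟩
          rw [hT0, mem_singleton, Fin.ext_iff]
          exact h0 l hl
        · apply mem_union_left
          apply mem_union_right
          simp only [mem_filter, mem_univ, true_and]
          refine ⟨hj1, fun l hl => ?_, hu⟩
          rw [hT1, mem_singleton, Fin.ext_iff]
          exact h0 l hl
        · apply mem_union_right
          apply mem_union_left
          simp only [mem_filter, mem_univ, true_and]
          exact ⟨hmix 0 h0, h0, hu⟩
        · apply mem_union_right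
          apply mem_union_right
          simp only [mem_filter, mem_univ, true_and]
          exact ⟨hmix 1 h0, h0, hu⟩
      have := le_trans (card_le_card hsub) (le_trans (card_union_le _ _)
        (Nat.add_le_add (card_union_le _ _) (card_union_le _ _)))
      exact_mod_cast this
    calc _ ≤ ∑ ω : (Fin r → Fin Q) × (Fin n → Fin s),
        ((((univ.filter fun v => (Lay v).card < j).filter fun v => RandomAux.Ev Lay T0 v ω).card :
          ℝ) +
        (((univ.filter fun v => (Lay v).card < j).filter fun v => RandomAux.Ev Lay T1 v ω).card :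
          ℝ) +
        ((((univ.filter fun v => j < (Lay v).card).filter fun v => Mv Lay j 0 v ω).card : ℝ) +
        (((univ.filter fun v => j < (Lay v).card).filter fun v => Mv Lay j 1 v ω).card : ℝ))) :=
          Finset.sum_le_sum fun ω _ => b1 ω
      _ ≤ (∑ v ∈ univ.filter (fun v => (Lay v).card < j), 1 / ((Q : ℝ) ^ (Lay v).card * s) * M) +
          (∑ v ∈ univ.filter (fun v => (Lay v).card < j), 1 / ((Q : ℝ) ^ (Lay v).card * s) * M) +
          ((∑ v ∈ univ.filter (fun v => j < (Lay v).card),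
            (cnt (Lay v).card j : ℝ) / ((Q : ℝ) ^ (Lay v).card * s) * M) +
          (∑ v ∈ univ.filter (fun v => j < (Lay v).card),
            (cnt (Lay v).card j : ℝ) / ((Q : ℝ) ^ (Lay v).card * s) * M)) := by
          rw [Finset.sum_add_distrib, Finset.sum_add_distrib, Finset.sum_add_distrib,
            RandomAux.sum_card, RandomAux.sum_card, RandomAux.sum_card, RandomAux.sum_card]
          refine add_le_add (add_le_add ?_ ?_) (add_le_add ?_ ?_)
          · refine Finset.sum_le_sum fun v _ => ?_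
            rw [RandomAux.card_Ev hQ hs, hc0]
            simp [hMdef]
          · refine Finset.sum_le_sum fun v _ => ?_
            rw [RandomAux.card_Ev hQ hs, hc1]
            simp [hMdef]
          · exact Finset.sum_le_sum fun v _ => card_Mv hQ hs Lay j 0 (by norm_num) v
          · exact Finset.sum_le_sum fun v _ => card_Mv hQ hs Lay j 1 (by norm_num) v
      _ = ((∑ v ∈ univ.filter (fun v => (Lay v).card < j), 2 / (Q : ℝ) ^ (Lay v).card) +
        (∑ v ∈ univ.filter (fun v => j < (Lay v).card),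
          2 * (cnt (Lay v).card j : ℝ) / (Q : ℝ) ^ (Lay v).card)) / s * M := by
          rw [← Finset.sum_add_distrib, ← Finset.sum_add_distrib, add_div, add_mul,
            Finset.sum_div, Finset.sum_div, Finset.sum_mul, Finset.sum_mul]
          congr 1
          · refine Finset.sum_congr rfl fun v _ => ?_
            field_simp
            ring
          · refine Finset.sum_congr rfl fun v _ => ?_
            field_simp
            ring
      _ ≤ _ := by
          apply mul_le_mul_of_nonneg_right _ hM.le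
          exact div_le_div_of_nonneg_right h3 hs0.le
  have e2 := RandomAux.markov (fun ω : (Fin r → Fin Q) × (Fin n → Fin s) =>
    (abad2 Lay (fun l => (ω.1 l : ℕ)) (univ.filter fun v => (ω.2 v : ℕ) = 0) j).card) e _ e1
  have e3 : (univ.filter fun p : (Fin r → Fin Q) × (Fin n → Fin s) =>
        ¬ ((abad2 Lay (fun l => (p.1 l : ℕ))
          (univ.filter fun v => (p.2 v : ℕ) = 0) j).card ≤ e)) =
      (univ.filter fun ω : (Fin r → Fin Q) × (Fin n → Fin s) =>
        e < (abad2 Lay (fun l => (ω.1 l : ℕ)) (univ.filter fun v => (ω.2 v : ℕ) = 0) j).card) := by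
    ext ω
    simp only [mem_filter, mem_univ, true_and, not_le]
  rw [e3]
  have h4' : 8 * N ≤ ((e : ℝ) + 1) * E * s * (Q : ℝ) ^ j := by
    rw [hN]; exact_mod_cast h4
  have e4 : N / (E * (Q : ℝ) ^ j) / s ≤ ((e : ℝ) + 1) / 8 := by
    rw [div_div, div_le_div_iff₀ (by positivity) (by norm_num)]
    nlinarith
  have he : (0 : ℝ) < (e : ℝ) + 1 := by positivity
  have e5 : ((univ.filter fun ω : (Fin r → Fin Q) × (Fin n → Fin s) =>
        e < (abad2 Lay (fun l => (ω.1 l : ℕ)) (univ.filter fun v => (ω.2 v : ℕ) = 0) j).card).card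
        : ℝ) * (e + 1) ≤ ((e : ℝ) + 1) / 8 * M :=
    le_trans e2 (mul_le_mul_of_nonneg_right e4 hM.le)
  have e6 : (8 * ((univ.filter fun ω : (Fin r → Fin Q) × (Fin n → Fin s) =>
        e < (abad2 Lay (fun l => (ω.1 l : ℕ)) (univ.filter fun v => (ω.2 v : ℕ) = 0) j).card).card
        : ℝ)) * ((e : ℝ) + 1) ≤ M * ((e : ℝ) + 1) := by nlinarith
  exact le_of_mul_le_mul_right e6 he

end Random2Aux

theorem good_pairs2 {n r : ℕ} (Lay : Fin n → Finset (Fin r)) (Q s j L D e E : ℕ) (hQ : 2 ≤ Q)
    (hs : 1 ≤ s) (hj : 1 ≤ j) (hE : 1 ≤ E)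
    (hL : ∀ l, (univ.filter fun v => l ∈ Lay v).card ≤ L) (hD : 16 ≤ D)
    (h1 : 4 * D * s * Q ^ j ≤ (univ.filter fun v => (Lay v).card = j).card)
    (h2 : 64 * j * L * Q ^ j ≤ (univ.filter fun v => (Lay v).card = j).card)
    (h3 : (∑ v ∈ univ.filter (fun v => (Lay v).card < j), 2 / (Q : ℝ) ^ (Lay v).card) +
        (∑ v ∈ univ.filter (fun v => j < (Lay v).card),
          2 * (cnt (Lay v).card j : ℝ) / (Q : ℝ) ^ (Lay v).card) ≤
        ((univ.filter fun v => (Lay v).card = j).card : ℝ) / (E * (Q : ℝ) ^ j))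
    (h4 : 8 * (univ.filter fun v => (Lay v).card = j).card ≤ (e + 1) * E * s * Q ^ j) :
    Fintype.card ((Fin r → Fin Q) × (Fin n → Fin s)) ≤
      2 * (univ.filter fun p : (Fin r → Fin Q) × (Fin n → Fin s) =>
        2 * D ≤ (afoot Lay (fun l => (p.1 l : ℕ)) (univ.filter fun v => (p.2 v : ℕ) = 0) 0).card ∧
        2 * D ≤ (afoot Lay (fun l => (p.1 l : ℕ)) (univ.filter fun v => (p.2 v : ℕ) = 0) 1).card ∧
        (abad2 Lay (fun l => (p.1 l : ℕ)) (univ.filter fun v => (p.2 v : ℕ) = 0) j).card
          ≤ e).card := by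
  have a0 := RandomAux.foot_large Lay Q s j L D hQ hs hL hD h1 h2 0 (by omega)
  have a1 := RandomAux.foot_large Lay Q s j L D hQ hs hL hD h1 h2 1 (by omega)
  have a2 := Random2Aux.bad_small2 Lay Q s j e E hQ hs hE h3 h4
  set G := univ.filter fun p : (Fin r → Fin Q) × (Fin n → Fin s) =>
        2 * D ≤ (afoot Lay (fun l => (p.1 l : ℕ)) (univ.filter fun v => (p.2 v : ℕ) = 0) 0).card ∧
        2 * D ≤ (afoot Lay (fun l => (p.1 l : ℕ)) (univ.filter fun v => (p.2 v : ℕ) = 0) 1).card ∧
        (abad2 Lay (fun l => (p.1 l : ℕ)) (univ.filter fun v => (p.2 v : ℕ) = 0) j).card ≤ e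
    with hG
  set B0 := univ.filter fun p : (Fin r → Fin Q) × (Fin n → Fin s) =>
        ¬ (2 * D ≤ (afoot Lay (fun l => (p.1 l : ℕ))
          (univ.filter fun v => (p.2 v : ℕ) = 0) 0).card) with hB0
  set B1 := univ.filter fun p : (Fin r → Fin Q) × (Fin n → Fin s) =>
        ¬ (2 * D ≤ (afoot Lay (fun l => (p.1 l : ℕ))
          (univ.filter fun v => (p.2 v : ℕ) = 0) 1).card) with hB1
  set B2 := univ.filter fun p : (Fin r → Fin Q) × (Fin n → Fin s) =>
        ¬ ((abad2 Lay (fun l => (p.1 l : ℕ))
          (univ.filter fun v => (p.2 v : ℕ) = 0) j).card ≤ e) with hB2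
  have hcov : (univ : Finset ((Fin r → Fin Q) × (Fin n → Fin s))) ⊆ G ∪ (B0 ∪ (B1 ∪ B2)) := by
    intro p _
    simp only [hG, hB0, hB1, hB2, mem_union, mem_filter, mem_univ, true_and]
    tauto
  have hc := card_le_card hcov
  have hc' : (univ : Finset ((Fin r → Fin Q) × (Fin n → Fin s))).card ≤
      G.card + (B0.card + (B1.card + B2.card)) := by
    refine le_trans hc (le_trans (card_union_le _ _) ?_)
    refine Nat.add_le_add_left (le_trans (card_union_le _ _) ?_) _
    exact Nat.add_le_add_left (card_union_le _ _) _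
  have hM : (Fintype.card ((Fin r → Fin Q) × (Fin n → Fin s)) : ℝ) =
      (Q : ℝ) ^ r * (s : ℝ) ^ n := by simp
  rw [card_univ] at hc'
  have hc'' : (Fintype.card ((Fin r → Fin Q) × (Fin n → Fin s)) : ℝ) ≤
      G.card + (B0.card + (B1.card + B2.card)) := by exact_mod_cast hc'
  rw [← hM] at a0 a1 a2
  have hn : (0 : ℝ) ≤ (Fintype.card ((Fin r → Fin Q) × (Fin n → Fin s)) : ℝ) := by positivity
  have hfin : (Fintype.card ((Fin r → Fin Q) × (Fin n → Fin s)) : ℝ) ≤ 2 * (G.card : ℝ) := by
    linarith
  exact_mod_cast hfin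

end Pool.Agent.LT
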