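import Pool.Agent.Lib.MP_b573ec_lc_LT.V2.Defs3
import Pool.Agent.Lib.MP_b573ec_lc_LT.Tail

/-!
# Few members have a small side, with the sharper exceptional set
-/

set_option autoImplicit false

namespace Pool.Agent.LT

open Finset Polynomial

namespace Tail2Aux

open RectAux TailAux

variable {n w r : ℕ} (B : BlockSys n w) (F : Fin r → ℕ) (U : Finset (Fin n))

theorem symmDiff_subset2 {c d j : ℕ} (hcd : (c = 0 ∧ d = 1) ∨ (c = 1 ∧ d = 0))
    {t : ℕ → Fin w} {x y : Inp n} (ht : ∀ l ≤ r, B.tr y l = t l)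
    (h : ∀ v, v ∉ fr B F U c t x → y v = x v) :
    symmDiff (B.foot F U d y) (bref B F U c d j t x) ⊆ abad2 (B.Lay r y) F U j := by
  have hne : c ≠ d := by omega
  have hR : ∀ l : Fin r, F l ≠ c → B.R y l = B.rd l (t l) x := by
    intro l hl
    unfold BlockSys.R
    rw [ht l l.2.le]
    exact rd_eq B F U h l hl
  intro v hv
  unfold abad2
  rw [mem_filter]
  rw [Finset.mem_symmDiff] at hv
  rcases hv with ⟨h1, h2⟩ | ⟨h1, h2⟩
  · rw [mem_foot] at h1
    obtain ⟨hU, hf⟩ := h1
    refine ⟨hU, Or.inl ⟨?_, ?_⟩⟩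
    · have hLay : B.Lay r y v = univ.filter fun l : Fin r => F l = d ∧ v ∈ B.rd l (t l) x := by
        ext l
        rw [mem_Lay, mem_filter]
        constructor
        · intro hl
          have hd := hf l hl
          refine ⟨mem_univ _, hd, ?_⟩
          rw [← hR l (by omega)]
          exact hl
        · rintro ⟨_, hd, hl⟩
          rw [hR l (by omega)]
          exact hl
      rw [hLay]
      by_contra hcon
      push Not at hcon
      refine h2 ((mem_bref B F U).mpr ⟨hU, fun l hlc hld hl => ?_, hcon⟩)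
      rw [← hR l hlc] at hl
      exact hld (hf l hl)
    · have hf' : ∀ l ∈ B.Lay r y v, F l = d := fun l hl => hf l ((mem_Lay B).mp hl)
      rcases hcd with ⟨_, rfl⟩ | ⟨_, rfl⟩
      · exact Or.inr hf'
      · exact Or.inl hf'
  · rw [mem_bref] at h1
    obtain ⟨hU, hother, hj⟩ := h1
    have hnot : ∃ l : Fin r, v ∈ B.R y l ∧ F l ≠ d := by
      by_contra hcon
      push Not at hcon
      exact h2 ((mem_foot B F U).mpr ⟨hU, hcon⟩)
    obtain ⟨l₀, hl₀, hl₀d⟩ := hnot
    have hcol : ∀ l ∈ B.Lay r y v, F l = c ∨ F l = d := by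
      intro l hl
      rw [mem_Lay] at hl
      by_contra hcon
      push Not at hcon
      rw [hR l hcon.1] at hl
      exact hother l hcon.1 hcon.2 hl
    have hmix : mixed (B.Lay r y) F j d v := by
      refine ⟨fun l hl => ?_, ?_, l₀, (mem_Lay B).mpr hl₀, hl₀d⟩
      · have := hcol l hl
        omega
      · refine hj.trans (Finset.card_le_card fun l hl => ?_)
        rw [mem_filter] at hl ⊢
        obtain ⟨_, hd, hl⟩ := hl
        refine ⟨?_, hd⟩
        rw [mem_Lay, hR l (by omega)]
        exact hl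
    refine ⟨hU, Or.inr ?_⟩
    rcases hcd with ⟨_, rfl⟩ | ⟨_, rfl⟩
    · exact Or.inr hmix
    · exact Or.inl hmix

/-- The count in one fibre, for one sequence of boundary states. -/
theorem count_fibre2 {c d j e lam : ℕ} (hcd : (c = 0 ∧ d = 1) ∨ (c = 1 ∧ d = 0))
    {t : ℕ → Fin w} {x : Inp n} (S : Finset (Inp n))
    (hS : ∀ y ∈ S, (∀ l ≤ r, B.tr y l = t l) ∧ (abad2 (B.Lay r y) F U j).card ≤ e ∧
      (B.side F U c y).card * 2 ^ lam < 2 ^ (B.foot F U c y).card)
    (hx : ∀ y ∈ S, rep B F U c t y = rep B F U c t x) :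
    S.card * 2 ^ lam ≤ nsub n e * 2 ^ (fr B F U c t x).card := by
  set A := fr B F U c t x with hA
  have hrep : ∀ y ∈ S, fr B F U c t y = A ∧ ∀ v, v ∉ A → y v = x v :=
    fun y hy => of_rep_eq B F U (hx y hy)
  have hfoot : ∀ y ∈ S, B.foot F U c y = A := fun y hy => by
    rw [← fr_eq_foot B F U (hS y hy).1]
    exact (hrep y hy).1
  -- the fibres of the other foot
  have hfib : ∀ D, (S.filter fun y => B.foot F U d y = D).card * 2 ^ lam ≤ 2 ^ A.card := by
    intro D
    rcases (S.filter fun y => B.foot F U d y = D).eq_empty_or_nonempty with he | ⟨y₀, hy₀⟩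
    · rw [he, card_empty, zero_mul]
      exact Nat.zero_le _
    · rw [mem_filter] at hy₀
      obtain ⟨hy₀S, hy₀D⟩ := hy₀
      have hsub : (S.filter fun y => B.foot F U d y = D) ⊆ B.side F U c y₀ := by
        intro y hy
        rw [mem_filter] at hy
        obtain ⟨hyS, hyD⟩ := hy
        have hoff : ∀ v, v ∉ A → y v = y₀ v := fun v hv => by
          rw [(hrep y hyS).2 v hv, (hrep y₀ hy₀S).2 v hv]
        unfold BlockSys.side
        rw [mem_filter, mem_cls]
        have hfc : B.foot F U c y = B.foot F U c y₀ := by rw [hfoot y hyS, hfoot y₀ hy₀S]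
        have hfd : B.foot F U d y = B.foot F U d y₀ := by rw [hyD, hy₀D]
        refine ⟨⟨fun l hl => ?_, ?_, ?_, ?_⟩, ?_⟩
        · rw [(hS y hyS).1 l hl, (hS y₀ hy₀S).1 l hl]
        · rcases hcd with ⟨rfl, rfl⟩ | ⟨rfl, rfl⟩
          · exact hfc
          · exact hfd
        · rcases hcd with ⟨rfl, rfl⟩ | ⟨rfl, rfl⟩
          · exact hfd
          · exact hfc
        · intro v hv0 hv1
          apply hoff
          rw [← hfoot y₀ hy₀S]
          rcases hcd with ⟨rfl, rfl⟩ | ⟨rfl, rfl⟩
          · exact hv0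
          · exact hv1
        · intro v hv
          apply hoff
          rw [← hfoot y₀ hy₀S]
          exact hv
      have h1 := (hS y₀ hy₀S).2.2
      rw [hfoot y₀ hy₀S] at h1
      exact (Nat.mul_le_mul_right _ (card_le_card hsub)).trans h1.le
  -- the number of the other feet
  have himg : (S.image fun y => B.foot F U d y).card ≤ nsub n e := by
    refine le_trans ?_ (card_small_sets n e)
    refine Finset.card_le_card_of_injOn
      (fun D => symmDiff D (bref B F U c d j t x)) ?_ ?_
    · intro D hD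
      rw [Finset.mem_coe, mem_image] at hD
      obtain ⟨y, hy, rfl⟩ := hD
      rw [Finset.mem_coe, mem_filter]
      refine ⟨mem_univ _, ?_⟩
      exact (card_le_card (symmDiff_subset2 B F U hcd (hS y hy).1
        (fun v hv => (hrep y hy).2 v hv))).trans (hS y hy).2.1
    · intro D _ D' _ h
      exact symmDiff_left_injective _ h
  calc S.card * 2 ^ lam
      = ∑ D ∈ S.image (fun y => B.foot F U d y),
          (S.filter fun y => B.foot F U d y = D).card * 2 ^ lam := by
        rw [Finset.card_eq_sum_card_image (fun y => B.foot F U d y) S, Finset.sum_mul]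
    _ ≤ ∑ D ∈ S.image (fun y => B.foot F U d y), 2 ^ A.card :=
        Finset.sum_le_sum fun D _ => hfib D
    _ = (S.image fun y => B.foot F U d y).card * 2 ^ A.card := by
        rw [Finset.sum_const, smul_eq_mul]
    _ ≤ nsub n e * 2 ^ A.card := Nat.mul_le_mul_right _ himg

/-- The count for one sequence of boundary states. -/
theorem count_seq2 {c d j e lam : ℕ} (hcd : (c = 0 ∧ d = 1) ∨ (c = 1 ∧ d = 0))
    {t : ℕ → Fin w} (S : Finset (Inp n))
    (hS : ∀ y ∈ S, (∀ l ≤ r, B.tr y l = t l) ∧ (abad2 (B.Lay r y) F U j).card ≤ e ∧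
      (B.side F U c y).card * 2 ^ lam < 2 ^ (B.foot F U c y).card) :
    S.card * 2 ^ lam ≤ nsub n e * 2 ^ n := by
  have hn : (2 : ℕ) ^ n = ∑ ρ : Inp n, (univ.filter fun y : Inp n => rep B F U c t y = ρ).card := by
    rw [← Finset.card_eq_sum_card_fiberwise (fun _ _ => Finset.mem_coe.mpr (mem_univ _))]
    simp
  rw [Finset.card_eq_sum_card_fiberwise (s := S) (t := univ) (f := rep B F U c t)
    (fun _ _ => Finset.mem_coe.mpr (mem_univ _)), hn, Finset.sum_mul, Finset.mul_sum]
  refine Finset.sum_le_sum fun ρ _ => ?_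
  rcases (S.filter fun y => rep B F U c t y = ρ).eq_empty_or_nonempty with he | ⟨x, hx⟩
  · rw [he, card_empty, zero_mul]
    exact Nat.zero_le _
  · rw [mem_filter] at hx
    obtain ⟨hxS, rfl⟩ := hx
    have h1 := count_fibre2 B F U hcd (x := x)
      (S.filter fun y => rep B F U c t y = rep B F U c t x)
      (fun y hy => hS y (mem_filter.mp hy).1) (fun y hy => (mem_filter.mp hy).2)
    exact h1.trans (Nat.mul_le_mul_left _ (card_fibre B F U x))

end Tail2Aux

open TailAux Tail2Aux

theorem small_side2 {n w r : ℕ} (B : BlockSys n w) (F : Fin r → ℕ) (U : Finset (Fin n))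
    (j e lam c : ℕ) (hc : c = 0 ∨ c = 1) (G : Finset (Inp n))
    (hG : ∀ x ∈ G, (abad2 (B.Lay r x) F U j).card ≤ e) :
    (G.filter fun x => (B.side F U c x).card * 2 ^ lam < 2 ^ (B.foot F U c x).card).card *
      2 ^ lam ≤ w ^ r * nsub n e * 2 ^ n := by
  obtain ⟨d, hcd⟩ : ∃ d, (c = 0 ∧ d = 1) ∨ (c = 1 ∧ d = 0) := by
    rcases hc with rfl | rfl
    · exact ⟨1, Or.inl ⟨rfl, rfl⟩⟩
    · exact ⟨0, Or.inr ⟨rfl, rfl⟩⟩
  set S := G.filter fun x => (B.side F U c x).card * 2 ^ lam < 2 ^ (B.foot F U c x).card with hS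
  rw [Finset.card_eq_sum_card_fiberwise (s := S) (t := univ)
    (f := fun x => fun l : Fin r => B.tr x (l + 1))
    (fun _ _ => Finset.mem_coe.mpr (mem_univ _)), Finset.sum_mul]
  calc ∑ τ : Fin r → Fin w,
        (S.filter fun x => (fun l : Fin r => B.tr x (l + 1)) = τ).card * 2 ^ lam
      ≤ ∑ _τ : Fin r → Fin w, nsub n e * 2 ^ n := by
        refine Finset.sum_le_sum fun τ _ => ?_
        rcases (S.filter fun x => (fun l : Fin r => B.tr x (l + 1)) = τ).eq_empty_or_nonempty
          with he | ⟨x, hx⟩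
        · rw [he, card_empty, zero_mul]
          exact Nat.zero_le _
        · rw [mem_filter] at hx
          obtain ⟨hxS, hxτ⟩ := hx
          refine count_seq2 B F U (j := j) hcd (t := B.tr x) _ fun y hy => ?_
          rw [mem_filter] at hy
          obtain ⟨hyS, hyτ⟩ := hy
          rw [hS, mem_filter] at hyS
          refine ⟨fun l hl => ?_, hG y hyS.1, hyS.2⟩
          rcases l with _ | l
          · rfl
          · have h1 := congrFun (hyτ.trans hxτ.symm) ⟨l, by omega⟩
            exact h1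
    _ = w ^ r * nsub n e * 2 ^ n := by
        rw [Finset.sum_const, card_univ, smul_eq_mul, Fintype.card_fun, Fintype.card_fin,
          Fintype.card_fin, mul_assoc]

end Pool.Agent.LT
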