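import Pool.Agent.Lib.MP_b573ec_lc_LT.Defs2
import Pool.Agent.Lib.MP_b573ec_lc_LT.Explicit

/-!
# Auxiliary definitions for the explicit version (not used in the final statements)
-/

namespace Pool.Agent.LT

open Finset Polynomial

/-- the scale number `m` -/
def QQ (k E m : ℕ) : ℕ := 32 * k * 4 ^ k * E * (64 * k * E) ^ m

/-- bound for `Q ^ (2k)` at all scales `Q = QQ k E m`, `m ≤ 4k` -/
def RR2 (k E : ℕ) : ℕ := (QQ k E (4 * k)) ^ (2 * k)

/-- number of types -/
def typ2 (k E : ℕ) : ℕ := (4 * k + 1) * (2 * k) * (Nat.log 2 (8 * k * RR2 k E) + 1)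

/-- the colours `0, 1` only, colour `c` at least `j` times and the other colour at least once -/
def mixed {n r : ℕ} (Lay : Fin n → Finset (Fin r)) (F : Fin r → ℕ) (j c : ℕ) (v : Fin n) :
    Prop :=
  (∀ l ∈ Lay v, F l < 2) ∧ j ≤ ((Lay v).filter fun l => F l = c).card ∧ ∃ l ∈ Lay v, F l ≠ c

instance {n r : ℕ} (Lay : Fin n → Finset (Fin r)) (F : Fin r → ℕ) (j c : ℕ) (v : Fin n) :
    Decidable (mixed Lay F j c v) := by unfold mixed; infer_instance

/-- the exceptional variables, sharper version -/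
def abad2 {n r : ℕ} (Lay : Fin n → Finset (Fin r)) (F : Fin r → ℕ) (U : Finset (Fin n))
    (j : ℕ) : Finset (Fin n) :=
  U.filter fun v => ((Lay v).card < j ∧ ((∀ l ∈ Lay v, F l = 0) ∨ ∀ l ∈ Lay v, F l = 1)) ∨
    mixed Lay F j 0 v ∨ mixed Lay F j 1 v

/-- number of nonempty subsets with at most `i - j` elements of a set with `i` elements -/
def cnt (i j : ℕ) : ℕ := ∑ t ∈ Icc 1 (i - j), i.choose t

/-- the fibres of the hash on every subcube of dimension at least `a0` are small -/
def GoodHash2 {n : ℕ} {W : Type} [AddCommGroup W] [DecidableEq W] (γ : Fin n → W)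
    (D a0 g : ℕ) : Prop :=
  ∀ A : Finset (Fin n), a0 ≤ A.card → ∀ (x : Inp n) (z : W),
    (univ.filter fun y : Inp n => (∀ v, v ∉ A → y v = x v) ∧ hash γ y = z).card * 2 ^ D ≤
      2 ^ (A.card + g)

/-- substitution of constants for some variables -/
def subst {n n' : ℕ} (σ : Fin n → Option (Fin n')) (c : Inp n) (d : Inp n') : Inp n :=
  fun j => (σ j).elim (c j) d

/-- the deficit of the distribution of `u i`, `i ∈ I` uniform, from the uniform one -/
noncomputable def defi {ι V : Type} [Fintype V] [DecidableEq V] (I : Finset ι) (u : ι → V) : ℝ :=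
  ∑ y : V, max 0 (1 / (Fintype.card V : ℝ) - ((I.filter fun i => u i = y).card : ℝ) / I.card)

/-- complete system of representatives of the points of degree `ℓ` -/
structure Points (K : Type) [Field K] [Algebra (ZMod 2) K] (ℓ : ℕ) (Θ : Finset K) : Prop where
  complete : ∀ π : (ZMod 2)[X], Irreducible π → π.natDegree = ℓ → ∃ θ ∈ Θ, aeval θ π = 0
  degree : ∀ θ ∈ Θ, (minpoly (ZMod 2) θ).natDegree = ℓ
  inj : ∀ θ ∈ Θ, ∀ θ' ∈ Θ, minpoly (ZMod 2) θ = minpoly (ZMod 2) θ' → θ = θ'

/-- `i` is the last position where `u` is not zero -/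
def IsLead {D : ℕ} (u : Fin D → ZMod 2) (i : Fin D) : Prop := u i ≠ 0 ∧ ∀ j, i < j → u j = 0

/-- evaluation at `t` of the polynomial of degree `< D` with the given coefficients -/
noncomputable def evalHom {K : Type} [Field K] [Algebra (ZMod 2) K] (D : ℕ) (t : K) :
    (Fin D → ZMod 2) →+ K where
  toFun c := ∑ i, algebraMap (ZMod 2) K (c i) * t ^ (i : ℕ)
  map_zero' := by simp
  map_add' a b := by simp [add_mul, sum_add_distrib]

/-- the windows of the sequence `y` as columns of the hash function of `cubeFn` -/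
def gamC (M : ℕ) (y : ℕ → ZMod 2) (v : ℕ) : (Fin M → ZMod 2) × (Fin (3 * M) → ZMod 2) :=
  (fun j => y (v + (M - 1 - j)), fun j => y (v + (4 * M - 1 - j)))

/-- the windows of the sequence `y` as columns of the hash function of `factorFn` -/
def gamF (D : ℕ) (y : ℕ → ZMod 2) (v : ℕ) : Fin D → ZMod 2 :=
  fun j => y (v + (D - 1 - j))

end Pool.Agent.LT
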