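import Mathlib
import Pool.Agent.Lib.MP_b573ec_lc_LT.V2.Defs3
import Pool.Agent.Lib.MP_b573ec_lc_LT.Conv

/-!
# The sum of two nearly uniform values in a finite abelian group hits every point
-/

namespace Pool.Agent.LT

open Finset Polynomial

theorem conv2 {ι κ V : Type} [AddCommGroup V] [Fintype V] [DecidableEq V] (I : Finset ι)
    (J : Finset κ) (u : ι → V) (u' : κ → V) (z : V) (hI : I.Nonempty) (hJ : J.Nonempty)
    (h1 : defi I u ≤ 1 / 8) (h2 : defi J u' ≤ 1 / 8) :
    3 * (I.card * J.card) ≤ 4 * Fintype.card V *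
      ((I ×ˢ J).filter fun p => u p.1 + u' p.2 = z).card := by
  classical
  have hq : (0 : ℝ) < Fintype.card V := by
    exact_mod_cast Fintype.card_pos_iff.mpr ⟨z⟩
  have hIc : (0 : ℝ) < I.card := by exact_mod_cast hI.card_pos
  have hJc : (0 : ℝ) < J.card := by exact_mod_cast hJ.card_pos
  set q : ℝ := (Fintype.card V : ℝ) with hqdef
  set N : V → ℝ := fun y => ((I.filter fun i => u i = y).card : ℝ) with hN
  set N' : V → ℝ := fun y => ((J.filter fun j => u' j = y).card : ℝ) with hN'
  set d : V → ℝ := fun y => max 0 (1 / q - N y / I.card) with hd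
  set d' : V → ℝ := fun y => max 0 (1 / q - N' y / J.card) with hd'
  have e1 : ∑ y, d y ≤ 1 / 8 := h1
  have e2 : ∑ y, d' y ≤ 1 / 8 := h2
  have hM := ConvAux.card_conv I J u u' z
  have hM' : ((((I ×ˢ J).filter fun p => u p.1 + u' p.2 = z).card : ℕ) : ℝ) =
      ∑ y : V, N y * N' (z - y) := by
    rw [hM]
    push_cast
    rfl
  have hterm : ∀ y, (1 / q) * (1 / q) - (1 / q) * d y - (1 / q) * d' (z - y) ≤
      (N y / I.card) * (N' (z - y) / J.card) := by
    intro y
    have a0 : 0 ≤ N y / I.card := by positivity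
    have b0 : 0 ≤ N' (z - y) / J.card := by positivity
    have a1 : 0 ≤ d y := le_max_left _ _
    have b1 : 0 ≤ d' (z - y) := le_max_left _ _
    have a2 : 1 / q - N y / I.card ≤ d y := le_max_right _ _
    have b2 : 1 / q - N' (z - y) / J.card ≤ d' (z - y) := le_max_right _ _
    have a3 : d y ≤ 1 / q := max_le (by positivity) (by linarith)
    have b3 : d' (z - y) ≤ 1 / q := max_le (by positivity) (by linarith)
    have c1 : (1 / q - d y) * (1 / q - d' (z - y)) ≤
        (N y / I.card) * (N' (z - y) / J.card) :=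
      mul_le_mul (by linarith) (by linarith) (by linarith) a0
    have c2 : 0 ≤ d y * d' (z - y) := mul_nonneg a1 b1
    nlinarith [c1, c2]
  have hsum : (1 / q) * (1 - 1 / 8 - 1 / 8) ≤
      ∑ y : V, (N y / I.card) * (N' (z - y) / J.card) := by
    refine le_trans ?_ (Finset.sum_le_sum fun y _ => hterm y)
    have hre : ∑ y : V, d' (z - y) = ∑ y : V, d' y :=
      (Equiv.subLeft z).sum_comp d'
    have hconst : ∑ _y : V, (1 / q) * (1 / q) = 1 / q := by
      rw [Finset.sum_const, Finset.card_univ, nsmul_eq_mul]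
      rw [← hqdef]
      field_simp
    have hall : ∑ y : V, ((1 / q) * (1 / q) - (1 / q) * d y - (1 / q) * d' (z - y)) =
        1 / q - (1 / q) * (∑ y : V, d y) - (1 / q) * (∑ y : V, d' y) := by
      rw [Finset.sum_sub_distrib, Finset.sum_sub_distrib, hconst, ← hre,
        Finset.mul_sum, Finset.mul_sum]
    rw [hall]
    have hq' : 0 < 1 / q := by positivity
    nlinarith [mul_le_mul_of_nonneg_left e1 hq'.le, mul_le_mul_of_nonneg_left e2 hq'.le]
  have hsum' : ∑ y : V, (N y / I.card) * (N' (z - y) / J.card) =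
      (∑ y : V, N y * N' (z - y)) / (I.card * J.card) := by
    rw [Finset.sum_div]
    refine Finset.sum_congr rfl fun y _ => ?_
    field_simp
  rw [hsum', ← hM'] at hsum
  have hIJ : (0 : ℝ) < I.card * J.card := mul_pos hIc hJc
  rw [le_div_iff₀ hIJ] at hsum
  have hfin : (3 : ℝ) * (I.card * J.card) ≤ 4 * q * ((((I ×ˢ J).filter fun p =>
      u p.1 + u' p.2 = z).card : ℕ) : ℝ) := by
    have h3 := mul_le_mul_of_nonneg_left hsum (by positivity : (0 : ℝ) ≤ 4 * q)
    have h4 : 4 * q * (1 / q * (1 - 1 / 8 - 1 / 8) * (I.card * J.card)) =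
        3 * (I.card * J.card) := by
      field_simp
      ring
    linarith
  rw [hqdef] at hfin
  exact_mod_cast hfin

end Pool.Agent.LT
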