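import Pool.Agent.Lib.MP_b573ec_lc_LT.V2.Defs3
import Pool.Agent.Lib.MP_b573ec_lc_LT.Moment

/-!
# The moment lemma for an abstract family of additive maps
-/

namespace Pool.Agent.LT

open Finset Polynomial

namespace Moment2Aux

variable {Tt W V : Type} [AddCommGroup W] [Fintype W] [DecidableEq W] [AddCommGroup V]
    [Fintype V] [DecidableEq V] [DecidableEq Tt]

omit [DecidableEq W] [DecidableEq V] in
/-- a product in which one point is taken exactly once has mean zero -/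
theorem vanish2 {s p : ℕ} (hs : s ≤ 2 * p) (φ : Tt → W →+ V) (Θ : Finset Tt)
    (hsep : ∀ t ∈ Θ, ∀ S ⊆ Θ, t ∉ S → S.card < 2 * p →
      ∀ y : V, ∃ z : W, φ t z = y ∧ ∀ s ∈ S, φ s z = 0)
    (τ : Fin s → Tt) (hτ : ∀ j, τ j ∈ Θ) (ψ : Tt → V → ℝ)
    (hψ : ∀ t, ∑ y, ψ t y = 0) (j0 : Fin s) (hj : ∀ j, j ≠ j0 → τ j ≠ τ j0) :
    ∑ z : W, ∏ j, ψ (τ j) (φ (τ j) z) = 0 := by
  classical
  set T : Finset Tt := (univ.erase j0).image τ with hT
  have h0 : τ j0 ∉ T := by
    rw [hT, mem_image]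
    rintro ⟨j, hj', h⟩
    exact hj j (ne_of_mem_erase hj') h
  have hTΘ : T ⊆ Θ := by
    intro t ht
    obtain ⟨j, -, rfl⟩ := mem_image.1 ht
    exact hτ j
  have hTc : T.card < 2 * p := by
    calc T.card ≤ (univ.erase j0).card := card_image_le
      _ < (univ : Finset (Fin s)).card := card_erase_lt_of_mem (mem_univ _)
      _ = s := by simp
      _ ≤ 2 * p := hs
  choose d hd0 hd1 using hsep (τ j0) (hτ j0) T hTΘ h0 hTc
  set F : W → ℝ := fun z => ∏ j, ψ (τ j) (φ (τ j) z) with hF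
  have h1 : ∀ a : V, ∑ z, F (z + d a) = ∑ z, F z := fun a =>
    Equiv.sum_comp (Equiv.addRight (d a)) F
  have h2 : ∀ (z : W) (a : V), F (z + d a) =
      ψ (τ j0) (φ (τ j0) z + a) * ∏ j ∈ univ.erase j0, ψ (τ j) (φ (τ j) z) := by
    intro z a
    rw [hF]
    simp only
    rw [← Finset.mul_prod_erase univ _ (mem_univ j0), map_add, hd0]
    congr 1
    refine Finset.prod_congr rfl fun j hj' => ?_
    rw [map_add, hd1 a (τ j) (by rw [hT]; exact mem_image_of_mem _ hj'), add_zero]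
  have h3 : (Fintype.card V : ℝ) * ∑ z, F z = 0 := by
    calc (Fintype.card V : ℝ) * ∑ z, F z = ∑ a : V, ∑ z, F (z + d a) := by
          rw [Finset.sum_congr rfl fun a _ => h1 a, Finset.sum_const, nsmul_eq_mul, card_univ]
      _ = ∑ z, ∑ a : V, F (z + d a) := Finset.sum_comm
      _ = ∑ z : W, (∑ a : V, ψ (τ j0) (φ (τ j0) z + a)) *
            ∏ j ∈ univ.erase j0, ψ (τ j) (φ (τ j) z) := by
          refine Finset.sum_congr rfl fun z _ => ?_
          rw [Finset.sum_congr rfl fun a _ => h2 z a, Finset.sum_mul]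
      _ = 0 := by
          refine Finset.sum_eq_zero fun z _ => ?_
          have : ∑ a : V, ψ (τ j0) (φ (τ j0) z + a) = 0 := by
            rw [← hψ (τ j0)]
            exact Equiv.sum_comp (Equiv.addLeft (φ (τ j0) z)) (ψ (τ j0))
          rw [this, zero_mul]
  have h4 : (Fintype.card V : ℝ) ≠ 0 := by
    have : 0 < Fintype.card V := Fintype.card_pos
    positivity
  exact (mul_eq_zero.1 h3).resolve_left h4

omit [DecidableEq W] [DecidableEq V] in
/-- the `2p`-th moment of a sum of mean-zero functions of the values of the maps -/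
theorem moment_le2 (φ : Tt → W →+ V) (Θ : Finset Tt) (p : ℕ) (hp : 1 ≤ p)
    (hsep : ∀ t ∈ Θ, ∀ S ⊆ Θ, t ∉ S → S.card < 2 * p →
      ∀ y : V, ∃ z : W, φ t z = y ∧ ∀ s ∈ S, φ s z = 0)
    (B : Finset Tt) (hB : B ⊆ Θ) (ψ : Tt → V → ℝ)
    (hψ : ∀ t, ∑ y, ψ t y = 0) (hψ1 : ∀ t y, |ψ t y| ≤ 1) :
    ∑ z : W, (∑ t ∈ B, ψ t (φ t z)) ^ (2 * p) ≤
      (Fintype.card W : ℝ) * ((B.card : ℝ) ^ p * (p : ℝ) ^ (2 * p)) := by
  classical
  have h1 : ∀ z : W, (∑ t ∈ B, ψ t (φ t z)) ^ (2 * p) =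
      ∑ τ ∈ Fintype.piFinset (fun _ : Fin (2 * p) => B), ∏ j, ψ (τ j) (φ (τ j) z) := by
    intro z
    have h := Finset.prod_univ_sum (fun _ : Fin (2 * p) => B)
      (fun _ t => ψ t (φ t z))
    rw [← h, Finset.prod_const, card_univ, Fintype.card_fin]
  rw [Finset.sum_congr rfl fun z _ => h1 z, Finset.sum_comm]
  set M := (Fintype.piFinset fun _ : Fin (2 * p) => B).filter fun τ =>
      ∀ j, ∃ j', j' ≠ j ∧ τ j' = τ j with hM
  have h2 : ∑ τ ∈ Fintype.piFinset (fun _ : Fin (2 * p) => B),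
      ∑ z : W, ∏ j, ψ (τ j) (φ (τ j) z) =
      ∑ τ ∈ M, ∑ z : W, ∏ j, ψ (τ j) (φ (τ j) z) := by
    rw [hM, Finset.sum_filter]
    refine Finset.sum_congr rfl fun τ hτ => ?_
    split_ifs with h
    · rfl
    · push Not at h
      obtain ⟨j0, hj0⟩ := h
      rw [Fintype.mem_piFinset] at hτ
      exact vanish2 le_rfl φ Θ hsep τ (fun j => hB (hτ j)) ψ hψ j0 hj0
  rw [h2]
  have h3 : ∀ τ ∈ M, ∑ z : W, ∏ j, ψ (τ j) (φ (τ j) z) ≤ (Fintype.card W : ℝ) := by
    intro τ _
    calc ∑ z : W, ∏ j, ψ (τ j) (φ (τ j) z) ≤ ∑ z : W, 1 := by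
          refine Finset.sum_le_sum fun z _ => ?_
          refine (le_abs_self _).trans ?_
          rw [Finset.abs_prod]
          exact Finset.prod_le_one (fun _ _ => abs_nonneg _) fun j _ => hψ1 _ _
      _ = (Fintype.card W : ℝ) := by simp
  calc ∑ τ ∈ M, ∑ z : W, ∏ j, ψ (τ j) (φ (τ j) z)
      ≤ ∑ τ ∈ M, (Fintype.card W : ℝ) := Finset.sum_le_sum h3
    _ = (M.card : ℝ) * (Fintype.card W : ℝ) := by rw [Finset.sum_const, nsmul_eq_mul]
    _ ≤ ((B.card : ℝ) ^ p * (p : ℝ) ^ (2 * p)) * (Fintype.card W : ℝ) := by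
        refine mul_le_mul_of_nonneg_right ?_ (by positivity)
        have := MomentAux.card_multi p hp B
        exact_mod_cast this
    _ = _ := mul_comm _ _

end Moment2Aux

theorem moment2 {ι Tt W V : Type} [AddCommGroup W] [Fintype W] [DecidableEq W] [AddCommGroup V]
    [Fintype V] [DecidableEq V] [DecidableEq Tt] (φ : Tt → W →+ V) (Θ : Finset Tt) (p : ℕ)
    (hp : 1 ≤ p) (hsep : ∀ t ∈ Θ, ∀ S ⊆ Θ, t ∉ S → S.card < 2 * p →
      ∀ y : V, ∃ z : W, φ t z = y ∧ ∀ s ∈ S, φ s z = 0)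
    (I : Finset ι) (hI : I.Nonempty) (u : ι → W) (Bd : ℕ)
    (hfib : ∀ z, (I.filter fun i => u i = z).card * Fintype.card W ≤ Bd * I.card) :
    (Θ.filter fun t => 1 / 8 < defi I (fun i => φ t (u i))).card ^ p ≤
      (64 * p ^ 2) ^ p * Bd := by
  classical
  set B : Finset Tt := Θ.filter fun t => 1 / 8 < defi I (fun i => φ t (u i)) with hB
  set q : ℝ := (Fintype.card V : ℝ) with hq
  have hq0 : 0 < q := by
    have : 0 < Fintype.card V := Fintype.card_pos
    rw [hq]; positivity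
  have hW0 : (0 : ℝ) < Fintype.card W := by
    have : 0 < Fintype.card W := Fintype.card_pos
    positivity
  set N : ℝ := (I.card : ℝ) with hN
  have hN0 : 0 < N := by
    rw [hN]; exact_mod_cast hI.card_pos
  -- the test functions
  set Pr : Tt → V → ℝ := fun t y => ((I.filter fun i => φ t (u i) = y).card : ℝ) / N
    with hPr
  set G : Tt → Finset V := fun t => univ.filter fun y => Pr t y < 1 / q with hG
  set ψ : Tt → V → ℝ := fun t y => ((G t).card : ℝ) / q - if y ∈ G t then 1 else 0 with hψ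
  have hψ0 : ∀ t, ∑ y, ψ t y = 0 := by
    intro t
    rw [hψ]
    simp only
    rw [Finset.sum_sub_distrib, Finset.sum_const, nsmul_eq_mul, card_univ, ← hq,
      mul_div_cancel₀ _ hq0.ne', Finset.sum_ite_mem, univ_inter, Finset.sum_const, nsmul_eq_mul,
      mul_one, sub_self]
  have hψ1 : ∀ t y, |ψ t y| ≤ 1 := by
    intro t y
    have h1 : 0 ≤ ((G t).card : ℝ) / q := by positivity
    have h2 : ((G t).card : ℝ) / q ≤ 1 := by
      rw [div_le_one hq0, hq]
      exact_mod_cast Finset.card_le_univ _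
    rw [hψ]
    simp only
    rw [abs_le]
    split_ifs <;> constructor <;> linarith
  -- the deficit is the mean of the test function
  have hdef : ∀ t, defi I (fun i => φ t (u i)) = (∑ i ∈ I, ψ t (φ t (u i))) / N := by
    intro t
    have e1 : defi I (fun i => φ t (u i)) = ∑ y ∈ G t, (1 / q - Pr t y) := by
      rw [defi, hG]
      simp only
      rw [Finset.sum_filter]
      refine Finset.sum_congr rfl fun y _ => ?_
      split_ifs with hy
      · exact max_eq_right (sub_nonneg.2 hy.le)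
      · exact max_eq_left (sub_nonpos.2 (not_lt.1 hy))
    have e2 : ∑ y ∈ G t, Pr t y = (∑ i ∈ I, if φ t (u i) ∈ G t then (1 : ℝ) else 0) / N := by
      rw [hPr]
      simp only
      rw [← Finset.sum_div]
      congr 1
      have : ∀ y ∈ G t, ((I.filter fun i => φ t (u i) = y).card : ℝ) =
          ∑ i ∈ I, if φ t (u i) = y then (1 : ℝ) else 0 := by
        intro y _
        rw [Finset.card_filter]
        push_cast
        rfl
      rw [Finset.sum_congr rfl this, Finset.sum_comm]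
      refine Finset.sum_congr rfl fun i _ => ?_
      rw [Finset.sum_ite_eq]
    rw [e1, Finset.sum_sub_distrib, e2, Finset.sum_const, nsmul_eq_mul, hψ]
    simp only
    rw [Finset.sum_sub_distrib, Finset.sum_const, nsmul_eq_mul, ← hN]
    field_simp
  -- power mean
  set Φ : W → ℝ := fun z => ∑ t ∈ B, ψ t (φ t z) with hΦ
  have hmean : (B.card : ℝ) / 8 ≤ ∑ i ∈ I, 1 / N * Φ (u i) := by
    calc (B.card : ℝ) / 8 = ∑ t ∈ B, (1 / 8 : ℝ) := by
          rw [Finset.sum_const, nsmul_eq_mul]; ring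
      _ ≤ ∑ t ∈ B, defi I (fun i => φ t (u i)) := by
          refine Finset.sum_le_sum fun t ht => ?_
          rw [hB, mem_filter] at ht
          exact ht.2.le
      _ = ∑ t ∈ B, ∑ i ∈ I, 1 / N * ψ t (φ t (u i)) := by
          refine Finset.sum_congr rfl fun t _ => ?_
          rw [hdef t, Finset.sum_div]
          refine Finset.sum_congr rfl fun i _ => ?_
          ring
      _ = ∑ i ∈ I, 1 / N * Φ (u i) := by
          rw [Finset.sum_comm]
          refine Finset.sum_congr rfl fun i _ => ?_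
          rw [hΦ]
          simp only
          rw [Finset.mul_sum]
  have hpow : (∑ i ∈ I, 1 / N * Φ (u i)) ^ (2 * p) ≤ ∑ i ∈ I, 1 / N * Φ (u i) ^ (2 * p) := by
    refine Real.pow_arith_mean_le_arith_mean_pow_of_even I (fun _ => 1 / N) (fun i => Φ (u i))
      (fun _ _ => by positivity) ?_ (even_two_mul p)
    rw [Finset.sum_const, nsmul_eq_mul, ← hN]
    field_simp
  have hgroup : ∑ i ∈ I, 1 / N * Φ (u i) ^ (2 * p) =
      ∑ z : W, ((I.filter fun i => u i = z).card : ℝ) / N * Φ z ^ (2 * p) := by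
    rw [← Finset.sum_fiberwise_of_maps_to (s := I) (t := univ) (g := u) (fun _ _ => mem_univ _)]
    refine Finset.sum_congr rfl fun z _ => ?_
    rw [Finset.sum_congr rfl (g := fun _ => 1 / N * Φ z ^ (2 * p))]
    · rw [Finset.sum_const, nsmul_eq_mul]; ring
    · intro i hi
      rw [(mem_filter.1 hi).2]
  have hbound : ∑ z : W, ((I.filter fun i => u i = z).card : ℝ) / N * Φ z ^ (2 * p) ≤
      ∑ z : W, (Bd : ℝ) / Fintype.card W * Φ z ^ (2 * p) := by
    refine Finset.sum_le_sum fun z _ => ?_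
    refine mul_le_mul_of_nonneg_right ?_ ?_
    · rw [div_le_div_iff₀ hN0 hW0, hN]
      exact_mod_cast hfib z
    · rw [pow_mul]; positivity
  have hmom := Moment2Aux.moment_le2 φ Θ p hp hsep B (filter_subset _ _) ψ hψ0 hψ1
  have hfin : ((B.card : ℝ) / 8) ^ (2 * p) ≤
      (Bd : ℝ) * ((B.card : ℝ) ^ p * (p : ℝ) ^ (2 * p)) := by
    calc ((B.card : ℝ) / 8) ^ (2 * p) ≤ (∑ i ∈ I, 1 / N * Φ (u i)) ^ (2 * p) :=
          pow_le_pow_left₀ (by positivity) hmean _
      _ ≤ ∑ i ∈ I, 1 / N * Φ (u i) ^ (2 * p) := hpow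
      _ = _ := hgroup
      _ ≤ _ := hbound
      _ = (Bd : ℝ) / Fintype.card W * ∑ z : W, Φ z ^ (2 * p) := by rw [Finset.mul_sum]
      _ ≤ (Bd : ℝ) / Fintype.card W *
          (Fintype.card W * ((B.card : ℝ) ^ p * (p : ℝ) ^ (2 * p))) :=
          mul_le_mul_of_nonneg_left hmom (by positivity)
      _ = (Bd : ℝ) * ((B.card : ℝ) ^ p * (p : ℝ) ^ (2 * p)) := by
          field_simp
  rcases Nat.eq_zero_or_pos B.card with h0 | h0
  · rw [h0, zero_pow (by omega)]
    exact Nat.zero_le _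
  · have hb : (0 : ℝ) < B.card := by exact_mod_cast h0
    have h1 : (B.card : ℝ) ^ p * (B.card : ℝ) ^ p ≤
        (B.card : ℝ) ^ p * ((64 * (p : ℝ) ^ 2) ^ p * Bd) := by
      calc (B.card : ℝ) ^ p * (B.card : ℝ) ^ p = 64 ^ p * ((B.card : ℝ) / 8) ^ (2 * p) := by
            rw [pow_mul, ← mul_pow, ← mul_pow]
            congr 1
            ring
        _ ≤ 64 ^ p * ((Bd : ℝ) * ((B.card : ℝ) ^ p * (p : ℝ) ^ (2 * p))) :=
            mul_le_mul_of_nonneg_left hfin (by positivity)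
        _ = (B.card : ℝ) ^ p * ((64 * (p : ℝ) ^ 2) ^ p * Bd) := by
            rw [mul_pow, ← pow_mul]; ring
    have h2 := le_of_mul_le_mul_left h1 (by positivity)
    exact_mod_cast h2

end Pool.Agent.LT
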