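import Pool.Agent.Lib.MP_b573ec_lc_LT.Common
import Pool.Agent.Lib.MP_b573ec_lc_LT.Blocks
import Pool.Agent.Lib.MP_b573ec_lc_LT.V2.Ajtai2
import Pool.Agent.Lib.MP_b573ec_lc_LT.V2.Moment2
import Pool.Agent.Lib.MP_b573ec_lc_LT.V2.Conv2

/-!
# Lower bound for the root problem, abstract version
-/

namespace Pool.Agent.LT

open Finset Polynomial

namespace Part2Lower2Aux

/-- the fibres of the hash on a large side -/
lemma side_fib2 {n : ℕ} {W : Type} [AddCommGroup W] [DecidableEq W] (γ : Fin n → W)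
    (D a0 g lam : ℕ) (hγ : GoodHash2 γ D a0 g) (A : Finset (Fin n)) (hA : a0 ≤ A.card)
    (x : Inp n) (S : Finset (Inp n)) (hS : ∀ y ∈ S, ∀ v, v ∉ A → y v = x v)
    (hcard : 2 ^ A.card ≤ S.card * 2 ^ lam) (z : W) :
    (S.filter fun y => hash γ y = z).card * 2 ^ D ≤ 2 ^ (lam + g) * S.card := by
  calc (S.filter fun y => hash γ y = z).card * 2 ^ D
      ≤ (univ.filter fun y : Inp n => (∀ v, v ∉ A → y v = x v) ∧ hash γ y = z).card * 2 ^ D := by
        refine Nat.mul_le_mul_right _ (card_le_card ?_)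
        intro y hy
        rw [mem_filter] at hy ⊢
        exact ⟨mem_univ _, hS y hy.1, hy.2⟩
    _ ≤ 2 ^ (A.card + g) := hγ A hA x z
    _ = 2 ^ A.card * 2 ^ g := by rw [pow_add]
    _ ≤ S.card * 2 ^ lam * 2 ^ g := Nat.mul_le_mul_right _ hcard
    _ = 2 ^ (lam + g) * S.card := by rw [pow_add]; ring

variable {Tt W V : Type} [AddCommGroup W] [Fintype W] [DecidableEq W]
    [AddCommGroup V] [Fintype V] [DecidableEq V] [DecidableEq Tt]

open Classical in
/-- the class bound: a large class has its fair share of the sets `L t` -/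
lemma class_bound2 {n w r : ℕ} (φ : Tt → W →+ V) (Θ : Finset Tt)
    (D : ℕ) (hW : Fintype.card W = 2 ^ D) (γ : Fin n → W) (w0 : W) (g a0 : ℕ)
    (hγ : GoodHash2 γ D a0 g) (B : BlockSys n w) (F : Fin r → ℕ) (U : Finset (Fin n))
    (hcov : ∀ x v, (B.Lay r x v).Nonempty) (x : Inp n) (lam p : ℕ)
    (hA : a0 ≤ (B.foot F U 0 x).card) (hB : a0 ≤ (B.foot F U 1 x).card)
    (hKA : 2 ^ (B.foot F U 0 x).card ≤ (B.side F U 0 x).card * 2 ^ lam)
    (hKB : 2 ^ (B.foot F U 1 x).card ≤ (B.side F U 1 x).card * 2 ^ lam)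
    (hp : 1 ≤ p)
    (hsep : ∀ t ∈ Θ, ∀ S ⊆ Θ, t ∉ S → S.card < 2 * p →
      ∀ y : V, ∃ z : W, φ t z = y ∧ ∀ s ∈ S, φ s z = 0)
    (hbad : (512 * p ^ 2) ^ p * 2 ^ (lam + g) ≤ Θ.card ^ p) :
    9 * Θ.card * (B.cls F U x).card ≤ 16 * Fintype.card V *
      ∑ t ∈ Θ, ((B.cls F U x).filter fun y => φ t (hash γ y + w0) = 0).card := by
  set I := B.side F U 0 x with hI
  set J := B.side F U 1 x with hJ
  set h' : Inp n → W := fun z => hash γ z - hash γ x + w0 with hh'
  have hIne : I.Nonempty := by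
    rw [← card_pos]
    by_contra hcon
    have : I.card = 0 := by omega
    rw [this, zero_mul] at hKA
    have : 0 < 2 ^ (B.foot F U 0 x).card := by positivity
    omega
  have hJne : J.Nonempty := by
    rw [← card_pos]
    by_contra hcon
    have : J.card = 0 := by omega
    rw [this, zero_mul] at hKB
    have : 0 < 2 ^ (B.foot F U 1 x).card := by positivity
    omega
  have hfibI : ∀ z, (I.filter fun i => hash γ i = z).card * Fintype.card W ≤
      2 ^ (lam + g) * I.card := by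
    intro z
    rw [hW]
    exact side_fib2 γ D a0 g lam hγ _ hA x I (fun y hy => (mem_filter.mp hy).2) hKA z
  have hfibJ : ∀ z, (J.filter fun i => h' i = z).card * Fintype.card W ≤
      2 ^ (lam + g) * J.card := by
    intro z
    rw [hW]
    have h1 := side_fib2 γ D a0 g lam hγ _ hB x J (fun y hy => (mem_filter.mp hy).2) hKB
      (z - w0 + hash γ x)
    have h2 : (J.filter fun i => h' i = z) = J.filter fun y => hash γ y = z - w0 + hash γ x := by
      refine filter_congr fun y _ => ?_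
      simp only [hh']
      constructor
      · intro h; rw [← h]; abel
      · intro h; rw [h]; abel
    rw [h2]
    exact h1
  have hcount : ∀ s : ℕ, s ^ p ≤ (64 * p ^ 2) ^ p * 2 ^ (lam + g) → 8 * s ≤ Θ.card := by
    intro s hs
    have h1 : (8 * s) ^ p ≤ Θ.card ^ p := by
      calc (8 * s) ^ p = 8 ^ p * s ^ p := by rw [mul_pow]
        _ ≤ 8 ^ p * ((64 * p ^ 2) ^ p * 2 ^ (lam + g)) := Nat.mul_le_mul_left _ hs
        _ = (512 * p ^ 2) ^ p * 2 ^ (lam + g) := by
            rw [← mul_assoc, ← mul_pow]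
            congr 2
            ring
        _ ≤ Θ.card ^ p := hbad
    exact (Nat.pow_le_pow_iff_left (by omega)).mp h1
  set BI := Θ.filter fun t => 1 / 8 < defi I (fun i => φ t (hash γ i)) with hBI
  set BJ := Θ.filter fun t => 1 / 8 < defi J (fun i => φ t (h' i)) with hBJ
  have hBIc : 8 * BI.card ≤ Θ.card :=
    hcount _ (moment2 φ Θ p hp hsep I hIne (hash γ) (2 ^ (lam + g)) hfibI)
  have hBJc : 8 * BJ.card ≤ Θ.card :=
    hcount _ (moment2 φ Θ p hp hsep J hJne h' (2 ^ (lam + g)) hfibJ)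
  have hcls : (B.cls F U x).card = I.card * J.card := card_cls B F U hcov x
  -- good points
  have hgoodt : ∀ t ∈ Θ \ (BI ∪ BJ), 3 * (B.cls F U x).card ≤ 4 * Fintype.card V *
      ((B.cls F U x).filter fun y => φ t (hash γ y + w0) = 0).card := by
    intro t ht
    rw [mem_sdiff, mem_union, not_or] at ht
    have h1 : defi I (fun i => φ t (hash γ i)) ≤ 1 / 8 := by
      by_contra hcon
      exact ht.2.1 (mem_filter.mpr ⟨ht.1, not_le.mp hcon⟩)
    have h2 : defi J (fun i => φ t (h' i)) ≤ 1 / 8 := by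
      by_contra hcon
      exact ht.2.2 (mem_filter.mpr ⟨ht.1, not_le.mp hcon⟩)
    have h3 := conv2 I J (fun i => φ t (hash γ i)) (fun i => φ t (h' i)) 0 hIne hJne h1 h2
    rw [hcls]
    refine le_trans h3 (Nat.mul_le_mul_left _ ?_)
    -- injection of pairs into the class
    refine card_le_card_of_injOn
      (fun u : Inp n × Inp n => fun v => if v ∈ B.foot F U 0 x then u.1 v else u.2 v) ?_ ?_
    · intro u hu
      have hu' := mem_filter.mp (mem_coe.mp hu)
      have huI : u.1 ∈ I := (mem_product.mp hu'.1).1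
      have huJ : u.2 ∈ J := (mem_product.mp hu'.1).2
      have hmI := mem_filter.mp huI
      have hmJ := mem_filter.mp huJ
      refine mem_coe.mpr (mem_filter.mpr ⟨mix_mem B F U hcov hmI.1 hmJ.1, ?_⟩)
      rw [hash_mix γ _ _ (foot_disjoint B F U x (hcov x)) x u.1 u.2 hmI.2 hmJ.2, add_assoc,
        map_add]
      exact hu'.2
    · intro u hu u' hu' huu
      have hu1 := mem_product.mp (mem_filter.mp (mem_coe.mp hu)).1
      have hu2 := mem_product.mp (mem_filter.mp (mem_coe.mp hu')).1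
      have hdis := foot_disjoint B F U x (hcov x)
      have e1 := (mem_filter.mp hu1.1).2
      have e2 := (mem_filter.mp hu1.2).2
      have e3 := (mem_filter.mp hu2.1).2
      have e4 := (mem_filter.mp hu2.2).2
      refine Prod.ext ?_ ?_
      · funext v
        by_cases hv : v ∈ B.foot F U 0 x
        · have := congrFun huu v
          simpa [hv] using this
        · rw [e1 v hv, e3 v hv]
      · funext v
        by_cases hv : v ∈ B.foot F U 1 x
        · have hv0 : v ∉ B.foot F U 0 x := fun h => disjoint_left.mp hdis h hv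
          have := congrFun huu v
          simpa [hv0] using this
        · rw [e2 v hv, e4 v hv]
  -- number of good points
  have hnum : 3 * Θ.card ≤ 4 * (Θ \ (BI ∪ BJ)).card := by
    have h1 : Θ.card ≤ (Θ \ (BI ∪ BJ)).card + (BI ∪ BJ).card := card_le_card_sdiff_add_card
    have h2 : (BI ∪ BJ).card ≤ BI.card + BJ.card := card_union_le _ _
    omega
  have hsum : (Θ \ (BI ∪ BJ)).card * (3 * (B.cls F U x).card) ≤ 4 * Fintype.card V *
      ∑ t ∈ Θ, ((B.cls F U x).filter fun y => φ t (hash γ y + w0) = 0).card := by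
    calc (Θ \ (BI ∪ BJ)).card * (3 * (B.cls F U x).card)
        = ∑ _t ∈ Θ \ (BI ∪ BJ), 3 * (B.cls F U x).card := by rw [sum_const, smul_eq_mul]
      _ ≤ ∑ t ∈ Θ \ (BI ∪ BJ), 4 * Fintype.card V *
          ((B.cls F U x).filter fun y => φ t (hash γ y + w0) = 0).card :=
          sum_le_sum hgoodt
      _ = 4 * Fintype.card V * ∑ t ∈ Θ \ (BI ∪ BJ),
          ((B.cls F U x).filter fun y => φ t (hash γ y + w0) = 0).card := by
          rw [mul_sum]
      _ ≤ _ := Nat.mul_le_mul_left _ (sum_le_sum_of_subset sdiff_subset)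
  calc 9 * Θ.card * (B.cls F U x).card = 3 * Θ.card * (3 * (B.cls F U x).card) := by ring
    _ ≤ 4 * (Θ \ (BI ∪ BJ)).card * (3 * (B.cls F U x).card) := Nat.mul_le_mul_right _ hnum
    _ = 4 * ((Θ \ (BI ∪ BJ)).card * (3 * (B.cls F U x).card)) := by ring
    _ ≤ 4 * (4 * Fintype.card V *
      ∑ t ∈ Θ, ((B.cls F U x).filter fun y => φ t (hash γ y + w0) = 0).card) :=
        Nat.mul_le_mul_left _ hsum
    _ = _ := by ring

end Part2Lower2Aux

open Part2Lower2Aux

open Classical in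
theorem part2_lower2 {Tt W V : Type} [AddCommGroup W] [Fintype W] [DecidableEq W]
    [AddCommGroup V] [Fintype V] [DecidableEq V] [DecidableEq Tt] {n T w : ℕ}
    (φ : Tt → W →+ V) (Θ : Finset Tt) (hΘ : 4 * Θ.card ≤ Fintype.card V) (hΘ0 : Θ.Nonempty)
    (D : ℕ) (hW : Fintype.card W = 2 ^ D) (γ : Fin n → W) (w0 : W) (g a0 : ℕ)
    (hγ : GoodHash2 γ D a0 g)
    (hw0 : (∑ t ∈ Θ, (univ.filter fun x : Inp n => φ t (hash γ x + w0) = 0).card) *
      Fintype.card V ≤ Θ.card * 2 ^ n)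
    (k E L r e lam s p DA : ℕ) (hk : 1 ≤ k) (hE : 1 ≤ E) (hL : 1 ≤ L) (hDA : 16 ≤ DA)
    (ha0 : a0 ≤ 2 * DA) (hT : T + n ≤ k * n) (hr : T + n ≤ r * L)
    (hn : 16 * k * RR2 k E * DA ≤ n) (hLn : 512 * k ^ 2 * RR2 k E * L ≤ n)
    (he : 64 * DA ≤ (e + 1) * E)
    (hlam : 64 * typ2 k E * w ^ r * nsub n e ≤ 2 ^ lam)
    (hs : 256 * typ2 k E ≤ 2 ^ s) (hp : 1 ≤ p)
    (hsep : ∀ t ∈ Θ, ∀ S ⊆ Θ, t ∉ S → S.card < 2 * p →
      ∀ y : V, ∃ z : W, φ t z = y ∧ ∀ s ∈ S, φ s z = 0)
    (hbad : (512 * p ^ 2) ^ p * 2 ^ (lam + g) ≤ Θ.card ^ p) :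
    ¬ SmallErr (fun x : Inp n => decide (∃ t ∈ Θ, φ t (hash γ x + w0) = 0)) T w s := by
  rintro ⟨ρ, P, herr⟩
  set Lt : Tt → Finset (Inp n) := fun t => univ.filter fun x : Inp n =>
    φ t (hash γ x + w0) = 0 with hLt
  set f : Inp n → Bool := fun x => decide (∃ t ∈ Θ, φ t (hash γ x + w0) = 0) with hf
  set Z0 : Finset (Inp n) := univ.filter fun x => f x = false with hZ0
  set q := Fintype.card V with hq
  have hΘpos : 0 < Θ.card := card_pos.mpr hΘ0
  have hqpos : 0 < q := by omega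
  have htyp : 1 ≤ typ2 k E := by
    unfold typ2
    have : 0 < (4 * k + 1) * (2 * k) * (Nat.log 2 (8 * k * RR2 k E) + 1) := by positivity
    omega
  have hWt : 4 * ∑ t ∈ Θ, (Lt t).card ≤ 2 ^ n := by
    have h1 : Θ.card * (4 * ∑ t ∈ Θ, (Lt t).card) ≤ Θ.card * 2 ^ n := by
      calc Θ.card * (4 * ∑ t ∈ Θ, (Lt t).card) = (∑ t ∈ Θ, (Lt t).card) * (4 * Θ.card) := by ring
        _ ≤ (∑ t ∈ Θ, (Lt t).card) * q := Nat.mul_le_mul_left _ hΘ
        _ ≤ Θ.card * 2 ^ n := hw0
    exact Nat.le_of_mul_le_mul_left h1 hΘpos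
  have hone : (univ.filter fun x => f x = true).card ≤ ∑ t ∈ Θ, (Lt t).card := by
    refine le_trans (card_le_card ?_) (card_biUnion_le (s := Θ) (t := Lt))
    intro x hx
    have h1 := (mem_filter.mp hx).2
    rw [hf] at h1
    obtain ⟨t, ht, ht'⟩ := of_decide_eq_true h1
    exact mem_biUnion.mpr ⟨t, ht, mem_filter.mpr ⟨mem_univ _, ht'⟩⟩
  have htot : (univ.filter fun x => f x = true).card + Z0.card = 2 ^ n := by
    have h1 := card_filter_add_card_filter_not (s := (univ : Finset (Inp n)))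
      (fun x => f x = true)
    rw [card_univ, Fintype.card_fun, Fintype.card_bool, Fintype.card_fin] at h1
    rw [← h1]
    congr 2
    refine filter_congr fun x _ => ?_
    cases f x <;> simp
  -- the errors of one program
  set err0 : (Fin ρ → Bool) → ℕ := fun c => (Z0.filter fun x => (P c).eval x = true).card
    with herr0
  set err1 : (Fin ρ → Bool) → ℕ := fun c =>
    ∑ t ∈ Θ, ((Lt t).filter fun x => (P c).eval x = false).card with herr1
  have hs0 : 2 ^ s * ∑ c, err0 c ≤ Z0.card * 2 ^ ρ := by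
    have h1 : ∑ c, err0 c = ∑ x ∈ Z0, (univ.filter fun c => (P c).eval x = true).card := by
      simp only [herr0, card_filter]
      exact sum_comm
    have h2 : ∀ x ∈ Z0, 2 ^ s * (univ.filter fun c => (P c).eval x = true).card ≤ 2 ^ ρ := by
      intro x hx
      have h3 := herr x
      have h4 : f x = false := (mem_filter.mp hx).2
      have h5 : (univ.filter fun c => (P c).eval x = true) =
          univ.filter fun c => (P c).eval x ≠ f x := by
        refine filter_congr fun c _ => ?_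
        rw [h4]; cases (P c).eval x <;> simp
      rw [h5, mul_comm]
      exact h3
    rw [h1, mul_sum]
    calc ∑ x ∈ Z0, 2 ^ s * (univ.filter fun c => (P c).eval x = true).card
        ≤ ∑ _x ∈ Z0, 2 ^ ρ := sum_le_sum h2
      _ = Z0.card * 2 ^ ρ := by rw [sum_const, smul_eq_mul]
  have hs1 : 2 ^ s * ∑ c, err1 c ≤ (∑ t ∈ Θ, (Lt t).card) * 2 ^ ρ := by
    have h1 : ∑ c, err1 c =
        ∑ t ∈ Θ, ∑ x ∈ Lt t, (univ.filter fun c => (P c).eval x = false).card := by
      rw [herr1, sum_comm]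
      refine sum_congr rfl fun t _ => ?_
      simp only [card_filter]
      exact sum_comm
    have h2' : ∀ t ∈ Θ, ∀ x ∈ Lt t,
        2 ^ s * (univ.filter fun c => (P c).eval x = false).card ≤ 2 ^ ρ := by
      intro t ht x hx
      have h3 := herr x
      have h4 : f x = true := decide_eq_true ⟨t, ht, (mem_filter.mp hx).2⟩
      have h5 : (univ.filter fun c => (P c).eval x = false) =
          univ.filter fun c => (P c).eval x ≠ f x := by
        refine filter_congr fun c _ => ?_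
        rw [h4]; cases (P c).eval x <;> simp
      rw [h5, mul_comm]
      exact h3
    rw [h1, mul_sum, sum_mul]
    refine sum_le_sum fun t ht => ?_
    rw [mul_sum]
    calc ∑ x ∈ Lt t, 2 ^ s * (univ.filter fun c => (P c).eval x = false).card
        ≤ ∑ _x ∈ Lt t, 2 ^ ρ := sum_le_sum (h2' t ht)
      _ = (Lt t).card * 2 ^ ρ := by rw [sum_const, smul_eq_mul]
  have hexc : ∃ c, 2 ^ s * (Θ.card * err0 c + q * err1 c) ≤ 2 * Θ.card * 2 ^ n := by
    by_contra hcon
    push Not at hcon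
    have h1 : ∑ _c : Fin ρ → Bool, 2 * Θ.card * 2 ^ n <
        ∑ c, 2 ^ s * (Θ.card * err0 c + q * err1 c) :=
      sum_lt_sum_of_nonempty univ_nonempty (fun c _ => hcon c)
    rw [sum_const, smul_eq_mul, card_univ, Fintype.card_fun, Fintype.card_bool,
      Fintype.card_fin] at h1
    have h2 : ∑ c, 2 ^ s * (Θ.card * err0 c + q * err1 c) ≤ 2 ^ ρ * (2 * Θ.card * 2 ^ n) := by
      calc ∑ c, 2 ^ s * (Θ.card * err0 c + q * err1 c)
          = Θ.card * (2 ^ s * ∑ c, err0 c) + q * (2 ^ s * ∑ c, err1 c) := by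
            rw [← mul_sum, sum_add_distrib, ← mul_sum, ← mul_sum]
            ring
        _ ≤ Θ.card * (Z0.card * 2 ^ ρ) + q * ((∑ t ∈ Θ, (Lt t).card) * 2 ^ ρ) :=
            Nat.add_le_add (Nat.mul_le_mul_left _ hs0) (Nat.mul_le_mul_left _ hs1)
        _ = (Θ.card * Z0.card + (∑ t ∈ Θ, (Lt t).card) * q) * 2 ^ ρ := by ring
        _ ≤ (Θ.card * 2 ^ n + Θ.card * 2 ^ n) * 2 ^ ρ := by
            refine Nat.mul_le_mul_right _ (Nat.add_le_add (Nat.mul_le_mul_left _ ?_) hw0)
            omega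
        _ = 2 ^ ρ * (2 * Θ.card * 2 ^ n) := by ring
    exact absurd (lt_of_lt_of_le h1 h2) (lt_irrefl _)
  obtain ⟨c, hc⟩ := hexc
  set X := Z0.filter fun x => (P c).eval x = false with hX
  have hXc : Z0.card = X.card + err0 c := by
    have h1 := card_filter_add_card_filter_not (s := Z0) (fun x => (P c).eval x = false)
    have h2 : (Z0.filter fun x => ¬ (P c).eval x = false) =
        Z0.filter fun x => (P c).eval x = true := by
      refine filter_congr fun x _ => ?_
      cases (P c).eval x <;> simp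
    rw [h2] at h1
    exact h1.symm
  have hs5 : 8 ≤ 2 ^ s := by omega
  have hpow : 0 < 2 ^ n := by positivity
  have herr1' : 4 * err0 c ≤ 2 ^ n := by
    have h1 : Θ.card * (8 * err0 c) ≤ Θ.card * (2 * 2 ^ n) := by
      calc Θ.card * (8 * err0 c) = 8 * (Θ.card * err0 c) := by ring
        _ ≤ 2 ^ s * (Θ.card * err0 c + q * err1 c) :=
            Nat.mul_le_mul hs5 (Nat.le_add_right _ _)
        _ ≤ 2 * Θ.card * 2 ^ n := hc
        _ = Θ.card * (2 * 2 ^ n) := by ring
    have h2 := Nat.le_of_mul_le_mul_left h1 hΘpos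
    omega
  have hX4 : 2 ^ n ≤ 4 * X.card := by omega
  have hXpos : 0 < X.card := by omega
  obtain ⟨B, hread, hcov, hsum, heval⟩ := exists_blockSys (P c) L r hL hr
  have hlam' : 16 * typ2 k E * w ^ r * nsub n e * 2 ^ n ≤ 2 ^ lam * X.card := by
    calc 16 * typ2 k E * w ^ r * nsub n e * 2 ^ n
        ≤ 16 * typ2 k E * w ^ r * nsub n e * (4 * X.card) := Nat.mul_le_mul_left _ hX4
      _ = 64 * typ2 k E * w ^ r * nsub n e * X.card := by ring
      _ ≤ 2 ^ lam * X.card := Nat.mul_le_mul_right _ hlam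
  obtain ⟨F, U, X', hX'X, hX'card, hX'⟩ := ajtai2 B k E DA L e lam hk hE hDA
    (fun x l => hread x l) hcov (fun x => le_trans (hsum x) hT) hn hLn he X
    (card_pos.mp hXpos) hlam'
  -- the classes
  set Cl := X'.image fun x => B.cls F U x with hCl
  have hrej : ∀ κ ∈ Cl, ∀ y ∈ κ, (P c).eval y = false := by
    intro κ hκ y hy
    obtain ⟨x, hx, rfl⟩ := mem_image.mp hκ
    have h1 : B.tr y r = B.tr x r := (mem_filter.mp hy).2.1 r le_rfl
    rw [heval y x h1]
    exact (mem_filter.mp (hX'X hx)).2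
  have hdisj : ∀ κ ∈ Cl, ∀ κ' ∈ Cl, κ ≠ κ' → Disjoint κ κ' := by
    intro κ hκ κ' hκ' hne
    obtain ⟨x, hx, rfl⟩ := mem_image.mp hκ
    obtain ⟨x', hx', rfl⟩ := mem_image.mp hκ'
    rw [disjoint_left]
    intro y hy hy'
    exact hne ((cls_eq B F U hy).symm.trans (cls_eq B F U hy'))
  have hX'Cl : X'.card ≤ ∑ κ ∈ Cl, κ.card := by
    rw [← card_biUnion hdisj]
    refine card_le_card fun x hx => ?_
    exact mem_biUnion.mpr ⟨B.cls F U x, mem_image_of_mem _ hx, mem_cls_self B F U x⟩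
  have hbound : ∀ κ ∈ Cl, 9 * Θ.card * κ.card ≤ 16 * q * ∑ t ∈ Θ, (κ.filter fun y =>
      φ t (hash γ y + w0) = 0).card := by
    intro κ hκ
    obtain ⟨x, hx, rfl⟩ := mem_image.mp hκ
    obtain ⟨hA, hB, hKA, hKB⟩ := hX' x hx
    exact class_bound2 φ Θ D hW γ w0 g a0 hγ B F U hcov x lam p (ha0.trans hA) (ha0.trans hB)
      hKA hKB hp hsep hbad
  have hfinal : 9 * Θ.card * X'.card ≤ 16 * q * err1 c := by
    calc 9 * Θ.card * X'.card ≤ 9 * Θ.card * ∑ κ ∈ Cl, κ.card := Nat.mul_le_mul_left _ hX'Cl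
      _ = ∑ κ ∈ Cl, 9 * Θ.card * κ.card := by rw [mul_sum]
      _ ≤ ∑ κ ∈ Cl, 16 * q * ∑ t ∈ Θ, (κ.filter fun y =>
          φ t (hash γ y + w0) = 0).card := sum_le_sum hbound
      _ = 16 * q * ∑ t ∈ Θ, ∑ κ ∈ Cl, (κ.filter fun y =>
          φ t (hash γ y + w0) = 0).card := by rw [← mul_sum, sum_comm]
      _ ≤ 16 * q * ∑ t ∈ Θ, ((Lt t).filter fun x => (P c).eval x = false).card := by
          refine Nat.mul_le_mul_left _ (sum_le_sum fun t _ => ?_)
          rw [← card_biUnion]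
          · refine card_le_card fun y hy => ?_
            obtain ⟨κ, hκ, hy'⟩ := mem_biUnion.mp hy
            have h1 := mem_filter.mp hy'
            exact mem_filter.mpr ⟨mem_filter.mpr ⟨mem_univ _, h1.2⟩, hrej κ hκ y h1.1⟩
          · intro κ hκ κ' hκ' hne
            exact disjoint_of_subset_left (filter_subset _ _)
              (disjoint_of_subset_right (filter_subset _ _) (hdisj κ hκ κ' hκ' hne))
  have hX'pos : 0 < X'.card := by
    rcases Nat.eq_zero_or_pos X'.card with h | h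
    · rw [h] at hX'card; omega
    · exact h
  have h1 : Θ.card * (typ2 k E * (2304 * X'.card)) ≤ Θ.card * (typ2 k E * (512 * X'.card)) := by
    calc Θ.card * (typ2 k E * (2304 * X'.card))
        = (256 * typ2 k E) * (9 * Θ.card * X'.card) := by ring
      _ ≤ 2 ^ s * (16 * q * err1 c) := Nat.mul_le_mul hs hfinal
      _ = 16 * (2 ^ s * (q * err1 c)) := by ring
      _ ≤ 16 * (2 ^ s * (Θ.card * err0 c + q * err1 c)) := by
          refine Nat.mul_le_mul_left _ (Nat.mul_le_mul_left _ (Nat.le_add_left _ _))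
      _ ≤ 16 * (2 * Θ.card * 2 ^ n) := Nat.mul_le_mul_left _ hc
      _ ≤ 16 * (2 * Θ.card * (4 * X.card)) := by gcongr
      _ ≤ 16 * (2 * Θ.card * (4 * (4 * typ2 k E * X'.card))) := by gcongr
      _ = Θ.card * (typ2 k E * (512 * X'.card)) := by ring
  have h2 : 2304 * X'.card ≤ 512 * X'.card :=
    Nat.le_of_mul_le_mul_left (Nat.le_of_mul_le_mul_left h1 hΘpos) htyp
  omega

end Pool.Agent.LT
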