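import Pool.Agent.Lib.MP_b573ec_lc_LT.V2.Defs3

/-!
# V10 Restrict: restriction of randomized programs
-/

namespace Pool.Agent.LT

open Finset Polynomial

namespace RestrictAux

/-- the program for the function with constants substituted for some variables -/
def res {n n' T w : ℕ} (hn' : 1 ≤ n') (σ : Fin n → Option (Fin n')) (c : Inp n)
    (P : Prog n T w) : Prog n' T w where
  start := P.start
  var i s := (σ (P.var i s)).getD ⟨0, hn'⟩
  next i s b := P.next i s ((σ (P.var i s)).elim (c (P.var i s)) fun _ => b)
  acc := P.acc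

theorem res_state {n n' T w : ℕ} (hn' : 1 ≤ n') (σ : Fin n → Option (Fin n')) (c : Inp n)
    (P : Prog n T w) (d : Inp n') (i : ℕ) :
    (res hn' σ c P).state d i = P.state (subst σ c d) i := by
  induction i with
  | zero => rfl
  | succ i ih =>
    simp only [Prog.state, ih]
    split_ifs with h
    · simp only [res, subst]
      cases σ (P.var ⟨i, h⟩ (P.state (subst σ c d) i)) with
      | none => rfl
      | some a => rfl
    · rfl

theorem res_eval {n n' T w : ℕ} (hn' : 1 ≤ n') (σ : Fin n → Option (Fin n')) (c : Inp n)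
    (P : Prog n T w) (d : Inp n') :
    (res hn' σ c P).eval d = P.eval (subst σ c d) := by
  simp only [Prog.eval, res_state]
  rfl

end RestrictAux

open RestrictAux in
theorem oneSided_subst {n n' T w : ℕ} (hn' : 1 ≤ n') (σ : Fin n → Option (Fin n')) (c : Inp n)
    (f : Inp n → Bool) (h : OneSided f T w) :
    OneSided (fun d => f (subst σ c d)) T w := by
  obtain ⟨ρ, P, h1, h2⟩ := h
  refine ⟨ρ, fun e => res hn' σ c (P e), ?_, ?_⟩
  · intro x hx
    simp only [res_eval]
    exact h1 _ hx
  · intro x hx e
    simp only [res_eval]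
    exact h2 _ hx e

open RestrictAux in
theorem twoSided_subst {n n' T w : ℕ} (hn' : 1 ≤ n') (σ : Fin n → Option (Fin n')) (c : Inp n)
    (f : Inp n → Bool) (h : TwoSided f T w) :
    TwoSided (fun d => f (subst σ c d)) T w := by
  obtain ⟨ρ, P, h1⟩ := h
  refine ⟨ρ, fun e => res hn' σ c (P e), ?_⟩
  intro x
  simp only [res_eval]
  exact h1 _

end Pool.Agent.LT
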