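import Pool.Agent.Lib.MP_b573ec_lc_LT.V2.Defs3

/-!
# Averaging over the shift, abstract version
-/

namespace Pool.Agent.LT

open Finset Polynomial

namespace Shifts2Aux

theorem card_fibre {W V : Type} [AddCommGroup W] [Fintype W] [AddCommGroup V]
    [Fintype V] [DecidableEq V] (φ : W →+ V) (hsurj : Function.Surjective φ) (z : W) :
    (univ.filter fun w : W => φ (z + w) = 0).card * Fintype.card V = Fintype.card W := by
  have hfib : ∀ y : V, (univ.filter fun w : W => φ (z + w) = y).card
      = (univ.filter fun w : W => φ (z + w) = 0).card := by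
    intro y
    obtain ⟨u, hu⟩ := hsurj y
    apply Finset.card_bij (fun w _ => w - u)
    · intro w hw
      simp only [Finset.mem_filter, Finset.mem_univ, true_and] at hw ⊢
      rw [← add_sub_assoc, map_sub, hw, hu, sub_self]
    · intro a _ b _ h
      exact sub_left_injective h
    · intro w hw
      refine ⟨w + u, ?_, by abel⟩
      simp only [Finset.mem_filter, Finset.mem_univ, true_and] at hw ⊢
      rw [← add_assoc, map_add, hw, hu, zero_add]
  have hsum := Finset.card_eq_sum_card_fiberwise (s := (univ : Finset W))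
    (t := (univ : Finset V)) (f := fun w => φ (z + w)) (fun _ _ => Finset.mem_univ _)
  rw [Finset.sum_congr rfl (fun y _ => hfib y), Finset.sum_const, Finset.card_univ,
    Finset.card_univ, smul_eq_mul] at hsum
  rw [hsum, mul_comm]

end Shifts2Aux

open Shifts2Aux

theorem exists_shift2' {Tt W V : Type} [AddCommGroup W] [Fintype W] [AddCommGroup V]
    [Fintype V] [DecidableEq V] {n : ℕ} (φ : Tt → W →+ V) (Θ : Finset Tt)
    (hsurj : ∀ t ∈ Θ, Function.Surjective (φ t)) (γ : Fin n → W) :
    ∃ w0 : W, (∑ t ∈ Θ, (univ.filter fun x : Inp n => φ t (hash γ x + w0) = 0).card) *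
      Fintype.card V ≤ Θ.card * 2 ^ n := by
  have hle : ∑ w0 : W, (∑ t ∈ Θ, (univ.filter fun x : Inp n =>
      φ t (hash γ x + w0) = 0).card) * Fintype.card V
      ≤ ∑ _w0 : W, Θ.card * 2 ^ n := by
    refine le_of_eq ?_
    rw [← Finset.sum_mul, Finset.sum_comm]
    have h1 : ∀ t ∈ Θ, ∑ w0 : W, (univ.filter fun x : Inp n =>
        φ t (hash γ x + w0) = 0).card
        = ∑ x : Inp n, (univ.filter fun w0 : W => φ t (hash γ x + w0) = 0).card := by
      intro t _
      simp only [Finset.card_filter]
      rw [Finset.sum_comm]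
    rw [Finset.sum_congr rfl h1, Finset.sum_mul]
    have h2 : ∀ t ∈ Θ, (∑ x : Inp n, (univ.filter fun w0 : W =>
          φ t (hash γ x + w0) = 0).card) * Fintype.card V
          = 2 ^ n * Fintype.card W := by
      intro t ht
      rw [Finset.sum_mul, Finset.sum_congr rfl fun x _ => card_fibre (φ t) (hsurj t ht) (hash γ x),
        Finset.sum_const, Finset.card_univ, Fintype.card_fun, Fintype.card_fin,
        Fintype.card_bool, smul_eq_mul]
    rw [Finset.sum_congr rfl h2, Finset.sum_const, Finset.sum_const, Finset.card_univ,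
      smul_eq_mul, smul_eq_mul]
    ring
  obtain ⟨w0, _, hw⟩ := Finset.exists_le_of_sum_le (Finset.univ_nonempty) hle
  exact ⟨w0, hw⟩

end Pool.Agent.LT
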