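import Pool.Agent.Lib.MP_b573ec_lc_LT.V2.Defs3

/-!
# Module V5c of project LT: fibres of a linear hash and the annihilator

Induction on the set of free variables: a new column outside the span of the others halves the
annihilator and does not enlarge the fibres; otherwise the fibres at most double.
-/

namespace Pool.Agent.LT

open Finset Polynomial

namespace ToepFibreAux

/-- the annihilator of the columns in `A` -/
def Ann {n D : ℕ} (γ : Fin n → Fin D → ZMod 2) (A : Finset (Fin n)) : Finset (Fin D → ZMod 2) :=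
  univ.filter fun u : Fin D → ZMod 2 => ∀ v ∈ A, ∑ j, u j * γ v j = 0

theorem mem_Ann {n D : ℕ} {γ : Fin n → Fin D → ZMod 2} {A : Finset (Fin n)}
    {u : Fin D → ZMod 2} : u ∈ Ann γ A ↔ ∀ v ∈ A, ∑ j, u j * γ v j = 0 := by
  simp [Ann]

theorem pair_hash {n D : ℕ} (γ : Fin n → Fin D → ZMod 2) (u : Fin D → ZMod 2) (y : Inp n) :
    ∑ j, u j * hash γ y j = ∑ v, if y v then ∑ j, u j * γ v j else 0 := by
  have h : ∀ j, hash γ y j = ∑ v, if y v then γ v j else 0 := by
    intro j
    unfold hash
    rw [Finset.sum_apply]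
    refine Finset.sum_congr rfl fun v _ => ?_
    split <;> rfl
  simp only [h, Finset.mul_sum]
  rw [Finset.sum_comm]
  refine Finset.sum_congr rfl fun v _ => ?_
  split
  · rfl
  · simp

/-- the fibre on a subcube -/
def Fib {n D : ℕ} (γ : Fin n → Fin D → ZMod 2) (A : Finset (Fin n)) (x : Inp n)
    (z : Fin D → ZMod 2) : Finset (Inp n) :=
  univ.filter fun y : Inp n => (∀ v, v ∉ A → y v = x v) ∧ hash γ y = z

theorem mem_Fib {n D : ℕ} {γ : Fin n → Fin D → ZMod 2} {A : Finset (Fin n)} {x : Inp n}
    {z : Fin D → ZMod 2} {y : Inp n} :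
    y ∈ Fib γ A x z ↔ (∀ v, v ∉ A → y v = x v) ∧ hash γ y = z := by
  simp [Fib]

theorem Fib_insert {n D : ℕ} (γ : Fin n → Fin D → ZMod 2) (A : Finset (Fin n)) (w : Fin n)
    (x : Inp n) (z : Fin D → ZMod 2) :
    Fib γ (insert w A) x z ⊆ Fib γ A (Function.update x w false) z ∪
      Fib γ A (Function.update x w true) z := by
  intro y hy
  rw [mem_Fib] at hy
  rw [mem_union, mem_Fib, mem_Fib]
  have key : ∀ b, y w = b → ∀ v, v ∉ A → y v = Function.update x w b v := by
    intro b hb v hv
    by_cases hvw : v = w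
    · rw [hvw, Function.update_self, hb]
    · rw [Function.update_of_ne hvw]
      refine hy.1 v ?_
      rw [mem_insert, not_or]
      exact ⟨hvw, hv⟩
  cases hb : y w
  · exact Or.inl ⟨key false hb, hy.2⟩
  · exact Or.inr ⟨key true hb, hy.2⟩

theorem disjoint_fib {n D : ℕ} (γ : Fin n → Fin D → ZMod 2) (A : Finset (Fin n)) (w : Fin n)
    (hw : w ∉ A) (x : Inp n) (z : Fin D → ZMod 2) {u : Fin D → ZMod 2} (hu : u ∈ Ann γ A)
    (huw : ∑ j, u j * γ w j ≠ 0) :
    Fib γ A (Function.update x w false) z = ∅ ∨ Fib γ A (Function.update x w true) z = ∅ := by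
  by_contra hcon
  rw [not_or, ← Ne, ← Ne, ← nonempty_iff_ne_empty, ← nonempty_iff_ne_empty] at hcon
  obtain ⟨⟨y, hy⟩, y', hy'⟩ := hcon
  rw [mem_Fib] at hy hy'
  rw [mem_Ann] at hu
  have h1 := pair_hash γ u y
  have h2 := pair_hash γ u y'
  rw [hy.2] at h1
  rw [hy'.2] at h2
  rw [h1] at h2
  -- the two sums differ exactly in the coordinate w
  rw [← Finset.add_sum_erase _ _ (mem_univ w), ← Finset.add_sum_erase _ _ (mem_univ w)] at h2
  have e1 : y w = false := by rw [hy.1 w hw, Function.update_self]
  have e2 : y' w = true := by rw [hy'.1 w hw, Function.update_self]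
  have e3 : ∑ v ∈ univ.erase w, (if y v then ∑ j, u j * γ v j else 0) =
      ∑ v ∈ univ.erase w, (if y' v then ∑ j, u j * γ v j else 0) := by
    refine Finset.sum_congr rfl fun v hv => ?_
    have hvw : v ≠ w := (mem_erase.1 hv).1
    by_cases hA : v ∈ A
    · rw [hu v hA]
      simp
    · rw [hy.1 v hA, hy'.1 v hA, Function.update_of_ne hvw, Function.update_of_ne hvw]
  rw [e3, e1, e2] at h2
  simp only [Bool.false_eq_true, if_false, if_true, zero_add] at h2
  exact huw (by simpa using h2)

theorem ann_half {n D : ℕ} (γ : Fin n → Fin D → ZMod 2) (A : Finset (Fin n)) (w : Fin n)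
    {u : Fin D → ZMod 2} (hu : u ∈ Ann γ A) (huw : ∑ j, u j * γ w j ≠ 0) :
    (Ann γ A).card ≤ 2 * (Ann γ (insert w A)).card := by
  have hone : ∀ a : ZMod 2, a ≠ 0 → a = 1 := by decide
  have huw1 := hone _ huw
  have hadd : ∀ (a b : Fin D → ZMod 2) (v : Fin n),
      ∑ j, (a + b) j * γ v j = ∑ j, a j * γ v j + ∑ j, b j * γ v j := by
    intro a b v
    rw [← Finset.sum_add_distrib]
    exact Finset.sum_congr rfl fun j _ => by rw [Pi.add_apply, add_mul]
  have hsub : Ann γ A ⊆ Ann γ (insert w A) ∪ (Ann γ (insert w A)).image (fun a => a + u) := by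
    intro a ha
    rw [mem_union, mem_image]
    by_cases h0 : ∑ j, a j * γ w j = 0
    · left
      rw [mem_Ann] at ha ⊢
      intro v hv
      rcases mem_insert.1 hv with rfl | hv
      · exact h0
      · exact ha v hv
    · right
      refine ⟨a + u, ?_, ?_⟩
      · rw [mem_Ann] at ha hu ⊢
        intro v hv
        rw [hadd]
        rcases mem_insert.1 hv with rfl | hv
        · rw [hone _ h0, huw1]
          decide
        · rw [ha v hv, hu v hv, add_zero]
      · funext j
        have : ∀ p q : ZMod 2, p + q + q = p := by decide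
        exact this _ _
  calc (Ann γ A).card ≤ (Ann γ (insert w A) ∪ (Ann γ (insert w A)).image (fun a => a + u)).card :=
        card_le_card hsub
    _ ≤ (Ann γ (insert w A)).card + ((Ann γ (insert w A)).image (fun a => a + u)).card :=
        card_union_le _ _
    _ ≤ (Ann γ (insert w A)).card + (Ann γ (insert w A)).card :=
        Nat.add_le_add_left card_image_le _
    _ = 2 * (Ann γ (insert w A)).card := by ring

theorem main {n D : ℕ} (γ : Fin n → Fin D → ZMod 2) (A : Finset (Fin n)) :
    ∀ (x : Inp n) (z : Fin D → ZMod 2),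
      (Fib γ A x z).card * 2 ^ D ≤ 2 ^ A.card * (Ann γ A).card := by
  induction A using Finset.induction_on with
  | empty =>
    intro x z
    have h1 : (Fib γ ∅ x z).card ≤ 1 := by
      rw [card_le_one]
      intro a ha b hb
      rw [mem_Fib] at ha hb
      funext v
      rw [ha.1 v (notMem_empty v), hb.1 v (notMem_empty v)]
    have h2 : (Ann γ ∅).card = 2 ^ D := by
      have : Ann γ ∅ = univ := by
        ext u
        simp [mem_Ann]
      rw [this, card_univ, Fintype.card_fun, ZMod.card, Fintype.card_fin]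
    rw [h2, card_empty, pow_zero]
    exact Nat.mul_le_mul_right _ h1
  | insert w A hw ih =>
    intro x z
    rw [card_insert_of_notMem hw, pow_succ]
    have hle := card_le_card (Fib_insert γ A w x z)
    have hu := hle.trans (card_union_le _ _)
    have i0 := ih (Function.update x w false) z
    have i1 := ih (Function.update x w true) z
    by_cases hall : ∀ u ∈ Ann γ A, ∑ j, u j * γ w j = 0
    · have hA : Ann γ A ⊆ Ann γ (insert w A) := by
        intro a ha
        have h0 := hall a ha
        rw [mem_Ann] at ha ⊢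
        intro v hv
        rcases mem_insert.1 hv with rfl | hv
        · exact h0
        · exact ha v hv
      have hc := card_le_card hA
      calc (Fib γ (insert w A) x z).card * 2 ^ D
          ≤ ((Fib γ A (Function.update x w false) z).card +
              (Fib γ A (Function.update x w true) z).card) * 2 ^ D := Nat.mul_le_mul_right _ hu
        _ = (Fib γ A (Function.update x w false) z).card * 2 ^ D +
              (Fib γ A (Function.update x w true) z).card * 2 ^ D := by ring
        _ ≤ 2 ^ A.card * (Ann γ A).card + 2 ^ A.card * (Ann γ A).card := Nat.add_le_add i0 i1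
        _ = 2 ^ A.card * 2 * (Ann γ A).card := by ring
        _ ≤ 2 ^ A.card * 2 * (Ann γ (insert w A)).card := Nat.mul_le_mul_left _ hc
    · push Not at hall
      obtain ⟨u, hu1, hu2⟩ := hall
      have hh := ann_half γ A w hu1 hu2
      have h3 : (Fib γ (insert w A) x z).card * 2 ^ D ≤ 2 ^ A.card * (Ann γ A).card := by
        rcases disjoint_fib γ A w hw x z hu1 hu2 with h | h
        · rw [h, card_empty, zero_add] at hu
          exact (Nat.mul_le_mul_right _ hu).trans i1
        · rw [h, card_empty, add_zero] at hu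
          exact (Nat.mul_le_mul_right _ hu).trans i0
      calc (Fib γ (insert w A) x z).card * 2 ^ D ≤ 2 ^ A.card * (Ann γ A).card := h3
        _ ≤ 2 ^ A.card * (2 * (Ann γ (insert w A)).card) := Nat.mul_le_mul_left _ hh
        _ = 2 ^ A.card * 2 * (Ann γ (insert w A)).card := by ring

end ToepFibreAux

open ToepFibreAux

theorem fibre_ann {n D : ℕ} (γ : Fin n → Fin D → ZMod 2) (A : Finset (Fin n)) (x : Inp n)
    (z : Fin D → ZMod 2) :
    (univ.filter fun y : Inp n => (∀ v, v ∉ A → y v = x v) ∧ hash γ y = z).card * 2 ^ D ≤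
      2 ^ A.card * (univ.filter fun u : Fin D → ZMod 2 => ∀ v ∈ A, ∑ j, u j * γ v j = 0).card :=
  ToepFibreAux.main γ A x z

end Pool.Agent.LT
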