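import Pool.Agent.Lib.MP_b573ec_lc_LT.V2.Defs3

/-!
Phase 2 of the time-space tradeoff: counting by leading positions.
-/

set_option autoImplicit false

namespace Pool.Agent.LT

open Finset Polynomial

theorem card_sol {m : ℕ} (S : Finset (Fin m → ZMod 2)) (P : Finset (Fin m))
    (h : ∀ q ∈ P, ∀ y ∈ S, ∀ z ∈ S, (∀ j < q, y j = z j) → y q = z q) :
    S.card * 2 ^ P.card ≤ 2 ^ m := by
  classical
  have hinj : Set.InjOn (fun (y : Fin m → ZMod 2) (j : {j : Fin m // j ∉ P}) => y j) (S : Set _) := by
    intro y hy z hz hyz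
    have key : ∀ i : ℕ, ∀ q : Fin m, (q : ℕ) = i → y q = z q := by
      intro i
      induction i using Nat.strong_induction_on with
      | _ i ih =>
        intro q hq
        by_cases hP : q ∈ P
        · exact h q hP y hy z hz fun j hj => ih j (by rw [← hq]; exact hj) j rfl
        · exact congrFun hyz ⟨q, hP⟩
    funext q
    exact key q q rfl
  have h1 : S.card ≤ Fintype.card ({j : Fin m // j ∉ P} → ZMod 2) := by
    rw [← card_image_of_injOn hinj]
    exact card_le_univ _
  have h2 : Fintype.card ({j : Fin m // j ∉ P} → ZMod 2) = 2 ^ (m - P.card) := by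
    rw [Fintype.card_fun, ZMod.card]
    congr 1
    rw [Fintype.card_subtype_compl]
    simp
  have hPm : P.card ≤ m := by
    have := card_le_univ P
    simpa using this
  calc S.card * 2 ^ P.card ≤ 2 ^ (m - P.card) * 2 ^ P.card :=
        Nat.mul_le_mul_right _ (h1.trans h2.le)
    _ = 2 ^ m := by rw [← pow_add]; congr 1; omega

open Classical in
theorem card_ann_le {D : ℕ} (N : Finset (Fin D → ZMod 2)) (hN : ∀ u ∈ N, ∀ v ∈ N, u + v ∈ N) :
    N.card ≤ 2 ^ (univ.filter fun i : Fin D => ∃ u ∈ N, IsLead u i).card := by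
  set Pos := univ.filter fun i : Fin D => ∃ u ∈ N, IsLead u i with hPos
  have hinj : Set.InjOn (fun (u : Fin D → ZMod 2) (i : {i : Fin D // i ∈ Pos}) => u i)
      (N : Set _) := by
    intro u hu v hv huv
    by_contra hne
    have hw : ∃ i, (u + v) i ≠ 0 := by
      by_contra hcon
      push Not at hcon
      apply hne
      funext i
      have h1 := hcon i
      rw [Pi.add_apply] at h1
      have h2 : u i = - v i := eq_neg_of_add_eq_zero_left h1
      rw [h2]
      exact ZMod.neg_eq_self_mod_two (v i)
    have hne' : (univ.filter fun i : Fin D => (u + v) i ≠ 0).Nonempty := by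
      obtain ⟨i, hi⟩ := hw
      exact ⟨i, mem_filter.mpr ⟨mem_univ _, hi⟩⟩
    set i := (univ.filter fun i : Fin D => (u + v) i ≠ 0).max' hne' with hi
    have hi1 : (u + v) i ≠ 0 := (mem_filter.mp (max'_mem _ hne')).2
    have hlead : IsLead (u + v) i := by
      refine ⟨hi1, fun j hj => ?_⟩
      by_contra hcon
      have := le_max' (univ.filter fun i : Fin D => (u + v) i ≠ 0) j
        (mem_filter.mpr ⟨mem_univ _, hcon⟩)
      exact absurd (lt_of_lt_of_le hj this) (lt_irrefl _)
    have hiP : i ∈ Pos := mem_filter.mpr ⟨mem_univ _, u + v, hN u hu v hv, hlead⟩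
    have h1 : u i = v i := congrFun huv ⟨i, hiP⟩
    apply hi1
    rw [Pi.add_apply, h1]
    exact CharTwo.add_self_eq_zero (v i)
  have h1 : N.card ≤ Fintype.card ({i : Fin D // i ∈ Pos} → ZMod 2) := by
    rw [← card_image_of_injOn hinj]
    exact card_le_univ _
  refine h1.trans (le_of_eq ?_)
  rw [Fintype.card_fun, ZMod.card]
  congr 1
  rw [Fintype.card_coe]

end Pool.Agent.LT
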