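import Pool.Agent.Lib.MP_b573ec_lc_LT.V2.ToepGreedy
import Pool.Agent.Lib.MP_b573ec_lc_LT.V2.ToepLead
import Pool.Agent.Lib.MP_b573ec_lc_LT.V2.ToepFibre

/-!
# A sequence whose windows are a good hash (union bound)
-/

namespace Pool.Agent.LT

open Finset Polynomial

namespace ToepAux

/-- extension by zero -/
def ext {m : ℕ} (y : Fin m → ZMod 2) (q : ℕ) : ZMod 2 := if h : q < m then y ⟨q, h⟩ else 0

theorem ext_lt {m : ℕ} (y : Fin m → ZMod 2) {q : ℕ} (h : q < m) : ext y q = y ⟨q, h⟩ := by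
  simp [ext, h]

theorem self_pow_le (m : ℕ) : m ^ m ≤ 3 ^ m * m.factorial := by
  have h1 : (m : ℝ) ^ m / m.factorial ≤ Real.exp m :=
    Real.pow_div_factorial_le_exp (m : ℝ) (Nat.cast_nonneg m) m
  have h2 : Real.exp m ≤ 3 ^ m := by
    have h3 : Real.exp (m : ℝ) = Real.exp 1 ^ m := by
      rw [← Real.exp_nat_mul, mul_one]
    rw [h3]
    have h4 := Real.exp_one_lt_d9
    exact pow_le_pow_left₀ (Real.exp_pos 1).le (by linarith) m
  have h5 : (0 : ℝ) < m.factorial := by exact_mod_cast m.factorial_pos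
  have h6 : (m : ℝ) ^ m ≤ 3 ^ m * m.factorial := by
    have h7 := (div_le_iff₀ h5).1 (h1.trans h2)
    exact h7
  exact_mod_cast h6

theorem choose_mul_pow_le (n m : ℕ) : n.choose m * m ^ m ≤ (3 * n) ^ m := by
  have h1 : n.choose m * m.factorial ≤ n ^ m := by
    rw [mul_comm, ← Nat.descFactorial_eq_factorial_mul_choose]
    exact Nat.descFactorial_le_pow n m
  calc n.choose m * m ^ m ≤ n.choose m * (3 ^ m * m.factorial) :=
        Nat.mul_le_mul_left _ (self_pow_le m)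
    _ = 3 ^ m * (n.choose m * m.factorial) := by ring
    _ ≤ 3 ^ m * n ^ m := Nat.mul_le_mul_left _ h1
    _ = (3 * n) ^ m := by rw [mul_pow]

open Classical in
/-- the sequences orthogonal to the vectors `U a` in all windows starting in `A` -/
noncomputable def Sol {n D g : ℕ} (A : Finset (Fin n)) (U : Fin g → Fin D → ZMod 2) :
    Finset (Fin (n + D) → ZMod 2) :=
  univ.filter fun y => ∀ v ∈ A, ∀ a, ∑ j : Fin D, U a j * ext y (v + j) = 0

/-- pairs which occur -/
def GoodPair {n D g : ℕ} (A : Finset (Fin n)) (U : Fin g → Fin D → ZMod 2) : Prop :=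
  ∃ Ls : Finset (Fin D), 2 * g * D ≤ ((A ×ˢ Ls).image fun p => (p.1 : ℕ) + (p.2 : ℕ)).card ∧
    ∀ i ∈ Ls, ∃ a, IsLead (U a) i

theorem card_Sol {n D g : ℕ} (A : Finset (Fin n)) (U : Fin g → Fin D → ZMod 2)
    (h : GoodPair A U) : (Sol A U).card * 2 ^ (2 * g * D) ≤ 2 ^ (n + D) := by
  classical
  obtain ⟨Ls, hLs, hlead⟩ := h
  let f : Fin n × Fin D → Fin (n + D) := fun p => ⟨(p.1 : ℕ) + (p.2 : ℕ), by
    have h1 := p.1.2
    have h2 := p.2.2
    omega⟩
  have hP : ((A ×ˢ Ls).image f).card =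
      ((A ×ˢ Ls).image fun p => (p.1 : ℕ) + (p.2 : ℕ)).card := by
    rw [← Finset.card_image_of_injective ((A ×ˢ Ls).image f) Fin.val_injective,
      Finset.image_image]
    rfl
  have h1 := card_sol (Sol A U) ((A ×ˢ Ls).image f) (by
    intro q hq y hy z hz hyz
    obtain ⟨⟨v, i⟩, hvi, rfl⟩ := Finset.mem_image.1 hq
    obtain ⟨hv, hi⟩ := Finset.mem_product.1 hvi
    obtain ⟨a, ha⟩ := hlead i hi
    have hy1 := (Finset.mem_filter.1 hy).2 v hv a
    have hz1 := (Finset.mem_filter.1 hz).2 v hv a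
    have h2 : ∑ j : Fin D, U a j * (ext y (v + j) - ext z (v + j)) = 0 := by
      have h3 : ∑ j : Fin D, U a j * (ext y (v + j) - ext z (v + j)) =
          (∑ j : Fin D, U a j * ext y (v + j)) - ∑ j : Fin D, U a j * ext z (v + j) := by
        rw [← Finset.sum_sub_distrib]
        exact Finset.sum_congr rfl fun j _ => by ring
      rw [h3, hy1, hz1, sub_zero]
    rw [Finset.sum_eq_single i] at h2
    · rcases mul_eq_zero.1 h2 with h3 | h3
      · exact absurd h3 ha.1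
      · have h4 : (v : ℕ) + (i : ℕ) < n + D := (f (v, i)).2
        rw [ext_lt y h4, ext_lt z h4] at h3
        exact sub_eq_zero.1 h3
    · intro j _ hj
      rcases lt_or_gt_of_ne hj with hji | hji
      · have h4 : (v : ℕ) + (j : ℕ) < n + D := (f (v, j)).2
        rw [ext_lt y h4, ext_lt z h4]
        have h5 : (⟨(v : ℕ) + (j : ℕ), h4⟩ : Fin (n + D)) < f (v, i) := by
          change (v : ℕ) + (j : ℕ) < (v : ℕ) + (i : ℕ)
          have : (j : ℕ) < (i : ℕ) := hji
          omega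
        rw [hyz _ h5, sub_self, mul_zero]
      · rw [ha.2 j hji, zero_mul]
    · intro h3
      exact absurd (Finset.mem_univ _) h3)
  rw [hP] at h1
  exact (Nat.mul_le_mul_left _ (Nat.pow_le_pow_right (by norm_num) hLs)).trans h1

theorem exists_pair {n D g : ℕ} (hg1 : 1 ≤ g) (y : Fin (n + D) → ZMod 2)
    (hbad : ¬ GoodHash2 (fun (v : Fin n) (j : Fin D) => ext y (v + j)) D (8 * g * D) g) :
    ∃ (A : Finset (Fin n)) (U : Fin g → Fin D → ZMod 2), A.card = 4 * D ∧ GoodPair A U ∧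
      y ∈ Sol A U := by
  classical
  unfold GoodHash2 at hbad
  push Not at hbad
  obtain ⟨A, hA, x, z, hlt⟩ := hbad
  have h1 := fibre_ann (fun (v : Fin n) (j : Fin D) => ext y (v + j)) A x z
  set N := univ.filter fun u : Fin D → ZMod 2 =>
    ∀ v ∈ A, ∑ j : Fin D, u j * ext y ((v : ℕ) + (j : ℕ)) = 0 with hN
  have h2 : 2 ^ g < N.card := by
    have h3 := lt_of_lt_of_le hlt h1
    rw [pow_add] at h3
    exact lt_of_mul_lt_mul_left h3 (Nat.zero_le _)
  have h3 := card_ann_le N (by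
    intro u hu v hv
    rw [hN, Finset.mem_filter] at hu hv ⊢
    refine ⟨Finset.mem_univ _, fun w hw => ?_⟩
    have h4 : ∑ j : Fin D, (u + v) j * ext y ((w : ℕ) + (j : ℕ)) =
        (∑ j : Fin D, u j * ext y ((w : ℕ) + (j : ℕ))) +
          ∑ j : Fin D, v j * ext y ((w : ℕ) + (j : ℕ)) := by
      rw [← Finset.sum_add_distrib]
      exact Finset.sum_congr rfl fun j _ => by rw [Pi.add_apply]; ring
    rw [h4, hu.2 w hw, hv.2 w hw, add_zero])
  have h4 : g ≤ (univ.filter fun i : Fin D => ∃ u ∈ N, IsLead u i).card := by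
    by_contra hcon
    have h5 := Nat.pow_le_pow_right (n := 2) (by norm_num) (not_le.1 hcon).le
    omega
  obtain ⟨Ls, hLs, hLc⟩ := Finset.exists_subset_card_eq h4
  obtain ⟨A', hA', hA'c, himg⟩ := greedy hg1 A Ls hLc hA
  have h5 : ∀ i : Ls, ∃ u ∈ N, IsLead u i := fun i => (Finset.mem_filter.1 (hLs i.2)).2
  choose u hu hlead using h5
  let e : Fin g ≃ Ls := (Ls.equivFinOfCardEq hLc).symm
  refine ⟨A', fun a => u (e a), hA'c, ⟨Ls, himg, fun i hi => ⟨e.symm ⟨i, hi⟩, ?_⟩⟩, ?_⟩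
  · have h6 := hlead ⟨i, hi⟩
    change IsLead (u (e (e.symm ⟨i, hi⟩))) i
    rw [e.apply_symm_apply]
    exact h6
  · refine Finset.mem_filter.2 ⟨Finset.mem_univ _, fun v hv a => ?_⟩
    have h6 := hu (e a)
    rw [hN, Finset.mem_filter] at h6
    exact h6.2 v (hA' hv)

end ToepAux

open ToepAux in
theorem exists_toep (n D g : ℕ) (hD : 1 ≤ D) (hDn : 4 * D ≤ n)
    (hg : (3 * n) ^ 4 < 2 ^ g * (4 * D) ^ 4) :
    ∃ y : ℕ → ZMod 2, GoodHash2 (fun (v : Fin n) (j : Fin D) => y (v + j)) D (8 * g * D) g := by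
  classical
  by_contra hcon
  push Not at hcon
  have hg1 : 1 ≤ g := by
    by_contra h0
    have h1 : g = 0 := by omega
    rw [h1, pow_zero, one_mul] at hg
    have h2 : 3 * n < 4 * D := lt_of_pow_lt_pow_left₀ 4 (Nat.zero_le _) hg
    omega
  have hbad : ∀ y : Fin (n + D) → ZMod 2, ∃ (A : Finset (Fin n)) (U : Fin g → Fin D → ZMod 2),
      A.card = 4 * D ∧ GoodPair A U ∧ y ∈ Sol A U := fun y => exists_pair hg1 y (hcon (ext y))
  let T : Finset (Finset (Fin n) × (Fin g → Fin D → ZMod 2)) :=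
    (powersetCard (4 * D) (univ : Finset (Fin n))) ×ˢ univ
  let T' := T.filter fun p => GoodPair p.1 p.2
  have h1 : (univ : Finset (Fin (n + D) → ZMod 2)) ⊆ T'.biUnion fun p => Sol p.1 p.2 := by
    intro y _
    obtain ⟨A, U, hA, hG, hy⟩ := hbad y
    refine Finset.mem_biUnion.2 ⟨(A, U), ?_, hy⟩
    refine Finset.mem_filter.2 ⟨?_, hG⟩
    exact Finset.mem_product.2 ⟨Finset.mem_powersetCard.2 ⟨Finset.subset_univ _, hA⟩,
      Finset.mem_univ _⟩
  have h2 : 2 ^ (n + D) ≤ ∑ p ∈ T', (Sol p.1 p.2).card := by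
    have h3 := (Finset.card_le_card h1).trans Finset.card_biUnion_le
    rw [Finset.card_univ, Fintype.card_fun, ZMod.card, Fintype.card_fin] at h3
    exact h3
  have h3 : 2 ^ (n + D) * 2 ^ (2 * g * D) ≤ T'.card * 2 ^ (n + D) := by
    calc 2 ^ (n + D) * 2 ^ (2 * g * D)
        ≤ (∑ p ∈ T', (Sol p.1 p.2).card) * 2 ^ (2 * g * D) := Nat.mul_le_mul_right _ h2
      _ = ∑ p ∈ T', (Sol p.1 p.2).card * 2 ^ (2 * g * D) := Finset.sum_mul _ _ _
      _ ≤ ∑ p ∈ T', 2 ^ (n + D) :=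
          Finset.sum_le_sum fun p hp => card_Sol p.1 p.2 (Finset.mem_filter.1 hp).2
      _ = T'.card * 2 ^ (n + D) := by rw [Finset.sum_const, smul_eq_mul]
  have h4 : 2 ^ (2 * g * D) ≤ T'.card := by
    have h5 : 0 < 2 ^ (n + D) := Nat.two_pow_pos _
    rw [mul_comm] at h3
    exact Nat.le_of_mul_le_mul_right h3 h5
  have h5 : T'.card ≤ n.choose (4 * D) * 2 ^ (g * D) := by
    refine (Finset.card_filter_le _ _).trans ?_
    rw [Finset.card_product, Finset.card_powersetCard, Finset.card_univ, Fintype.card_fin,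
      Finset.card_univ, Fintype.card_fun, Fintype.card_fun, ZMod.card, Fintype.card_fin,
      Fintype.card_fin, ← pow_mul, mul_comm D g]
  have h6 : 2 ^ (g * D) ≤ n.choose (4 * D) := by
    have h7 := h4.trans h5
    have h8 : 2 ^ (2 * g * D) = 2 ^ (g * D) * 2 ^ (g * D) := by
      rw [← pow_add]
      congr 1
      ring
    rw [h8] at h7
    exact Nat.le_of_mul_le_mul_right h7 (Nat.two_pow_pos _)
  have h7 := choose_mul_pow_le n (4 * D)
  have h8 : ((3 * n) ^ 4) ^ D < (2 ^ g * (4 * D) ^ 4) ^ D :=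
    Nat.pow_lt_pow_left hg (by omega)
  rw [← pow_mul, mul_pow (2 ^ g), ← pow_mul 2, ← pow_mul (4 * D)] at h8
  have h9 : n.choose (4 * D) * (4 * D) ^ (4 * D) < 2 ^ (g * D) * (4 * D) ^ (4 * D) :=
    lt_of_le_of_lt h7 h8
  have h10 := lt_of_mul_lt_mul_right h9 (Nat.zero_le _)
  omega

end Pool.Agent.LT
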