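import Pool.Agent.Lib.MP_b573ec_lc_LT.V2.Defs3

/-!
# Coordinates of the hash
-/

namespace Pool.Agent.LT

open Finset Polynomial

namespace TransportAux

theorem hash_comp {n : ℕ} {W W' : Type} [AddCommGroup W] [AddCommGroup W'] (Φ : W →+ W')
    (γ : Fin n → W) (y : Inp n) : hash (fun v => Φ (γ v)) y = Φ (hash γ y) := by
  unfold hash
  rw [map_sum]
  refine Finset.sum_congr rfl fun v _ => ?_
  split_ifs
  · rfl
  · rw [map_zero]

theorem goodHash_of_injective {n D a0 g : ℕ} {W W' : Type} [AddCommGroup W] [DecidableEq W]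
    [AddCommGroup W'] [DecidableEq W'] (Φ : W →+ W') (hΦ : Function.Injective Φ)
    (γ : Fin n → W) (h : GoodHash2 (fun v => Φ (γ v)) D a0 g) : GoodHash2 γ D a0 g := by
  intro A hA x z
  have h1 := h A hA x (Φ z)
  have h2 : (univ.filter fun y : Inp n => (∀ v, v ∉ A → y v = x v) ∧ hash γ y = z) =
      univ.filter fun y : Inp n =>
        (∀ v, v ∉ A → y v = x v) ∧ hash (fun v => Φ (γ v)) y = Φ z := by
    refine Finset.filter_congr fun y _ => ?_
    rw [hash_comp, hΦ.eq_iff]
  rw [h2]
  exact h1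

/-- the coordinates of `gamC` in the natural order -/
def phiC (M : ℕ) : (Fin M → ZMod 2) × (Fin (3 * M) → ZMod 2) →+ (Fin (4 * M) → ZMod 2) where
  toFun X i := if h : (i : ℕ) < M then X.1 ⟨M - 1 - i, by omega⟩
    else X.2 ⟨4 * M - 1 - i, by have := i.2; omega⟩
  map_zero' := by
    funext i
    by_cases h : (i : ℕ) < M <;> simp [h]
  map_add' X Y := by
    funext i
    by_cases h : (i : ℕ) < M <;> simp [h]

theorem phiC_injective (M : ℕ) : Function.Injective (phiC M) := by
  intro X Y hXY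
  refine Prod.ext ?_ ?_
  · funext j
    have hj := j.2
    have h1 := congrFun hXY ⟨M - 1 - j, by omega⟩
    have h2 : (M - 1 - (j : ℕ)) < M := by omega
    simp only [phiC, AddMonoidHom.coe_mk, ZeroHom.coe_mk, h2, dif_pos] at h1
    have h3 : (⟨M - 1 - (M - 1 - (j : ℕ)), by omega⟩ : Fin M) = j := Fin.ext (by
      change M - 1 - (M - 1 - (j : ℕ)) = j
      omega)
    rw [h3] at h1
    exact h1
  · funext j
    have hj := j.2
    have h1 := congrFun hXY ⟨4 * M - 1 - j, by omega⟩
    have h2 : ¬ (4 * M - 1 - (j : ℕ)) < M := by omega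
    simp only [phiC, AddMonoidHom.coe_mk, ZeroHom.coe_mk, h2, dif_neg, not_false_eq_true] at h1
    have h3 : (⟨4 * M - 1 - (4 * M - 1 - (j : ℕ)), by omega⟩ : Fin (3 * M)) = j := Fin.ext (by
      change 4 * M - 1 - (4 * M - 1 - (j : ℕ)) = j
      omega)
    rw [h3] at h1
    exact h1

theorem phiC_gamC (M : ℕ) (y : ℕ → ZMod 2) (v : ℕ) :
    phiC M (gamC M y v) = fun i : Fin (4 * M) => y (v + i) := by
  funext i
  have hi := i.2
  by_cases h : (i : ℕ) < M
  · simp only [phiC, gamC, AddMonoidHom.coe_mk, ZeroHom.coe_mk, h, dif_pos]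
    congr 1
    omega
  · simp only [phiC, gamC, AddMonoidHom.coe_mk, ZeroHom.coe_mk, h, dif_neg, not_false_eq_true]
    congr 1
    omega

/-- the coordinates of `gamF` in the natural order -/
def phiF (D : ℕ) : (Fin D → ZMod 2) →+ (Fin D → ZMod 2) where
  toFun X i := X (Fin.rev i)
  map_zero' := rfl
  map_add' X Y := rfl

theorem phiF_injective (D : ℕ) : Function.Injective (phiF D) := by
  intro X Y hXY
  funext j
  have h1 := congrFun hXY (Fin.rev j)
  change X (Fin.rev (Fin.rev j)) = Y (Fin.rev (Fin.rev j)) at h1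
  rwa [Fin.rev_rev] at h1

theorem phiF_gamF (D : ℕ) (y : ℕ → ZMod 2) (v : ℕ) :
    phiF D (gamF D y v) = fun i : Fin D => y (v + i) := by
  funext i
  have hi := i.2
  change y (v + (D - 1 - (Fin.rev i : ℕ))) = y (v + i)
  rw [Fin.val_rev]
  congr 1
  omega

end TransportAux

open TransportAux in
theorem goodHash_gamC {M n g a0 : ℕ} (y : ℕ → ZMod 2)
    (h : GoodHash2 (fun (v : Fin n) (j : Fin (4 * M)) => y (v + j)) (4 * M) a0 g) :
    GoodHash2 (fun v : Fin n => gamC M y v) (4 * M) a0 g := by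
  refine goodHash_of_injective (phiC M) (phiC_injective M) _ ?_
  have h1 : (fun v : Fin n => phiC M (gamC M y v)) =
      fun (v : Fin n) (j : Fin (4 * M)) => y (v + j) := funext fun v => phiC_gamC M y v
  rw [h1]
  exact h

open TransportAux in
theorem goodHash_gamF {D n g a0 : ℕ} (y : ℕ → ZMod 2)
    (h : GoodHash2 (fun (v : Fin n) (j : Fin D) => y (v + j)) D a0 g) :
    GoodHash2 (fun v : Fin n => gamF D y v) D a0 g := by
  refine goodHash_of_injective (phiF D) (phiF_injective D) _ ?_
  have h1 : (fun v : Fin n => phiF D (gamF D y v)) =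
      fun (v : Fin n) (j : Fin D) => y (v + j) := funext fun v => phiF_gamF D y v
  rw [h1]
  exact h

end Pool.Agent.LT
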