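import Pool.Agent.Lib.MP_b573ec_lc_LT.V2.UpperCommon

set_option autoImplicit false

namespace Pool.Agent.LT

open Finset Polynomial

namespace Upper2Aux

open UpperCommon

variable {K : Type} [Field K] [Algebra (ZMod 2) K]

/-- the transition function -/
def stp (N D : ℕ) (j : ℕ) (s : K × K × K) (b : ZMod 2) : K × K × K :=
  if 3 * N ≤ j then s
  else if j % 3 = 0 then (s.1, s.1 * s.2.1 + algebraMap (ZMod 2) K b, s.2.2)
  else if j % 3 = 1 then (s.1, s.2.1 + algebraMap (ZMod 2) K b * s.1 ^ D, s.2.2)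
  else (s.1, s.2.1, s.2.2 + algebraMap (ZMod 2) K b * s.2.1)

theorem run_eq (N D : ℕ) (θ : K) (x : ℕ → ZMod 2) (i : ℕ) (hi : i ≤ N) :
    run (θ, 0, 0) (stp N D) x (3 * i) =
      (θ, aeval θ (window D (fun i => x (3 * i)) (fun i => x (3 * i + 1)) i),
       aeval θ (wsum i (fun i => x (3 * i + 2))
         (window D (fun i => x (3 * i)) (fun i => x (3 * i + 1))))) := by
  induction i with
  | zero => simp [run, window, wsum]
  | succ i ih =>
    have hi' : i < N := hi
    have e1 : 3 * (i + 1) = 3 * i + 1 + 1 + 1 := by ring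
    have m0 : 3 * i % 3 = 0 := by omega
    have m1 : (3 * i + 1) % 3 = 1 := by omega
    have n0 : ¬ 3 * N ≤ 3 * i := by omega
    have n1 : ¬ 3 * N ≤ 3 * i + 1 := by omega
    have n2 : ¬ 3 * N ≤ 3 * i + 1 + 1 := by omega
    rw [e1]
    show stp N D (3 * i + 1 + 1) (stp N D (3 * i + 1)
      (stp N D (3 * i) (run (θ, 0, 0) (stp N D) x (3 * i)) (x (3 * i)))
        (x (3 * i + 1))) (x (3 * i + 1 + 1)) = _
    rw [ih hi'.le, aeval_window_succ, aeval_wsum_succ, aeval_window_succ]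
    rw [stp, if_neg n2, if_neg (by omega), if_neg (by omega)]
    rw [stp, if_neg n1, if_neg (by omega), if_pos m1]
    rw [stp, if_neg n0, if_pos m0]

/-- a polynomial of degree `ℓ` with a root in the field with `2 ^ ℓ` elements -/
theorem exists_root [Fintype K] {ℓ : ℕ} (hK : Fintype.card K = 2 ^ ℓ) (π : (ZMod 2)[X])
    (hπ : Irreducible π) (hd : π.natDegree = ℓ) : ∃ θ : K, aeval θ π = 0 := by
  have : Fact (Irreducible π) := ⟨hπ⟩
  have h0 : π ≠ 0 := hπ.ne_zero
  let pb := AdjoinRoot.powerBasis h0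
  have : Module.Finite (ZMod 2) (AdjoinRoot π) := pb.finite
  have : Finite (AdjoinRoot π) := Module.finite_of_finite (ZMod 2)
  let _ : Fintype (AdjoinRoot π) := Fintype.ofFinite _
  have hcard : Fintype.card (AdjoinRoot π) = 2 ^ ℓ := by
    rw [Module.card_eq_pow_finrank (K := ZMod 2), ZMod.card, pb.finrank,
      AdjoinRoot.powerBasis_dim, hd]
  let φ : AdjoinRoot π ≃ₐ[ZMod 2] K := FiniteField.algEquivOfCardEq 2 (hcard.trans hK.symm)
  refine ⟨φ (AdjoinRoot.root π), ?_⟩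
  rw [aeval_algHom_apply, AdjoinRoot.aeval_eq, AdjoinRoot.mk_self, map_zero]

theorem natDegree_minpoly [Fintype K] {π : (ZMod 2)[X]} (hπ : Irreducible π) {θ : K}
    (h : aeval θ π = 0) : (minpoly (ZMod 2) θ).natDegree = π.natDegree := by
  have hint : IsIntegral (ZMod 2) θ := Algebra.IsIntegral.isIntegral θ
  have h1 : minpoly (ZMod 2) θ ∣ π := minpoly.dvd _ _ h
  have h2 : Associated (minpoly (ZMod 2) θ) π :=
    (minpoly.irreducible hint).associated_of_dvd hπ h1
  exact natDegree_eq_of_degree_eq (degree_eq_degree_of_associated h2)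

end Upper2Aux

open Upper2Aux UpperCommon

open Classical in
theorem factor_upper (n D ℓ : ℕ) (hℓ : 1 ≤ ℓ) :
    NondetOnePass (factorFn n D ℓ) (2 ^ (3 * ℓ)) := by
  have hl0 : ℓ ≠ 0 := by omega
  let K := GaloisField 2 ℓ
  have : Fintype K := Fintype.ofFinite K
  have hK : Fintype.card K = 2 ^ ℓ := by
    rw [← Nat.card_eq_fintype_card]
    exact GaloisField.card 2 ℓ hl0
  have hs : Fintype.card (K × K × K) = 2 ^ (3 * ℓ) := by
    rw [Fintype.card_prod, Fintype.card_prod, hK, ← pow_add, ← pow_add]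
    congr 1
    omega
  let e : K × K × K ≃ Fin (2 ^ (3 * ℓ)) := Fintype.equivFinOfCardEq hs
  refine ⟨nonProg e (fun s => (minpoly (ZMod 2) s.1).natDegree = ℓ ∧ s.2 = (0, 0))
    (stp (n / 3) D) (fun s => s.2.2 = 0), fun i s => rfl, fun x => ?_⟩
  rw [accepts_nonProg]
  have hrun : ∀ θ : K, (run (θ, 0, 0) (stp (n / 3) D) (bit x) n).2.2 =
      aeval θ (wsum (n / 3) (fun i => bit x (3 * i + 2))
         (window D (fun i => bit x (3 * i)) (fun i => bit x (3 * i + 1)))) := by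
    intro θ
    rw [run_stable _ _ _ (3 * (n / 3)) ?_ n (by omega), run_eq _ _ _ _ _ le_rfl]
    intro j hj s b
    rw [stp, if_pos hj]
  unfold factorFn
  rw [decide_eq_true_iff]
  constructor
  · rintro ⟨π, hπ, hd, hdvd⟩
    obtain ⟨θ, hθ⟩ := exists_root hK π hπ hd
    refine ⟨(θ, 0, 0), ⟨?_, rfl⟩, ?_⟩
    · rw [natDegree_minpoly hπ hθ, hd]
    · show (run (θ, 0, 0) (stp (n / 3) D) (bit x) n).2.2 = 0
      rw [hrun]
      obtain ⟨R, hR⟩ := hdvd
      rw [hR, map_mul, hθ, zero_mul]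
  · rintro ⟨⟨θ, s⟩, ⟨hd, hs0⟩, hA⟩
    have hs1 : s = (0, 0) := hs0
    subst hs1
    have hA' : (run (θ, 0, 0) (stp (n / 3) D) (bit x) n).2.2 = 0 := hA
    rw [hrun] at hA'
    have hint : IsIntegral (ZMod 2) θ := Algebra.IsIntegral.isIntegral θ
    exact ⟨minpoly (ZMod 2) θ, minpoly.irreducible hint, hd, minpoly.dvd _ _ hA'⟩

end Pool.Agent.LT
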