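import Pool.Agent.Lib.MP_b573ec_lc_LT.Final
import Pool.Agent.Lib.MP_b573ec_lc_LT.V2.Part1Lower2
import Pool.Agent.Lib.MP_b573ec_lc_LT.V2.Part2Lower2
import Pool.Agent.Lib.MP_b573ec_lc_LT.V2.Toep
import Pool.Agent.Lib.MP_b573ec_lc_LT.V2.Transport
import Pool.Agent.Lib.MP_b573ec_lc_LT.V2.IrrPoints
import Pool.Agent.Lib.MP_b573ec_lc_LT.V2.IrrSep
import Pool.Agent.Lib.MP_b573ec_lc_LT.V2.Shifts2
import Pool.Agent.Lib.MP_b573ec_lc_LT.V2.Restrict
import Pool.Agent.Lib.MP_b573ec_lc_LT.V2.Upper1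
import Pool.Agent.Lib.MP_b573ec_lc_LT.V2.Upper2
import Pool.Agent.Lib.MP_b573ec_lc_LT.V2.CubeRestrict
import Pool.Agent.Lib.MP_b573ec_lc_LT.V2.FactorRestrict
import Pool.Agent.Lib.MP_b573ec_lc_LT.V2.NumericQ1
import Pool.Agent.Lib.MP_b573ec_lc_LT.V2.NumericQ2

/-!
# The two separations for the explicit functions
-/

namespace Pool.Agent.LT

open Finset Polynomial FinalAux

theorem resultQ1' : ∃ C : ℕ, ∀ n k S h : ℕ, 1 ≤ k → 1 ≤ S → 1 ≤ h →
    (2 * k * h) ^ (C * k ^ 2) ≤ 2 ^ h → S * 4 ^ h ≤ n →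
    (∃ w ≤ n ^ 5, OneSidedOnePass (cubeFn n (n / 2 ^ h)) w) ∧
      ∀ T w, T ≤ k * n → w ≤ 2 ^ S →
        ¬ OneSided (fun x => !cubeFn n (n / 2 ^ h) x) T w ∧
        ¬ Det (cubeFn n (n / 2 ^ h)) T w := by
  classical
  obtain ⟨C, hC⟩ := numericQ1
  refine ⟨C, fun n k S h hk hS hh hkh hn => ?_⟩
  obtain ⟨k0, L, r, e, lam, hk0, hM, hMn, hlt, hkn, hL, hrL, hRR, hLL, he, hlam, hbig, hpow, h4,
    hw⟩ := hC n k S h hk hS hh hkh hn
  set M := n / 2 ^ h with hMdef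
  set n' := n / 4 - 8 * M with hn'
  refine ⟨⟨_, hw, cube_upper n M hM hMn⟩, fun T w hT hwS => ?_⟩
  obtain ⟨y, hy⟩ := exists_toep n' (4 * M) (4 * h) (by omega) h4 hpow
  have hγ := goodHash_gamC y hy
  obtain ⟨w0, hw0⟩ := exists_shift1 (K := ZMod 2) (ℓ := 1) (by simp [ZMod.card])
    (fun v : Fin n' => gamC M y v)
  obtain ⟨σ, c, hres⟩ := cube_restrict n M hM hlt y w0
  have key : ¬ OneSided (fun x : Inp n' =>
      decide (Cub (hash (fun v : Fin n' => gamC M y v) x + w0))) T w := by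
    refine part1_lower2 (fun v : Fin n' => gamC M y v) w0 (4 * h) (8 * (4 * h) * (4 * M)) hγ
      (by simpa using hw0) k0 (2 ^ 40 * h ^ 2) L r e (3 * M + lam) (16 * h * (4 * M)) hk0
      (Nat.mul_pos (by norm_num) (by positivity)) hL ?_ ?_ ?_ ?_ hRR hLL he ?_ ?_
    · calc 16 ≤ 16 * 1 * (4 * 1) := by norm_num
        _ ≤ 16 * h * (4 * M) := by gcongr
    · exact le_of_eq (by ring)
    · exact le_trans (Nat.add_le_add_right hT _) hkn
    · exact le_trans (le_trans (Nat.add_le_add_right hT _) hkn) hrL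
    · calc 32 * typ2 k0 (2 ^ 40 * h ^ 2) * w ^ r * nsub n' e * 2 ^ (3 * M)
          ≤ 64 * typ2 k0 (2 ^ 40 * h ^ 2) * (2 ^ S) ^ r * nsub n' e * 2 ^ (3 * M) := by
            gcongr
            norm_num
        _ = 64 * typ2 k0 (2 ^ 40 * h ^ 2) * 2 ^ (S * r) * nsub n' e * 2 ^ (3 * M) := by
            rw [← pow_mul]
        _ ≤ 2 ^ lam * 2 ^ (3 * M) := Nat.mul_le_mul_right _ hlam
        _ = 2 ^ (3 * M + lam) := by rw [← pow_add, add_comm]
    · omega
  have hone : ¬ OneSided (fun x => !cubeFn n M x) T w := by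
    intro hO
    have h1 := oneSided_subst (n' := n') (by omega) σ c _ hO
    have h2 : (fun d : Inp n' => (fun x => !cubeFn n M x) (subst σ c d)) = fun x : Inp n' =>
        decide (Cub (hash (fun v : Fin n' => gamC M y v) x + w0)) := by
      funext d
      simp only [hres d]
      rw [Bool.eq_iff_iff, Bool.not_eq_true', decide_eq_false_iff_not, not_not,
        decide_eq_true_iff]
    rw [h2] at h1
    exact key h1
  exact ⟨hone, fun hdet => hone (det_compl hdet)⟩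

theorem resultQ2' : ∃ C : ℕ, ∀ n k S h : ℕ, 1 ≤ k → 1 ≤ S → 1 ≤ h →
    (2 * k * h) ^ (C * k ^ 2 * (Nat.log 2 (2 * k * h) + 1) ^ 2) ≤ 2 ^ h → S * 4 ^ h ≤ n →
    (∃ w ≤ n ^ 10, NondetOnePass (factorFn n (n / 2 ^ h) (3 * (Nat.log 2 n + 1))) w) ∧
      ∀ T w, T ≤ k * n → w ≤ 2 ^ S →
        ¬ TwoSided (factorFn n (n / 2 ^ h) (3 * (Nat.log 2 n + 1))) T w ∧
        ¬ OneSided (factorFn n (n / 2 ^ h) (3 * (Nat.log 2 n + 1))) T w := by
  classical
  obtain ⟨C, hC⟩ := numericQ2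
  refine ⟨C, fun n k S h hk hS hh hkh hn => ?_⟩
  obtain ⟨k0, L, r, e, lam, s, p, hk0, hs1, hD, hlt, hkn, hL, hrL, hRR, hLL, he, hlam, hs, hpow,
    h4, hp, hpD, hbad, hw⟩ := hC n k S h hk hS hh hkh hn
  set D := n / 2 ^ h with hDdef
  set n' := n / 3 - 2 * D with hn'
  set ℓ := 3 * (Nat.log 2 n + 1) with hℓ
  haveI : Fact (Nat.Prime 2) := ⟨Nat.prime_two⟩
  have hn1 : 1 ≤ n := by omega
  have hn2 : 1 ≤ Nat.log 2 n := by
    apply Nat.log_pos (by norm_num)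
    omega
  refine ⟨⟨_, hw, factor_upper n D ℓ (by omega)⟩, fun T w hT hwS => ?_⟩
  obtain ⟨y, hy⟩ := exists_toep n' D (4 * h) hD h4 hpow
  have hγ := goodHash_gamF y hy
  let K := GaloisField 2 ℓ
  haveI : Fintype K := Fintype.ofFinite K
  have hK : Fintype.card K = 2 ^ ℓ := by
    rw [← Nat.card_eq_fintype_card]
    exact GaloisField.card 2 ℓ (by omega)
  obtain ⟨Θ, hΘ, hΘ4, hΘl⟩ := exists_points ℓ (by omega)
  have hsep := points_sep (p := p) (D := D) hK hΘ hp hpD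
  have hΘ0 : Θ.Nonempty := by
    rw [← card_pos]
    by_contra hcon
    have h0 : Θ.card = 0 := by omega
    rw [h0] at hΘl
    have : 0 < 2 ^ ℓ := by positivity
    omega
  obtain ⟨w0, hw0⟩ := exists_shift2' (n := n') (fun t : K => evalHom D t) Θ
    (fun t ht y => by
      obtain ⟨z, hz, -⟩ := hsep t ht ∅ (empty_subset _) (notMem_empty _)
        (by rw [card_empty]; omega) y
      exact ⟨z, hz⟩)
    (fun v : Fin n' => gamF D y v)
  obtain ⟨σ, c, hres⟩ := factor_restrict n D ℓ hD hlt y w0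
  have hbad' : (512 * p ^ 2) ^ p * 2 ^ (lam + 4 * h) ≤ Θ.card ^ p := by
    have h1 : (512 * p ^ 2) ^ p * 2 ^ (lam + 4 * h) * (2 * ℓ) ^ p ≤ Θ.card ^ p * (2 * ℓ) ^ p := by
      calc (512 * p ^ 2) ^ p * 2 ^ (lam + 4 * h) * (2 * ℓ) ^ p ≤ 2 ^ (ℓ * p) := hbad
        _ = (2 ^ ℓ) ^ p := by rw [pow_mul]
        _ ≤ (2 * ℓ * Θ.card) ^ p := Nat.pow_le_pow_left hΘl p
        _ = Θ.card ^ p * (2 * ℓ) ^ p := by rw [mul_pow, mul_comm]
    exact Nat.le_of_mul_le_mul_right h1 (by positivity)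
  have key : ¬ SmallErr (fun x : Inp n' =>
      decide (∃ t ∈ Θ, evalHom D t (hash (fun v : Fin n' => gamF D y v) x + w0) = 0))
      (12 * s * (k * n)) (w * (12 * s + 1)) s := by
    refine part2_lower2 (fun t : K => evalHom D t) Θ (by rw [hK]; exact hΘ4) hΘ0 D
      (by rw [Fintype.card_fun, Fintype.card_fin, ZMod.card]) (fun v : Fin n' => gamF D y v) w0
      (4 * h) (8 * (4 * h) * D) hγ hw0 k0 (2 ^ 40 * h ^ 2) L r e lam s p (16 * h * D) hk0
      (Nat.mul_pos (by norm_num) (by positivity)) hL ?_ ?_ hkn (le_trans hkn hrL) hRR hLL he ?_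
      hs hp hsep hbad'
    · calc 16 ≤ 16 * 1 * 1 := by norm_num
        _ ≤ 16 * h * D := by gcongr
    · exact le_of_eq (by ring)
    · refine le_trans ?_ hlam
      gcongr
  have hfun : (fun d : Inp n' => factorFn n D ℓ (subst σ c d)) = fun x : Inp n' =>
      decide (∃ t ∈ Θ, evalHom D t (hash (fun v : Fin n' => gamF D y v) x + w0) = 0) := by
    funext d
    rw [hres d]
    have h1 := points_iff hΘ (cpoly (hash (fun v : Fin n' => gamF D y v) d + w0))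
    simp only [← evalHom_eq] at h1
    exact decide_eq_decide.mpr h1
  have hkn1 : 1 ≤ k * n := Nat.mul_pos hk hn1
  constructor
  · intro hTS
    have h1 := twoSided_subst (n' := n') (by omega) σ c _ (twoSided_longer hn1 hT hTS)
    rw [hfun] at h1
    exact key (majority hkn1 hs1 _ h1)
  · intro hOS
    have h1 := oneSided_subst (n' := n') (by omega) σ c _ (oneSided_longer hn1 hT hOS)
    rw [hfun] at h1
    exact key (one_amp hkn1 hs1 _ h1)

end Pool.Agent.LT
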