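import Pool.Agent.Lib.MP_b573ec_lc_LT.Language

set_option autoImplicit false

/-!
# Selection of one of several one-sided-error one-pass programs by a counter
-/

namespace Pool.Agent.LT

open Finset

namespace Select1Aux

/-- the number `k`, capped at `m` -/
def cap (m k : ℕ) : Fin (m + 1) := ⟨min k m, by omega⟩

theorem cap_val {m k : ℕ} (h : k ≤ m) : ((cap m k : Fin (m + 1)) : ℕ) = k := by
  show min k m = k
  omega

theorem cap_succ (m k : ℕ) : cap m (((cap m k : Fin (m + 1)) : ℕ) + 1) = cap m (k + 1) := by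
  apply Fin.ext
  show min (min k m + 1) m = min (k + 1) m
  omega

theorem cap_self {m : ℕ} (h : Fin (m + 1)) : cap m (h : ℕ) = h := by
  apply Fin.ext
  show min (h : ℕ) m = h
  have := h.2
  omega

theorem ones_zero {n : ℕ} (x : Inp n) : ones 0 x = 0 := by
  unfold ones
  rw [Finset.card_eq_zero]
  ext i
  simp

theorem ones_succ {n : ℕ} (x : Inp n) (i : ℕ) (hi : i < n) :
    ones (i + 1) x = ones i x + if x ⟨i, hi⟩ = true then 1 else 0 := by
  unfold ones
  by_cases h : x ⟨i, hi⟩ = true
  · rw [if_pos h]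
    have : (univ.filter fun j : Fin n => (j : ℕ) < i + 1 ∧ x j = true) =
        insert ⟨i, hi⟩ (univ.filter fun j : Fin n => (j : ℕ) < i ∧ x j = true) := by
      ext j
      simp only [mem_filter, mem_univ, true_and, mem_insert]
      constructor
      · rintro ⟨h1, h2⟩
        rcases Nat.lt_succ_iff_lt_or_eq.1 h1 with h3 | h3
        · exact Or.inr ⟨h3, h2⟩
        · left
          exact Fin.ext h3
      · rintro (h1 | ⟨h1, h2⟩)
        · subst h1
          exact ⟨Nat.lt_succ_self i, h⟩
        · exact ⟨Nat.lt_succ_of_lt h1, h2⟩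
    rw [this, card_insert_of_notMem]
    simp
  · rw [if_neg h]
    show _ = (univ.filter fun j : Fin n => (j : ℕ) < i ∧ x j = true).card
    refine congrArg Finset.card ?_
    ext j
    simp only [mem_filter, mem_univ, true_and]
    constructor
    · rintro ⟨h1, h2⟩
      rcases Nat.lt_succ_iff_lt_or_eq.1 h1 with h3 | h3
      · exact ⟨h3, h2⟩
      · exfalso
        have : j = ⟨i, hi⟩ := Fin.ext h3
        rw [this] at h2
        exact h h2
    · rintro ⟨h1, h2⟩
      exact ⟨Nat.lt_succ_of_lt h1, h2⟩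

theorem ones_le {n : ℕ} (x : Inp n) (i : ℕ) (hi : i ≤ n) : ones i x ≤ i := by
  induction i with
  | zero => rw [ones_zero]
  | succ i ih =>
    have h1 := ih (by omega)
    rw [ones_succ x i (by omega)]
    split_ifs <;> omega

variable {n m w : ℕ}

/-- the combined program: a counter of the ones among the first `m` bits selects the program which
works on the rest of the input -/
def sel (hm : m < n) (hw : 1 ≤ w) (Q : Fin (m + 1) → Prog (n - m) (n - m) w) :
    Prog n n ((m + 1) * w) where
  start := finProdFinEquiv (cap m 0, ⟨0, hw⟩)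
  var i _ := i
  next i S b :=
    if (i : ℕ) < m then
      finProdFinEquiv (if b = true then cap m (((finProdFinEquiv.symm S).1 : ℕ) + 1)
        else (finProdFinEquiv.symm S).1, (finProdFinEquiv.symm S).2)
    else
      finProdFinEquiv ((finProdFinEquiv.symm S).1,
        (Q (finProdFinEquiv.symm S).1).next ⟨(i : ℕ) - m, by have := i.2; omega⟩
          (if (i : ℕ) = m then (Q (finProdFinEquiv.symm S).1).start
            else (finProdFinEquiv.symm S).2) b)
  acc S := (Q (finProdFinEquiv.symm S).1).acc (finProdFinEquiv.symm S).2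

theorem state_succ' {n T w : ℕ} (P : Prog n T w) (x : Inp n) (i : ℕ) (h : i < T) :
    P.state x (i + 1) = P.next ⟨i, h⟩ (P.state x i) (x (P.var ⟨i, h⟩ (P.state x i))) := by
  show (if h : i < T then
      P.next ⟨i, h⟩ (P.state x i) (x (P.var ⟨i, h⟩ (P.state x i))) else P.state x i) = _
  rw [dif_pos h]

theorem sel_first (hm : m < n) (hw : 1 ≤ w) (Q : Fin (m + 1) → Prog (n - m) (n - m) w)
    (x : Inp n) (i : ℕ) (hi : i ≤ m) :
    (sel hm hw Q).state x i = finProdFinEquiv (cap m (ones i x), ⟨0, hw⟩) := by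
  induction i with
  | zero =>
    rw [ones_zero]
    rfl
  | succ i ih =>
    have h1 := ih (by omega)
    have h2 : i < n := by omega
    have h3 : i < m := by omega
    rw [state_succ' _ x i h2, h1]
    simp only [sel, Equiv.symm_apply_apply]
    rw [if_pos h3, ones_succ x i h2]
    by_cases hx : x ⟨i, h2⟩ = true
    · rw [if_pos hx, if_pos hx, cap_succ]
    · rw [if_neg hx, if_neg hx]
      rfl

theorem sel_second (hm : m < n) (hw : 1 ≤ w) (Q : Fin (m + 1) → Prog (n - m) (n - m) w)
    (hQ : ∀ h, (Q h).OnePass) (x : Inp n) (j : ℕ) (hj : j < n - m) :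
    (sel hm hw Q).state x (m + (j + 1)) = finProdFinEquiv (cap m (ones m x),
      (Q (cap m (ones m x))).state (dropFirst m x) (j + 1)) := by
  induction j with
  | zero =>
    have h1 := sel_first hm hw Q x m le_rfl
    have h2 : m < n := hm
    show (sel hm hw Q).state x (m + 1) = _
    rw [state_succ' _ x m h2, h1, state_succ' _ _ 0 hj]
    have h3 := hQ (cap m (ones m x)) ⟨0, hj⟩ ((Q (cap m (ones m x))).state (dropFirst m x) 0)
    rw [h3]
    simp only [sel, Equiv.symm_apply_apply]
    rw [if_neg (lt_irrefl m), if_true]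
    have h4 : (⟨m - m, by omega⟩ : Fin (n - m)) = ⟨0, hj⟩ := Fin.ext (by simp)
    rw [h4]
    rfl
  | succ j ih =>
    have h1 := ih (by omega)
    have h2 : m + (j + 1) < n := by omega
    show (sel hm hw Q).state x (m + (j + 1) + 1) = _
    rw [state_succ' _ x (m + (j + 1)) h2, h1, state_succ' _ _ (j + 1) hj]
    have h3 := hQ (cap m (ones m x)) ⟨j + 1, hj⟩
      ((Q (cap m (ones m x))).state (dropFirst m x) (j + 1))
    rw [h3]
    simp only [sel, Equiv.symm_apply_apply]
    rw [if_neg (by omega : ¬ m + (j + 1) < m), if_neg (by omega : ¬ m + (j + 1) = m)]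
    have h4 : (⟨m + (j + 1) - m, by omega⟩ : Fin (n - m)) = ⟨j + 1, hj⟩ := Fin.ext (by simp)
    rw [h4]
    rfl

theorem sel_eval (hm : m < n) (hw : 1 ≤ w) (Q : Fin (m + 1) → Prog (n - m) (n - m) w)
    (hQ : ∀ h, (Q h).OnePass) (x : Inp n) :
    (sel hm hw Q).eval x = (Q (cap m (ones m x))).eval (dropFirst m x) := by
  obtain ⟨j, hj⟩ : ∃ j, n - m = j + 1 := ⟨n - m - 1, by omega⟩
  have h1 := sel_second hm hw Q hQ x j (by omega)
  have h2 : m + (j + 1) = n := by omega
  rw [h2] at h1
  have h3 : (Q (cap m (ones m x))).eval (dropFirst m x) =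
      (Q (cap m (ones m x))).acc ((Q (cap m (ones m x))).state (dropFirst m x) (j + 1)) :=
    congrArg (fun k => (Q (cap m (ones m x))).acc
      ((Q (cap m (ones m x))).state (dropFirst m x) k)) hj
  rw [h3]
  unfold Prog.eval
  rw [h1]
  simp only [sel, Equiv.symm_apply_apply]

/-- counting in a product: a condition on one coordinate which holds for half of the values -/
theorem half_pi {ι : Type} [Fintype ι] [DecidableEq ι] {α : ι → Type} [∀ i, Fintype (α i)]
    (i₀ : ι) (A : α i₀ → Prop) [DecidablePred A]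
    (hA : Fintype.card (α i₀) ≤ 2 * (univ.filter A).card) :
    Fintype.card (∀ i, α i) ≤ 2 * (univ.filter fun f : ∀ i, α i => A (f i₀)).card := by
  classical
  have h1 : Fintype.card (∀ i, α i) =
      Fintype.card (α i₀) * Fintype.card (∀ j : {j // j ≠ i₀}, α j) := by
    rw [← Fintype.card_prod]
    exact Fintype.card_congr (Equiv.piSplitAt i₀ α)
  have h2 : ((univ.filter A) ×ˢ (univ : Finset (∀ j : {j // j ≠ i₀}, α j))).card ≤
      (univ.filter fun f : ∀ i, α i => A (f i₀)).card := by
    refine Finset.card_le_card_of_injOn (Equiv.piSplitAt i₀ α).symm ?_ ?_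
    · intro z hz
      rw [Finset.mem_coe, Finset.mem_product, Finset.mem_filter] at hz
      rw [Finset.mem_coe, Finset.mem_filter]
      refine ⟨Finset.mem_univ _, ?_⟩
      have h3 : ((Equiv.piSplitAt i₀ α).symm z) i₀ = z.1 := by
        simp [Equiv.piSplitAt]
      rw [h3]
      exact hz.1.2
    · exact fun a _ b _ hab => (Equiv.piSplitAt i₀ α).symm.injective hab
  rw [Finset.card_product, Finset.card_univ] at h2
  calc Fintype.card (∀ i, α i) =
      Fintype.card (α i₀) * Fintype.card (∀ j : {j // j ≠ i₀}, α j) := h1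
    _ ≤ 2 * (univ.filter A).card * Fintype.card (∀ j : {j // j ≠ i₀}, α j) :=
      Nat.mul_le_mul_right _ hA
    _ = 2 * ((univ.filter A).card * Fintype.card (∀ j : {j // j ≠ i₀}, α j)) := by ring
    _ ≤ _ := Nat.mul_le_mul_left _ h2

end Select1Aux

open Select1Aux

theorem oneSided_select {n m w : ℕ} (hm : m < n) (hw : 1 ≤ w) (g : ℕ → Inp (n - m) → Bool)
    (hg : ∀ h ≤ m, OneSidedOnePass (g h) w) :
    OneSidedOnePass (fun x : Inp n => g (ones m x) (dropFirst m x)) ((m + 1) * w) := by
  classical
  have hg' : ∀ h : Fin (m + 1), OneSidedOnePass (g (h : ℕ)) w := fun h =>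
    hg h (Nat.lt_succ_iff.mp h.2)
  choose ρ P hP1 hP2 hP3 using hg'
  let E : (Fin (∑ h, ρ h) → Bool) ≃ (∀ h : Fin (m + 1), Fin (ρ h) → Bool) :=
    (Equiv.arrowCongr finSigmaFinEquiv.symm (Equiv.refl Bool)).trans
      (Equiv.piCurry (fun (h : Fin (m + 1)) (_ : Fin (ρ h)) => Bool))
  have hev : ∀ c x, (sel hm hw fun h => P h (E c h)).eval x =
      (P (cap m (ones m x)) (E c (cap m (ones m x)))).eval (dropFirst m x) := fun c x =>
    sel_eval hm hw (fun h => P h (E c h)) (fun h => hP1 h _) x
  have hones : ∀ x : Inp n, ((cap m (ones m x) : Fin (m + 1)) : ℕ) = ones m x := fun x =>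
    cap_val (ones_le x m hm.le)
  refine ⟨∑ h, ρ h, fun c => sel hm hw fun h => P h (E c h), ?_, ?_, ?_⟩
  · intro c i s
    rfl
  · intro x hx
    have h1 := hP2 (cap m (ones m x)) (dropFirst m x) (by rw [hones]; exact hx)
    have h2 := half_pi (α := fun h : Fin (m + 1) => (Fin (ρ h) → Bool)) (cap m (ones m x))
      (fun c => (P (cap m (ones m x)) c).eval (dropFirst m x) = true) (by
        rw [Fintype.card_fun, Fintype.card_bool, Fintype.card_fin]
        exact h1)
    have h3 : Fintype.card (∀ h : Fin (m + 1), Fin (ρ h) → Bool) = 2 ^ (∑ h, ρ h) := by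
      rw [← Fintype.card_congr E, Fintype.card_fun, Fintype.card_bool, Fintype.card_fin]
    rw [h3] at h2
    refine h2.trans (Nat.mul_le_mul_left _ ?_)
    refine Finset.card_le_card_of_injOn E.symm ?_ (fun a _ b _ hab => E.symm.injective hab)
    intro f hf
    rw [Finset.mem_coe, Finset.mem_filter] at hf
    rw [Finset.mem_coe, Finset.mem_filter]
    refine ⟨Finset.mem_univ _, ?_⟩
    rw [hev, Equiv.apply_symm_apply]
    exact hf.2
  · intro x hx c
    rw [hev]
    exact hP3 (cap m (ones m x)) (dropFirst m x) (by rw [hones]; exact hx) _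

end Pool.Agent.LT
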