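import Mathlib
import Pool.Agent.Lib.MP_b573ec_lc_LT.Language

set_option autoImplicit false

/-!
# Selection of one of several nondeterministic one-pass programs by a counter
-/

namespace Pool.Agent.LT

namespace Select2Aux

theorem ones_zero {n : ℕ} (x : Inp n) : ones 0 x = 0 := by
  simp [ones]

theorem ones_succ {n : ℕ} (x : Inp n) {i : ℕ} (hi : i < n) :
    ones (i + 1) x = ones i x + (if x ⟨i, hi⟩ then 1 else 0) := by
  unfold ones
  by_cases hx : x ⟨i, hi⟩ = true
  · rw [if_pos hx]
    have h1 : (Finset.univ.filter fun j : Fin n => (j : ℕ) < i + 1 ∧ x j = true) =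
        insert ⟨i, hi⟩ (Finset.univ.filter fun j : Fin n => (j : ℕ) < i ∧ x j = true) := by
      ext j
      simp only [Finset.mem_filter, Finset.mem_univ, true_and, Finset.mem_insert]
      constructor
      · rintro ⟨h1, h2⟩
        rcases Nat.lt_succ_iff_lt_or_eq.1 h1 with h3 | h3
        · exact Or.inr ⟨h3, h2⟩
        · exact Or.inl (Fin.ext h3)
      · rintro (h1 | ⟨h1, h2⟩)
        · subst h1
          exact ⟨Nat.lt_succ_self _, hx⟩
        · exact ⟨by omega, h2⟩
    rw [h1, Finset.card_insert_of_notMem]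
    simp
  · rw [if_neg hx, add_zero]
    congr 1
    ext j
    simp only [Finset.mem_filter, Finset.mem_univ, true_and]
    constructor
    · rintro ⟨h1, h2⟩
      refine ⟨?_, h2⟩
      rcases Nat.lt_succ_iff_lt_or_eq.1 h1 with h3 | h3
      · exact h3
      · rw [show j = ⟨i, hi⟩ from Fin.ext h3] at h2
        exact absurd h2 hx
    · rintro ⟨h1, h2⟩
      exact ⟨by omega, h2⟩

theorem ones_le {n : ℕ} (x : Inp n) (i : ℕ) (hi : i ≤ n) : ones i x ≤ i := by
  induction i with
  | zero => rw [ones_zero]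
  | succ i ih =>
    have h1 := ih (by omega)
    rw [ones_succ x hi]
    split_ifs <;> omega

/-- the transition relation of a program, indexed by natural numbers -/
def nx {N w : ℕ} (P : NProg N N w) (j : ℕ) (s : Fin w) (b : Bool) (s' : Fin w) : Prop :=
  ∃ hj : j < N, P.next ⟨j, hj⟩ s b s'

/-- the transition relation of the combined program -/
def stp {n m w : ℕ} (P : Fin (m + 1) → NProg (n - m) (n - m) w) (i : ℕ)
    (a : Fin (m + 1) × Fin w) (b : Bool) (a' : Fin (m + 1) × Fin w) : Prop :=
  (i < m → (a'.1 : ℕ) = a.1 + (if b then 1 else 0)) ∧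
  (m ≤ i → a'.1 = a.1) ∧
  (i = m → ∃ s0, (P a.1).start s0 ∧ nx (P a.1) 0 s0 b a'.2) ∧
  (m < i → nx (P a.1) (i - m) a.2 b a'.2)

/-- the combined program -/
def prog {n m w : ℕ} (P : Fin (m + 1) → NProg (n - m) (n - m) w) :
    NProg n n ((m + 1) * w) where
  start s := ((finProdFinEquiv.symm s).1 : ℕ) = 0
  var i _ := i
  next i s b s' := stp P i (finProdFinEquiv.symm s) b (finProdFinEquiv.symm s')
  acc s := (P (finProdFinEquiv.symm s).1).acc (finProdFinEquiv.symm s).2

theorem accepts_iff {n m w : ℕ} (P : Fin (m + 1) → NProg (n - m) (n - m) w) (x : Inp n) :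
    (prog P).Accepts x ↔ ∃ p : ℕ → Fin (m + 1) × Fin w, ((p 0).1 : ℕ) = 0 ∧
      (∀ i : Fin n, stp P i (p i) (x i) (p (i + 1))) ∧ (P (p n).1).acc (p n).2 := by
  constructor
  · rintro ⟨p, h1, h2, h3⟩
    exact ⟨fun i => finProdFinEquiv.symm (p i), h1, h2, h3⟩
  · rintro ⟨p, h1, h2, h3⟩
    refine ⟨fun i => finProdFinEquiv (p i), ?_, ?_, ?_⟩
    · show ((finProdFinEquiv.symm (finProdFinEquiv (p 0))).1 : ℕ) = 0
      rw [Equiv.symm_apply_apply]
      exact h1
    · intro i
      show stp P i (finProdFinEquiv.symm (finProdFinEquiv (p i))) (x i)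
        (finProdFinEquiv.symm (finProdFinEquiv (p (i + 1))))
      rw [Equiv.symm_apply_apply, Equiv.symm_apply_apply]
      exact h2 i
    · show (P (finProdFinEquiv.symm (finProdFinEquiv (p n))).1).acc
        (finProdFinEquiv.symm (finProdFinEquiv (p n))).2
      rw [Equiv.symm_apply_apply]
      exact h3

/-- acceptance of a one-pass program, with steps indexed by natural numbers -/
theorem accepts_onePass {N w : ℕ} (P : NProg N N w) (hv : ∀ i s, P.var i s = i) (x : Inp N) :
    P.Accepts x ↔ ∃ q : ℕ → Fin w, P.start (q 0) ∧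
      (∀ j (hj : j < N), nx P j (q j) (x ⟨j, hj⟩) (q (j + 1))) ∧ P.acc (q N) := by
  constructor
  · rintro ⟨q, h1, h2, h3⟩
    refine ⟨q, h1, fun j hj => ⟨hj, ?_⟩, h3⟩
    have h4 := h2 ⟨j, hj⟩
    rw [hv] at h4
    exact h4
  · rintro ⟨q, h1, h2, h3⟩
    refine ⟨q, h1, fun i => ?_, h3⟩
    obtain ⟨hj, h4⟩ := h2 i i.2
    rw [hv]
    exact h4

theorem main {n m w : ℕ} (hm : m < n) (hw : 1 ≤ w) (P : Fin (m + 1) → NProg (n - m) (n - m) w)
    (hv : ∀ h i s, (P h).var i s = i) (x : Inp n) :
    (prog P).Accepts x ↔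
      (P ⟨ones m x, Nat.lt_succ_of_le (ones_le x m hm.le)⟩).Accepts (dropFirst m x) := by
  rw [accepts_iff, accepts_onePass _ (hv _)]
  constructor
  · rintro ⟨p, h1, h2, h3⟩
    -- the counter
    have hc : ∀ i ≤ m, ((p i).1 : ℕ) = ones i x := by
      intro i
      induction i with
      | zero =>
        intro _
        rw [h1, ones_zero]
      | succ i ih =>
        intro hi
        have him : i < m := hi
        have h4 := (h2 ⟨i, by omega⟩).1 him
        simp only at h4
        rw [h4, ih (by omega), ones_succ x (by omega : i < n)]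
    have hc2 : ∀ i, m ≤ i → i ≤ n → (p i).1 = (p m).1 := by
      intro i hi
      induction i, hi using Nat.le_induction with
      | base => intro _; rfl
      | succ i hi ih =>
        intro hin
        have h4 := (h2 ⟨i, hin⟩).2.1 hi
        simp only at h4
        rw [h4, ih (by omega)]
    have hH : (p m).1 = ⟨ones m x, Nat.lt_succ_of_le (ones_le x m hm.le)⟩ :=
      Fin.ext (hc m le_rfl)
    rw [← hH]
    obtain ⟨s0, hs0, hs1⟩ := (h2 ⟨m, hm⟩).2.2.1 rfl
    simp only at hs0 hs1
    obtain ⟨q, hq0, hq1⟩ : ∃ q : ℕ → Fin w, q 0 = s0 ∧ ∀ j, 0 < j → q j = (p (m + j)).2 :=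
      ⟨fun j => if j = 0 then s0 else (p (m + j)).2, if_pos rfl, fun j hj => if_neg (by omega)⟩
    refine ⟨q, ?_, ?_, ?_⟩
    · rw [hq0]
      exact hs0
    · intro j hj
      have hx : dropFirst m x ⟨j, hj⟩ = x ⟨m + j, by omega⟩ := rfl
      rw [hx]
      rcases Nat.eq_zero_or_pos j with hj0 | hj0
      · subst hj0
        rw [hq0, hq1 (0 + 1) (by omega)]
        exact hs1
      · have h4 := (h2 ⟨m + j, by omega⟩).2.2.2 (by simp only; omega)
        simp only at h4
        rw [hc2 (m + j) (by omega) (by omega), Nat.add_sub_cancel_left] at h4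
        rw [hq1 j hj0, hq1 (j + 1) (by omega), ← add_assoc]
        exact h4
    · rw [hq1 (n - m) (by omega), show m + (n - m) = n by omega]
      rw [hc2 n hm.le le_rfl] at h3
      exact h3
  · rintro ⟨q, h1, h2, h3⟩
    have hlt : ∀ i, min (ones i x) m < m + 1 := fun i => Nat.lt_succ_of_le (min_le_right _ _)
    have hmin : ∀ i ≤ m, min (ones i x) m = ones i x := fun i hi =>
      min_eq_left ((ones_le x i (by omega)).trans hi)
    obtain ⟨H, hH⟩ : ∃ H : Fin (m + 1), H =
        ⟨ones m x, Nat.lt_succ_of_le (ones_le x m hm.le)⟩ := ⟨_, rfl⟩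
    rw [← hH] at h1 h2 h3
    have hHm : (⟨min (ones m x) m, hlt m⟩ : Fin (m + 1)) = H := by
      rw [hH]
      exact Fin.ext (hmin m le_rfl)
    obtain ⟨p, hp1, hp2⟩ : ∃ p : ℕ → Fin (m + 1) × Fin w,
        (∀ i ≤ m, p i = (⟨min (ones i x) m, hlt i⟩, ⟨0, hw⟩)) ∧
        (∀ i, m < i → p i = (H, q (i - m))) := by
      refine ⟨fun i => if i ≤ m then (⟨min (ones i x) m, hlt i⟩, ⟨0, hw⟩) else (H, q (i - m)),
        fun i hi => if_pos hi, fun i hi => if_neg (by omega)⟩
    refine ⟨p, ?_, ?_, ?_⟩
    · rw [hp1 0 (Nat.zero_le _)]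
      simp [ones_zero]
    · intro i
      have hi := i.2
      refine ⟨?_, ?_, ?_, ?_⟩
      · intro him
        rw [hp1 i (by omega), hp1 (i + 1) (by omega)]
        simp only
        rw [hmin _ (by omega), hmin _ (by omega), ones_succ x i.2]
      · intro him
        rw [hp2 (i + 1) (by omega)]
        rcases Nat.eq_or_lt_of_le him with h4 | h4
        · rw [hp1 i (by omega), ← h4]
          exact hHm.symm
        · rw [hp2 i h4]
      · intro him
        rw [hp1 i (by omega), hp2 (i + 1) (by omega)]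
        simp only
        rw [him, hHm]
        refine ⟨q 0, h1, ?_⟩
        have h4 := h2 0 (by omega)
        rw [show m + 1 - m = 0 + 1 by omega]
        have hx : dropFirst m x ⟨0, by omega⟩ = x i := by
          show x ⟨m + 0, _⟩ = x i
          congr 1
          exact Fin.ext (by simp only; omega)
        rw [hx] at h4
        exact h4
      · intro him
        rw [hp2 i him, hp2 (i + 1) (by omega)]
        simp only
        have h4 := h2 ((i : ℕ) - m) (by omega)
        rw [show (i : ℕ) + 1 - m = (i : ℕ) - m + 1 by omega]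
        have hx : dropFirst m x ⟨(i : ℕ) - m, by omega⟩ = x i := by
          show x ⟨m + ((i : ℕ) - m), _⟩ = x i
          congr 1
          exact Fin.ext (by simp only; omega)
        rw [hx] at h4
        exact h4
    · rw [hp2 n hm]
      exact h3

end Select2Aux

/-- selection of one of the nondeterministic programs by the number of ones among the first bits -/
theorem nondet_select {n m w : ℕ} (hm : m < n) (hw : 1 ≤ w) (g : ℕ → Inp (n - m) → Bool)
    (hg : ∀ h ≤ m, NondetOnePass (g h) w) :
    NondetOnePass (fun x : Inp n => g (ones m x) (dropFirst m x)) ((m + 1) * w) := by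
  have hg' : ∀ h : Fin (m + 1), ∃ P : NProg (n - m) (n - m) w, (∀ i s, P.var i s = i) ∧
      ∀ x, g h x = true ↔ P.Accepts x := fun h => hg h (Nat.lt_succ_iff.1 h.2)
  choose P hv hP using hg'
  refine ⟨Select2Aux.prog P, fun i s => rfl, fun x => ?_⟩
  rw [Select2Aux.main hm hw P hv x]
  exact hP ⟨ones m x, _⟩ (dropFirst m x)

end Pool.Agent.LT
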