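import Pool.Agent.Lib.MP_b573ec_lc_LT.Language
import Pool.Agent.Lib.MP_b573ec_lc_LT.V2.Final2
import Pool.Agent.Lib.MP_b573ec_lc_LT.V2.Select1
import Pool.Agent.Lib.MP_b573ec_lc_LT.V2.Select2

/-!
# The two separations for one explicit language each
-/

namespace Pool.Agent.LT

open Finset

namespace LangFinalAux

lemma select_subst {n m h : ℕ} (hm : m ≤ n) (hh : h ≤ m) :
    ∃ (σ : Fin n → Option (Fin (n - m))) (c : Inp n), ∀ d : Inp (n - m),
      ones m (subst σ c d) = h ∧ dropFirst m (subst σ c d) = d := by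
  refine ⟨fun i => if hi : (i : ℕ) < m then none else some ⟨i - m, by have := i.isLt; omega⟩,
    fun i => decide ((i : ℕ) < h), fun d => ⟨?_, ?_⟩⟩
  · have h1 : (univ.filter fun i : Fin n => (i : ℕ) < m ∧ subst (fun i : Fin n =>
        if hi : (i : ℕ) < m then none else some (⟨i - m, by have := i.isLt; omega⟩ :
          Fin (n - m))) (fun i => decide ((i : ℕ) < h)) d i = true) =
        (univ.filter fun i : Fin n => (i : ℕ) < h) := by
      refine filter_congr fun i _ => ?_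
      by_cases hi : (i : ℕ) < m
      · simp [subst, hi]
      · simp only [hi, false_and, false_iff]
        omega
    have h2 : (univ.filter fun i : Fin n => (i : ℕ) < h).card = h := by
      have h3 : (univ.filter fun i : Fin n => (i : ℕ) < h) =
          univ.image (fun j : Fin h => (⟨j, by have := j.isLt; omega⟩ : Fin n)) := by
        ext i
        simp only [mem_filter, mem_univ, true_and, mem_image]
        constructor
        · intro hi
          exact ⟨⟨i, hi⟩, rfl⟩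
        · rintro ⟨j, rfl⟩
          exact j.isLt
      rw [h3, card_image_of_injective]
      · simp
      · intro a b hab
        simpa [Fin.ext_iff] using hab
    unfold ones
    rw [h1, h2]
  · funext i
    have hi : ¬ (m + (i : ℕ)) < m := by omega
    simp [dropFirst, subst, hi]

lemma sq_le_two_pow (m : ℕ) (hm : 4 ≤ m) : m ^ 2 ≤ 2 ^ m := by
  induction m, hm using Nat.le_induction with
  | base => norm_num
  | succ m hm ih =>
    have h1 : (m + 1) ^ 2 ≤ 2 * m ^ 2 := by nlinarith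
    calc (m + 1) ^ 2 ≤ 2 * m ^ 2 := h1
      _ ≤ 2 * 2 ^ m := Nat.mul_le_mul_left _ ih
      _ = 2 ^ (m + 1) := by rw [pow_succ]; ring

lemma six_le_two_pow (m : ℕ) : m ^ 6 ≤ 1038 * 2 ^ m := by
  rcases Nat.lt_or_ge m 9 with hm | hm
  · interval_cases m <;> norm_num
  · induction m, hm using Nat.le_induction with
    | base => norm_num
    | succ m hm ih =>
      obtain ⟨t, rfl⟩ := Nat.exists_eq_add_of_le hm
      have h1 : (9 + t + 1) ^ 6 + (t ^ 6 + 48 * t ^ 5 + 930 * t ^ 4 + 9160 * t ^ 3 +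
          46830 * t ^ 2 + 108588 * t + 62882) = 2 * (9 + t) ^ 6 := by ring
      calc (9 + t + 1) ^ 6 ≤ 2 * (9 + t) ^ 6 := by rw [← h1]; exact Nat.le_add_right _ _
        _ ≤ 2 * (1038 * 2 ^ (9 + t)) := Nat.mul_le_mul_left _ ih
        _ = 1038 * 2 ^ (9 + t + 1) := by rw [pow_succ]; ring

/-- the number `k = T / n' + 1` -/
lemma mult_facts {n' T : ℕ} (hn' : 1 ≤ n') : T ≤ (T / n' + 1) * n' := by
  have := Nat.lt_mul_div_succ T (show 0 < n' by omega)
  rw [mul_comm]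
  exact this.le

lemma mult_sq {C n n' h T Λ : ℕ} (hn' : 1 ≤ n') (hn : n ≤ 2 * n') (hT : n' ≤ T)
    (hC : C * T ^ 2 * Λ ≤ n ^ 2 * h) : C * (T / n' + 1) ^ 2 * Λ ≤ 16 * h := by
  have h1 : (T / n' + 1) * n' ≤ 2 * T := by
    have := Nat.div_mul_le_self T n'
    calc (T / n' + 1) * n' = T / n' * n' + n' := by ring
      _ ≤ 2 * T := by omega
  have h2 : n' ^ 2 * (C * (T / n' + 1) ^ 2 * Λ) ≤ n' ^ 2 * (16 * h) := by
    calc n' ^ 2 * (C * (T / n' + 1) ^ 2 * Λ) = C * ((T / n' + 1) * n') ^ 2 * Λ := by ring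
      _ ≤ C * (2 * T) ^ 2 * Λ := by gcongr
      _ = 4 * (C * T ^ 2 * Λ) := by ring
      _ ≤ 4 * (n ^ 2 * h) := Nat.mul_le_mul_left _ hC
      _ ≤ 4 * ((2 * n') ^ 2 * h) := by gcongr
      _ = n' ^ 2 * (16 * h) := by ring
  exact Nat.le_of_mul_le_mul_left h2 (by positivity)

lemma lt_pow_log {h : ℕ} : h < 2 ^ (Nat.log 2 h + 1) := Nat.lt_pow_succ_log_self (by norm_num) h

/-- choice of the multiple of the length: first theorem -/
lemma choose_k1 (C1 : ℕ) : ∃ C : ℕ, 20 ≤ C ∧ ∀ n n' h T : ℕ, C ≤ h → 1 ≤ n' → n' ≤ n →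
    n ≤ 2 * n' → C * T ^ 2 * Nat.log 2 h ≤ n ^ 2 * h →
    ∃ k, 1 ≤ k ∧ T ≤ k * n' ∧ (2 * k * (h - 1)) ^ (C1 * k ^ 2) ≤ 2 ^ (h - 1) := by
  refine ⟨96 * (C1 + 1) ^ 2 + 20, by omega, fun n n' h T hh hn' hnn hn hT => ?_⟩
  set C := 96 * (C1 + 1) ^ 2 + 20 with hC
  set Λ := Nat.log 2 h with hΛ
  have hlt : h < 2 ^ (Λ + 1) := lt_pow_log
  have hle : 2 ^ Λ ≤ h := Nat.pow_log_le_self 2 (by omega)
  have hΛ4 : 4 ≤ Λ := by
    rw [hΛ]
    refine Nat.le_log_of_pow_le (by norm_num) ?_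
    have : 2 ^ 4 = 16 := by norm_num
    omega
  refine ⟨T / n' + 1, Nat.le_add_left 1 _, mult_facts hn', ?_⟩
  set k := T / n' + 1 with hk
  have hk1 : 1 ≤ k := Nat.le_add_left 1 _
  -- it suffices to bound the exponent
  have key : ∀ a : ℕ, 2 * k * (h - 1) ≤ 2 ^ a → a * (C1 * k ^ 2) ≤ h - 1 →
      (2 * k * (h - 1)) ^ (C1 * k ^ 2) ≤ 2 ^ (h - 1) := by
    intro a h1 h2
    calc (2 * k * (h - 1)) ^ (C1 * k ^ 2) ≤ (2 ^ a) ^ (C1 * k ^ 2) := Nat.pow_le_pow_left h1 _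
      _ = 2 ^ (a * (C1 * k ^ 2)) := by rw [← pow_mul]
      _ ≤ 2 ^ (h - 1) := Nat.pow_le_pow_right (by norm_num) h2
  rcases Nat.lt_or_ge T n' with hTn | hTn
  · have hk0 : k = 1 := by rw [hk, Nat.div_eq_of_lt hTn]
    refine key (Λ + 2) ?_ ?_
    · rw [hk0, pow_succ]
      omega
    · rw [hk0]
      have h1 : (4 * (C1 + 1) * Λ) ^ 2 ≤ h ^ 2 := by
        calc (4 * (C1 + 1) * Λ) ^ 2 = 16 * (C1 + 1) ^ 2 * Λ ^ 2 := by ring
          _ ≤ C * 2 ^ Λ := by
              refine Nat.mul_le_mul (by omega) (sq_le_two_pow Λ hΛ4)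
          _ ≤ h * h := Nat.mul_le_mul hh hle
          _ = h ^ 2 := by ring
      have h2 : 4 * (C1 + 1) * Λ ≤ h := (Nat.pow_le_pow_iff_left (by norm_num)).mp h1
      have h3 : (Λ + 2) * (C1 * 1 ^ 2) ≤ 2 * (C1 * Λ) := by
        calc (Λ + 2) * (C1 * 1 ^ 2) ≤ (2 * Λ) * (C1 * 1 ^ 2) := Nat.mul_le_mul_right _ (by omega)
          _ = 2 * (C1 * Λ) := by ring
      have h4 : 4 * (C1 + 1) * Λ = 4 * (C1 * Λ) + 4 * Λ := by ring
      omega
  · have hsq := mult_sq hn' hn hTn hT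
    rw [← hk] at hsq
    have hkh : k ≤ h := by
      have h1 : 16 * k ≤ 16 * h := by
        calc 16 * k ≤ C * k * 1 := by
              rw [mul_one]
              exact Nat.mul_le_mul_right _ (by omega)
          _ ≤ C * k ^ 2 * Λ := by
              refine Nat.mul_le_mul (Nat.mul_le_mul_left _ ?_) (by omega)
              nlinarith
          _ ≤ 16 * h := hsq
      omega
    refine key (2 * Λ + 3) ?_ ?_
    · calc 2 * k * (h - 1) ≤ 2 * h * h := by gcongr; omega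
        _ ≤ 2 * 2 ^ (Λ + 1) * 2 ^ (Λ + 1) := by gcongr
        _ = 2 ^ (2 * Λ + 3) := by ring
    · have h1 : 2 * ((2 * Λ + 3) * (C1 * k ^ 2)) ≤ h := by
        have h2 : 16 * (2 * ((2 * Λ + 3) * (C1 * k ^ 2))) ≤ 16 * h := by
          calc 16 * (2 * ((2 * Λ + 3) * (C1 * k ^ 2)))
              ≤ 16 * (2 * ((3 * Λ) * (C1 * k ^ 2))) := by gcongr; omega
            _ = (96 * C1) * k ^ 2 * Λ := by ring
            _ ≤ C * k ^ 2 * Λ := by
                refine Nat.mul_le_mul_right _ (Nat.mul_le_mul_right _ ?_)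
                rw [hC]
                nlinarith
            _ ≤ 16 * h := hsq
        omega
      omega

/-- choice of the multiple of the length: second theorem -/
lemma choose_k2 (C1 : ℕ) : ∃ C : ℕ, 20 ≤ C ∧ ∀ n n' h T : ℕ, C ≤ h → 1 ≤ n' → n' ≤ n →
    n ≤ 2 * n' → C * T ^ 2 * Nat.log 2 h ^ 3 ≤ n ^ 2 * h →
    ∃ k, 1 ≤ k ∧ T ≤ k * n' ∧
      (2 * k * (h - 1)) ^ (C1 * k ^ 2 * (Nat.log 2 (2 * k * (h - 1)) + 1) ^ 2) ≤
        2 ^ (h - 1) := by
  refine ⟨84078 * (C1 + 1) ^ 2 + 20, by omega, fun n n' h T hh hn' hnn hn hT => ?_⟩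
  set C := 84078 * (C1 + 1) ^ 2 + 20 with hC
  set Λ := Nat.log 2 h with hΛ
  have hlt : h < 2 ^ (Λ + 1) := lt_pow_log
  have hle : 2 ^ Λ ≤ h := Nat.pow_log_le_self 2 (by omega)
  have hΛ4 : 4 ≤ Λ := by
    rw [hΛ]
    refine Nat.le_log_of_pow_le (by norm_num) ?_
    have : 2 ^ 4 = 16 := by norm_num
    omega
  refine ⟨T / n' + 1, Nat.le_add_left 1 _, mult_facts hn', ?_⟩
  set k := T / n' + 1 with hk
  have hk1 : 1 ≤ k := Nat.le_add_left 1 _
  have key : ∀ a : ℕ, 2 * k * (h - 1) < 2 ^ a → a * (C1 * k ^ 2 * a ^ 2) ≤ h - 1 →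
      (2 * k * (h - 1)) ^ (C1 * k ^ 2 * (Nat.log 2 (2 * k * (h - 1)) + 1) ^ 2) ≤
        2 ^ (h - 1) := by
    intro a h1 h2
    have h0 : 0 < 2 * k * (h - 1) := by
      have : 0 < h - 1 := by omega
      positivity
    have hlog : Nat.log 2 (2 * k * (h - 1)) + 1 ≤ a := by
      have := Nat.log_lt_of_lt_pow (by omega) h1
      omega
    calc (2 * k * (h - 1)) ^ (C1 * k ^ 2 * (Nat.log 2 (2 * k * (h - 1)) + 1) ^ 2)
        ≤ (2 ^ a) ^ (C1 * k ^ 2 * (Nat.log 2 (2 * k * (h - 1)) + 1) ^ 2) :=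
          Nat.pow_le_pow_left h1.le _
      _ = 2 ^ (a * (C1 * k ^ 2 * (Nat.log 2 (2 * k * (h - 1)) + 1) ^ 2)) := by rw [← pow_mul]
      _ ≤ 2 ^ (h - 1) := by
          refine Nat.pow_le_pow_right (by norm_num) (le_trans ?_ h2)
          gcongr
  rcases Nat.lt_or_ge T n' with hTn | hTn
  · have hk0 : k = 1 := by rw [hk, Nat.div_eq_of_lt hTn]
    refine key (Λ + 2) ?_ ?_
    · rw [hk0, pow_succ]
      omega
    · rw [hk0]
      have h1 : (9 * (C1 + 1) * Λ ^ 3) ^ 2 ≤ h ^ 2 := by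
        calc (9 * (C1 + 1) * Λ ^ 3) ^ 2 = 81 * (C1 + 1) ^ 2 * Λ ^ 6 := by ring
          _ ≤ 81 * (C1 + 1) ^ 2 * (1038 * 2 ^ Λ) := Nat.mul_le_mul_left _ (six_le_two_pow Λ)
          _ = 84078 * (C1 + 1) ^ 2 * 2 ^ Λ := by ring
          _ ≤ C * 2 ^ Λ := Nat.mul_le_mul_right _ (by omega)
          _ ≤ h * h := Nat.mul_le_mul hh hle
          _ = h ^ 2 := by ring
      have h2 : 9 * (C1 + 1) * Λ ^ 3 ≤ h := (Nat.pow_le_pow_iff_left (by norm_num)).mp h1
      have h3 : (Λ + 2) * (C1 * 1 ^ 2 * (Λ + 2) ^ 2) ≤ 8 * (C1 * Λ ^ 3) := by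
        calc (Λ + 2) * (C1 * 1 ^ 2 * (Λ + 2) ^ 2)
            ≤ (2 * Λ) * (C1 * 1 ^ 2 * (2 * Λ) ^ 2) := by gcongr <;> omega
          _ = 8 * (C1 * Λ ^ 3) := by ring
      have h4 : 9 * (C1 + 1) * Λ ^ 3 = 9 * (C1 * Λ ^ 3) + 9 * Λ ^ 3 := by ring
      have h5 : 1 ≤ Λ ^ 3 := Nat.one_le_pow _ _ (by omega)
      omega
  · have hsq := mult_sq hn' hn hTn hT
    rw [← hk] at hsq
    have hΛ3 : 1 ≤ Λ ^ 3 := Nat.one_le_pow _ _ (by omega)
    have hkh : k ≤ h := by
      have h1 : 16 * k ≤ 16 * h := by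
        calc 16 * k ≤ C * k * 1 := by
              rw [mul_one]
              exact Nat.mul_le_mul_right _ (by omega)
          _ ≤ C * k ^ 2 * Λ ^ 3 := by
              refine Nat.mul_le_mul (Nat.mul_le_mul_left _ ?_) hΛ3
              nlinarith
          _ ≤ 16 * h := hsq
      omega
    refine key (2 * Λ + 3) ?_ ?_
    · calc 2 * k * (h - 1) < 2 * h * h := by
            have h1 : 0 < 2 * k := by omega
            calc 2 * k * (h - 1) < 2 * k * h := Nat.mul_lt_mul_of_pos_left (by omega) h1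
              _ ≤ 2 * h * h := by gcongr
        _ ≤ 2 * 2 ^ (Λ + 1) * 2 ^ (Λ + 1) := by gcongr
        _ = 2 ^ (2 * Λ + 3) := by ring
    · have h1 : 2 * ((2 * Λ + 3) * (C1 * k ^ 2 * (2 * Λ + 3) ^ 2)) ≤ h := by
        have h2 : 16 * (2 * ((2 * Λ + 3) * (C1 * k ^ 2 * (2 * Λ + 3) ^ 2))) ≤ 16 * h := by
          calc 16 * (2 * ((2 * Λ + 3) * (C1 * k ^ 2 * (2 * Λ + 3) ^ 2)))
              ≤ 16 * (2 * ((3 * Λ) * (C1 * k ^ 2 * (3 * Λ) ^ 2))) := by gcongr <;> omega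
            _ = (864 * C1) * k ^ 2 * Λ ^ 3 := by ring
            _ ≤ C * k ^ 2 * Λ ^ 3 := by
                refine Nat.mul_le_mul_right _ (Nat.mul_le_mul_right _ ?_)
                rw [hC]
                nlinarith
            _ ≤ 16 * h := hsq
        omega
      omega

lemma log_facts {n : ℕ} (hn : 2 ≤ n) : Nat.log 2 n + 1 ≤ n ∧ n ≤ 2 * (n - Nat.log 2 n) := by
  have h1 : 2 ^ Nat.log 2 n ≤ n := Nat.pow_log_le_self 2 (by omega)
  have h3 : ∀ m : ℕ, 2 * m ≤ 2 ^ m ∨ m = 0 := by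
    intro m
    induction m with
    | zero => right; rfl
    | succ m ih =>
      left
      rcases ih with ih | ih
      · rcases Nat.eq_zero_or_pos m with h0 | h0
        · subst h0; norm_num
        · rw [pow_succ]
          omega
      · subst ih; norm_num
  have h4 : Nat.log 2 n < n := Nat.log_lt_self 2 (by omega)
  rcases h3 (Nat.log 2 n) with h | h
  · constructor <;> omega
  · constructor <;> omega

end LangFinalAux

open LangFinalAux FinalAux

theorem resultRP : ∃ C : ℕ, (∀ n ≥ 1, ∃ w ≤ C * n ^ 5, OneSidedOnePass (langRP n) w) ∧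
    ∀ n S h T w : ℕ, 1 ≤ S → C ≤ h → S * 4 ^ h ≤ n → C * T ^ 2 * Nat.log 2 h ≤ n ^ 2 * h →
      w ≤ 2 ^ S → ¬ OneSided (fun x => !langRP n x) T w ∧ ¬ Det (langRP n) T w := by
  obtain ⟨C1, hC1⟩ := resultQ1'
  obtain ⟨C2, hC20, hC2⟩ := choose_k1 C1
  refine ⟨C2 + 2 ^ 20, fun n hn => ?_, fun n S h T w hS hh hn hT hw => ?_⟩
  · have hlt : Nat.log 2 n < n := Nat.log_lt_self 2 (by omega)
    refine ⟨(Nat.log 2 n + 1) * 2 ^ (4 * (Nat.log 2 (n - Nat.log 2 n) + 5)), ?_, ?_⟩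
    · have h1 : 2 ^ Nat.log 2 (n - Nat.log 2 n) ≤ n :=
        (Nat.pow_log_le_self 2 (by omega)).trans (Nat.sub_le _ _)
      calc (Nat.log 2 n + 1) * 2 ^ (4 * (Nat.log 2 (n - Nat.log 2 n) + 5))
          = (Nat.log 2 n + 1) * (2 ^ 20 * (2 ^ Nat.log 2 (n - Nat.log 2 n)) ^ 4) := by
            rw [← pow_mul, ← pow_add]
            congr 2
            ring
        _ ≤ n * (2 ^ 20 * n ^ 4) := by
            refine Nat.mul_le_mul (by omega) (Nat.mul_le_mul_left _ (Nat.pow_le_pow_left h1 4))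
        _ = 2 ^ 20 * n ^ 5 := by ring
        _ ≤ (C2 + 2 ^ 20) * n ^ 5 := Nat.mul_le_mul_right _ (by omega)
    · refine oneSided_select (g := fun h => cubeFn (n - Nat.log 2 n)
        ((n - Nat.log 2 n) / 2 ^ h)) hlt Nat.one_le_two_pow fun h _ => ?_
      exact cube_upper0 _ _ (Nat.div_le_self _ _)
  · have h4 : 4 ^ h ≤ n := le_trans (Nat.le_mul_of_pos_left _ hS) hn
    have hn2 : 2 ≤ n := by
      have : 4 ^ 1 ≤ 4 ^ h := Nat.pow_le_pow_right (by norm_num) (by omega)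
      omega
    obtain ⟨hl1, hl2⟩ := log_facts hn2
    set m := Nat.log 2 n with hm
    have hhm : h - 1 ≤ m := by
      have : h ≤ m := by
        rw [hm]
        refine Nat.le_log_of_pow_le (by norm_num) ?_
        exact le_trans (Nat.pow_le_pow_left (by norm_num) h) h4
      omega
    obtain ⟨k, hk, hTk, hkh⟩ := hC2 n (n - m) h T (by omega) (by omega) (Nat.sub_le _ _)
      (by omega) (le_trans (by gcongr; omega) hT)
    have hS' : S * 4 ^ (h - 1) ≤ n - m := by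
      have h5 : 4 ^ h = 4 * 4 ^ (h - 1) := by
        rw [← pow_succ']
        congr 1
        omega
      have h6 : 4 * (S * 4 ^ (h - 1)) ≤ n := by
        calc 4 * (S * 4 ^ (h - 1)) = S * 4 ^ h := by rw [h5]; ring
          _ ≤ n := hn
      omega
    obtain ⟨-, hlow⟩ := hC1 (n - m) k S (h - 1) hk hS (by omega) hkh hS'
    obtain ⟨hO, -⟩ := hlow T w hTk hw
    obtain ⟨σ, c, hσ⟩ := select_subst (n := n) (m := m) (h := h - 1) (by omega) hhm
    have hone : ¬ OneSided (fun x => !langRP n x) T w := by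
      intro hcon
      apply hO
      have h7 := oneSided_subst (n' := n - m) (by omega) σ c _ hcon
      convert h7 using 2 with d
      obtain ⟨e1, e2⟩ := hσ d
      unfold langRP
      rw [← hm, e1, e2]
    exact ⟨hone, fun hdet => hone (det_compl hdet)⟩

theorem resultNP : ∃ C : ℕ, (∀ n ≥ 1, ∃ w ≤ C * n ^ 10, NondetOnePass (langNP n) w) ∧
    ∀ n S h T w : ℕ, 1 ≤ S → C ≤ h → S * 4 ^ h ≤ n → C * T ^ 2 * Nat.log 2 h ^ 3 ≤ n ^ 2 * h →
      w ≤ 2 ^ S → ¬ TwoSided (langNP n) T w ∧ ¬ OneSided (langNP n) T w := by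
  obtain ⟨C1, hC1⟩ := resultQ2'
  obtain ⟨C2, hC20, hC2⟩ := choose_k2 C1
  refine ⟨C2 + 2 ^ 20, fun n hn => ?_, fun n S h T w hS hh hn hT hw => ?_⟩
  · have hlt : Nat.log 2 n < n := Nat.log_lt_self 2 (by omega)
    refine ⟨(Nat.log 2 n + 1) * 2 ^ (3 * (3 * (Nat.log 2 (n - Nat.log 2 n) + 1))), ?_, ?_⟩
    · have h1 : 2 ^ Nat.log 2 (n - Nat.log 2 n) ≤ n :=
        (Nat.pow_log_le_self 2 (by omega)).trans (Nat.sub_le _ _)
      calc (Nat.log 2 n + 1) * 2 ^ (3 * (3 * (Nat.log 2 (n - Nat.log 2 n) + 1)))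
          = (Nat.log 2 n + 1) * (2 ^ 9 * (2 ^ Nat.log 2 (n - Nat.log 2 n)) ^ 9) := by
            rw [← pow_mul, ← pow_add]
            congr 2
            ring
        _ ≤ n * (2 ^ 20 * n ^ 9) := by
            refine Nat.mul_le_mul (by omega) (Nat.mul_le_mul (by norm_num)
              (Nat.pow_le_pow_left h1 9))
        _ = 2 ^ 20 * n ^ 10 := by ring
        _ ≤ (C2 + 2 ^ 20) * n ^ 10 := Nat.mul_le_mul_right _ (by omega)
    · refine nondet_select (g := fun h => factorFn (n - Nat.log 2 n)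
        ((n - Nat.log 2 n) / 2 ^ h) (3 * (Nat.log 2 (n - Nat.log 2 n) + 1))) hlt
        Nat.one_le_two_pow fun h _ => ?_
      exact factor_upper _ _ _ (by omega)
  · have h4 : 4 ^ h ≤ n := le_trans (Nat.le_mul_of_pos_left _ hS) hn
    have hn2 : 2 ≤ n := by
      have : 4 ^ 1 ≤ 4 ^ h := Nat.pow_le_pow_right (by norm_num) (by omega)
      omega
    obtain ⟨hl1, hl2⟩ := log_facts hn2
    set m := Nat.log 2 n with hm
    have hhm : h - 1 ≤ m := by
      have : h ≤ m := by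
        rw [hm]
        refine Nat.le_log_of_pow_le (by norm_num) ?_
        exact le_trans (Nat.pow_le_pow_left (by norm_num) h) h4
      omega
    obtain ⟨k, hk, hTk, hkh⟩ := hC2 n (n - m) h T (by omega) (by omega) (Nat.sub_le _ _)
      (by omega) (le_trans (by gcongr; omega) hT)
    have hS' : S * 4 ^ (h - 1) ≤ n - m := by
      have h5 : 4 ^ h = 4 * 4 ^ (h - 1) := by
        rw [← pow_succ']
        congr 1
        omega
      have h6 : 4 * (S * 4 ^ (h - 1)) ≤ n := by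
        calc 4 * (S * 4 ^ (h - 1)) = S * 4 ^ h := by rw [h5]; ring
          _ ≤ n := hn
      omega
    obtain ⟨-, hlow⟩ := hC1 (n - m) k S (h - 1) hk hS (by omega) hkh hS'
    obtain ⟨hT2, hO⟩ := hlow T w hTk hw
    obtain ⟨σ, c, hσ⟩ := select_subst (n := n) (m := m) (h := h - 1) (by omega) hhm
    have hfun : (fun d : Inp (n - m) => langNP n (subst σ c d)) =
        factorFn (n - m) ((n - m) / 2 ^ (h - 1)) (3 * (Nat.log 2 (n - m) + 1)) := by
      funext d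
      obtain ⟨e1, e2⟩ := hσ d
      unfold langNP
      rw [← hm, e1, e2]
    constructor
    · intro hcon
      have h7 := twoSided_subst (n' := n - m) (by omega) σ c _ hcon
      rw [hfun] at h7
      exact hT2 h7
    · intro hcon
      have h7 := oneSided_subst (n' := n - m) (by omega) σ c _ hcon
      rw [hfun] at h7
      exact hO h7

end Pool.Agent.LT
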