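import Pool.Agent.Lib.MP_b573ec_lc_LT.V2.Defs3
import Pool.Agent.Lib.MP_b573ec_lc_LT.Numeric

set_option autoImplicit false

namespace Pool.Agent.LT

open Finset Polynomial

namespace NumericCoreAux

/-- the basic facts about `u = log2 (2kh) + 1` -/
theorem u_facts (k h : ℕ) (hk : 1 ≤ k) (hh : 1 ≤ h) :
    2 ≤ Nat.log 2 (2 * k * h) + 1 ∧ k * h * 2 ≤ 2 ^ (Nat.log 2 (2 * k * h) + 1) := by
  have hkh : 1 ≤ k * h := Nat.mul_pos hk hh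
  have h2 : 2 * k * h = k * h * 2 := by ring
  constructor
  · have h1 : 1 ≤ Nat.log 2 (2 * k * h) := by
      rw [Nat.le_log_iff_pow_le (by norm_num) (by omega), h2]
      omega
    omega
  · rw [← h2]
    exact (Nat.lt_pow_succ_log_self (by norm_num) _).le

theorem k_le (k h u : ℕ) (hk : 1 ≤ k) (hh : 1 ≤ h) (hu : k * h * 2 ≤ 2 ^ u) :
    k ≤ 2 ^ u ∧ h ≤ 2 ^ u ∧ k * h ≤ 2 ^ u := by
  have h1 : k ≤ k * h := Nat.le_mul_of_pos_right _ hh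
  have h2 : h ≤ k * h := Nat.le_mul_of_pos_left _ hk
  omega

theorem kh2_le (k h u : ℕ) (hk : 1 ≤ k) (hu : k * h * 2 ≤ 2 ^ u) :
    4 * (k * h ^ 2) ≤ 2 ^ (2 * u) := by
  calc 4 * (k * h ^ 2) ≤ 4 * (k * (k * h ^ 2)) :=
        Nat.mul_le_mul_left _ (Nat.mul_le_mul_left _ (Nat.le_mul_of_pos_left _ hk))
    _ = (k * h * 2) ^ 2 := by ring
    _ ≤ (2 ^ u) ^ 2 := Nat.pow_le_pow_left hu 2
    _ = 2 ^ (2 * u) := by rw [← pow_mul, mul_comm]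

theorem RR2_le_aux (k h u : ℕ) (hk : 1 ≤ k) (hu2 : 2 ≤ u) (hu : k * h * 2 ≤ 2 ^ u) :
    RR2 k (2 ^ 40 * h ^ 2) ≤ 2 ^ (252 * u * k ^ 2) := by
  have h3 := kh2_le k h u hk hu
  have hA : 64 * k * (2 ^ 40 * h ^ 2) ≤ 2 ^ (24 * u) := by
    calc 64 * k * (2 ^ 40 * h ^ 2) = 2 ^ 44 * (4 * (k * h ^ 2)) := by ring
      _ ≤ 2 ^ 44 * 2 ^ (2 * u) := Nat.mul_le_mul_left _ h3
      _ = 2 ^ (44 + 2 * u) := by rw [← pow_add]
      _ ≤ 2 ^ (24 * u) := Nat.pow_le_pow_right (by norm_num) (by omega)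
  have huk : u ≤ u * k := Nat.le_mul_of_pos_right _ hk
  have huk2 : 2 * k ≤ u * k := Nat.mul_le_mul_right _ hu2
  have hB : 32 * k * 4 ^ k * (2 ^ 40 * h ^ 2) ≤ 2 ^ (25 * (u * k)) := by
    calc 32 * k * 4 ^ k * (2 ^ 40 * h ^ 2) = 2 ^ 43 * 2 ^ (2 * k) * (4 * (k * h ^ 2)) := by
          rw [show (4 : ℕ) ^ k = 2 ^ (2 * k) by rw [pow_mul]; norm_num]
          ring
      _ ≤ 2 ^ 43 * 2 ^ (2 * k) * 2 ^ (2 * u) := Nat.mul_le_mul_left _ h3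
      _ = 2 ^ (43 + 2 * k + 2 * u) := by rw [← pow_add, ← pow_add]
      _ ≤ 2 ^ (25 * (u * k)) := by
          apply Nat.pow_le_pow_right (by norm_num)
          generalize u * k = X at huk huk2
          omega
  unfold RR2 QQ
  calc (32 * k * 4 ^ k * (2 ^ 40 * h ^ 2) * (64 * k * (2 ^ 40 * h ^ 2)) ^ (4 * k)) ^ (2 * k)
      ≤ (2 ^ (25 * (u * k)) * (2 ^ (24 * u)) ^ (4 * k)) ^ (2 * k) :=
        Nat.pow_le_pow_left (Nat.mul_le_mul hB (Nat.pow_le_pow_left hA _)) _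
    _ = 2 ^ (242 * (u * k ^ 2)) := by
        rw [← pow_mul, ← pow_add, ← pow_mul]
        congr 1
        ring
    _ ≤ 2 ^ (252 * u * k ^ 2) := by
        apply Nat.pow_le_pow_right (by norm_num)
        rw [mul_assoc]
        exact Nat.mul_le_mul_right _ (by norm_num)

theorem typ2_le_aux (k h u : ℕ) (hk : 1 ≤ k) (hh : 1 ≤ h) (hu2 : 2 ≤ u)
    (hu : k * h * 2 ≤ 2 ^ u) :
    typ2 k (2 ^ 40 * h ^ 2) ≤ 2 ^ 12 * k ^ 4 * u := by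
  have hR := RR2_le_aux k h u hk hu2 hu
  obtain ⟨hku, -, -⟩ := k_le k h u hk hh hu
  have h1 : 8 * k * RR2 k (2 ^ 40 * h ^ 2) ≤ 2 ^ (3 + u + 252 * u * k ^ 2) := by
    rw [pow_add, pow_add]
    exact Nat.mul_le_mul (Nat.mul_le_mul (by norm_num) hku) hR
  have h2 : Nat.log 2 (8 * k * RR2 k (2 ^ 40 * h ^ 2)) ≤ 3 + u + 252 * u * k ^ 2 :=
    (Nat.log_mono_right h1).trans (Nat.log_pow (by norm_num) _).le
  have hk2 : 1 ≤ k ^ 2 := Nat.one_le_pow _ _ hk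
  have h3 : u ≤ u * k ^ 2 := Nat.le_mul_of_pos_right _ hk2
  have h4 : Nat.log 2 (8 * k * RR2 k (2 ^ 40 * h ^ 2)) + 1 ≤ 256 * (u * k ^ 2) := by
    have h5 : 252 * u * k ^ 2 = 252 * (u * k ^ 2) := by ring
    rw [h5] at h2
    generalize u * k ^ 2 = X at h2 h3 ⊢
    omega
  have h6 : (4 * k + 1) * (2 * k) ≤ 10 * k ^ 2 := by nlinarith
  unfold typ2
  calc (4 * k + 1) * (2 * k) * (Nat.log 2 (8 * k * RR2 k (2 ^ 40 * h ^ 2)) + 1)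
      ≤ 10 * k ^ 2 * (256 * (u * k ^ 2)) := Nat.mul_le_mul h6 h4
    _ = 2560 * (k ^ 4 * u) := by ring
    _ ≤ 2 ^ 12 * (k ^ 4 * u) := Nat.mul_le_mul_right _ (by norm_num)
    _ = 2 ^ 12 * k ^ 4 * u := by ring

theorem RR2_pos (k h : ℕ) (hk : 1 ≤ k) (hh : 1 ≤ h) : 1 ≤ RR2 k (2 ^ 40 * h ^ 2) := by
  unfold RR2 QQ
  apply Nat.one_le_iff_ne_zero.2
  positivity

/-- powers of two -/
theorem pw (c a u ρ h : ℕ) (hle : c + a * u + ρ ≤ h) : 2 ^ c * (2 ^ u) ^ a * 2 ^ ρ ≤ 2 ^ h := by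
  rw [← pow_mul, ← pow_add, ← pow_add]
  apply Nat.pow_le_pow_right (by norm_num)
  rw [mul_comm u a]
  exact hle

theorem core (k h n D S u ρ R t : ℕ) (hk : 1 ≤ k) (hh : 1 ≤ h)
    (hku : k ≤ 2 ^ u) (hhu : h ≤ 2 ^ u) (hu2 : 2 ≤ u) (hρ : 252 * u ≤ ρ) (hρh : 396 * ρ ≤ h)
    (hR1 : 1 ≤ R) (hR : R ≤ 2 ^ ρ) (ht : t ≤ 2 ^ 12 * k ^ 4 * u)
    (h1 : 3 * n < 2 ^ h * (4 * D))
    (h2 : 2 ^ h * D ≤ 32 * n) (h3 : S * 2 ^ h ≤ 16 * h * D) (h4 : 2 ^ h ≤ D) :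
    ∃ L r e lam : ℕ, 1 ≤ L ∧ k * n ≤ r * L ∧
      16 * k * R * (16 * h * D) ≤ n ∧
      512 * k ^ 2 * R * L ≤ n ∧
      64 * (16 * h * D) ≤ (e + 1) * (2 ^ 40 * h ^ 2) ∧
      64 * t * 2 ^ (S * r) * nsub n e ≤ 2 ^ lam ∧
      64 * (lam + 4 * h + 2) ≤ D := by
  have hkp : 0 < k := hk
  have hhp : 0 < h := hh
  have hRp : 0 < R := hR1
  -- (a) the number of steps per block
  have hc1 : 0 < 512 * k ^ 2 * R := by positivity
  have hD1 : 1 ≤ D := le_trans Nat.one_le_two_pow h4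
  have hn32 : 32 * (512 * k ^ 2 * R) ≤ 32 * n := by
    calc 32 * (512 * k ^ 2 * R) = 2 ^ 14 * k ^ 2 * R := by ring
      _ ≤ 2 ^ 14 * (2 ^ u) ^ 2 * 2 ^ ρ := by gcongr
      _ ≤ 2 ^ h := pw 14 2 u ρ h (by omega)
      _ ≤ 2 ^ h * D := Nat.le_mul_of_pos_right _ hD1
      _ ≤ 32 * n := h2
  have hL1 : 512 * k ^ 2 * R ≤ n := Nat.le_of_mul_le_mul_left hn32 (by norm_num)
  have hL : 1 ≤ n / (512 * k ^ 2 * R) := (Nat.one_le_div_iff hc1).2 hL1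
  have hLn : 512 * k ^ 2 * R * (n / (512 * k ^ 2 * R)) ≤ n := Nat.mul_div_le _ _
  have hLr : k * n ≤ 1024 * k ^ 3 * R * (n / (512 * k ^ 2 * R)) := by
    have h5 : n < 512 * k ^ 2 * R * (n / (512 * k ^ 2 * R) + 1) := Nat.lt_mul_div_succ n hc1
    generalize n / (512 * k ^ 2 * R) = L at hL h5
    calc k * n ≤ k * (512 * k ^ 2 * R * (L + 1)) := Nat.mul_le_mul_left _ h5.le
      _ ≤ k * (512 * k ^ 2 * R * (2 * L)) :=
          Nat.mul_le_mul_left _ (Nat.mul_le_mul_left _ (by omega))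
      _ = 1024 * k ^ 3 * R * L := by ring
  -- (b)
  have hb : 16 * k * R * (16 * h * D) ≤ n := by
    have h5 : 32 * (16 * k * R * (16 * h * D)) ≤ 32 * n := by
      calc 32 * (16 * k * R * (16 * h * D)) = 2 ^ 13 * (k * h) * R * D := by ring
        _ ≤ 2 ^ 13 * (2 ^ u * 2 ^ u) * 2 ^ ρ * D := by gcongr
        _ = 2 ^ 13 * (2 ^ u) ^ 2 * 2 ^ ρ * D := by rw [pow_two]
        _ ≤ 2 ^ h * D := Nat.mul_le_mul_right _ (pw 13 2 u ρ h (by omega))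
        _ ≤ 32 * n := h2
    exact Nat.le_of_mul_le_mul_left h5 (by norm_num)
  -- (c) the parameter e
  have hE0 : 0 < 2 ^ 40 * h ^ 2 := by positivity
  have hD30 : 2 ^ 30 * h ≤ D := by
    calc 2 ^ 30 * h ≤ 2 ^ 30 * 2 ^ u := Nat.mul_le_mul_left _ hhu
      _ = 2 ^ (30 + u) := by rw [← pow_add]
      _ ≤ 2 ^ h := Nat.pow_le_pow_right (by norm_num) (by omega)
      _ ≤ D := h4
  have he1 : 1 ≤ 64 * (16 * h * D) / (2 ^ 40 * h ^ 2) := by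
    rw [Nat.one_le_div_iff hE0]
    calc 2 ^ 40 * h ^ 2 = 2 ^ 10 * h * (2 ^ 30 * h) := by ring
      _ ≤ 2 ^ 10 * h * D := Nat.mul_le_mul_left _ hD30
      _ = 64 * (16 * h * D) := by ring
  have heE : 64 * (16 * h * D) / (2 ^ 40 * h ^ 2) * (2 ^ 40 * h ^ 2) ≤ 64 * (16 * h * D) :=
    Nat.div_mul_le_self _ _
  have heE2 : 64 * (16 * h * D) <
      2 ^ 40 * h ^ 2 * (64 * (16 * h * D) / (2 ^ 40 * h ^ 2) + 1) := Nat.lt_mul_div_succ _ hE0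
  generalize 64 * (16 * h * D) / (2 ^ 40 * h ^ 2) = e at he1 heE heE2
  have heD : 2 ^ 30 * (h * e) ≤ D := by
    have h5 : 2 ^ 10 * h * (2 ^ 30 * (h * e)) ≤ 2 ^ 10 * h * D := by
      calc 2 ^ 10 * h * (2 ^ 30 * (h * e)) = e * (2 ^ 40 * h ^ 2) := by ring
        _ ≤ 64 * (16 * h * D) := heE
        _ = 2 ^ 10 * h * D := by ring
    exact Nat.le_of_mul_le_mul_left h5 (by positivity)
  have hDe : D ≤ 2 ^ 31 * (h * e) := by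
    have h5 : 2 ^ 10 * h * D ≤ 2 ^ 10 * h * (2 ^ 31 * (h * e)) := by
      calc 2 ^ 10 * h * D = 64 * (16 * h * D) := by ring
        _ ≤ 2 ^ 40 * h ^ 2 * (e + 1) := heE2.le
        _ ≤ 2 ^ 40 * h ^ 2 * (2 * e) := Nat.mul_le_mul_left _ (by omega)
        _ = 2 ^ 10 * h * (2 ^ 31 * (h * e)) := by ring
    exact Nat.le_of_mul_le_mul_left h5 (by positivity)
  have hehe : e ≤ h * e := Nat.le_mul_of_pos_left _ hhp
  have hen : e ≤ n := by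
    have h5 : 32 * D ≤ 32 * n := by
      calc 32 * D = 2 ^ 5 * D := by norm_num
        _ ≤ 2 ^ h * D := Nat.mul_le_mul_right _ (Nat.pow_le_pow_right (by norm_num) (by omega))
        _ ≤ 32 * n := h2
    omega
  have h3n : 3 * n ≤ e * 2 ^ (2 * h) := by
    have h5 : 2 ^ 33 * h ≤ 2 ^ h := by
      calc 2 ^ 33 * h ≤ 2 ^ 33 * 2 ^ u := Nat.mul_le_mul_left _ hhu
        _ = 2 ^ (33 + u) := by rw [← pow_add]
        _ ≤ 2 ^ h := Nat.pow_le_pow_right (by norm_num) (by omega)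
    calc 3 * n ≤ 2 ^ h * (4 * D) := h1.le
      _ ≤ 2 ^ h * (4 * (2 ^ 31 * (h * e))) :=
          Nat.mul_le_mul_left _ (Nat.mul_le_mul_left _ hDe)
      _ = 2 ^ h * (2 ^ 33 * h) * e := by ring
      _ ≤ 2 ^ h * 2 ^ h * e := Nat.mul_le_mul_right _ (Nat.mul_le_mul_left _ h5)
      _ = e * 2 ^ (2 * h) := by rw [two_mul, pow_add]; ring
  have hns := NumericAux.nsub_le n e (2 * h) he1 hen h3n
  -- (d) the product S r
  have hSr : 2 ^ 20 * (S * (1024 * k ^ 3 * R)) ≤ D := by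
    have h5 : 2 ^ h * (2 ^ 20 * (S * (1024 * k ^ 3 * R))) ≤ 2 ^ h * D := by
      calc 2 ^ h * (2 ^ 20 * (S * (1024 * k ^ 3 * R)))
          = 2 ^ 30 * (k ^ 3 * R) * (S * 2 ^ h) := by ring
        _ ≤ 2 ^ 30 * (k ^ 3 * R) * (16 * h * D) := Nat.mul_le_mul_left _ h3
        _ = 2 ^ 34 * (k ^ 3 * h) * R * D := by ring
        _ ≤ 2 ^ 34 * ((2 ^ u) ^ 3 * 2 ^ u) * 2 ^ ρ * D := by gcongr
        _ = 2 ^ 34 * (2 ^ u) ^ 4 * 2 ^ ρ * D := by ring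
        _ ≤ 2 ^ h * D := Nat.mul_le_mul_right _ (pw 34 4 u ρ h (by omega))
    exact Nat.le_of_mul_le_mul_left h5 (by positivity)
  have ht2 : 64 * t ≤ 2 ^ (18 + 5 * u) := by
    have huU : u ≤ 2 ^ u := Nat.lt_two_pow_self.le
    calc 64 * t ≤ 64 * (2 ^ 12 * k ^ 4 * u) := Nat.mul_le_mul_left _ ht
      _ ≤ 64 * (2 ^ 12 * (2 ^ u) ^ 4 * 2 ^ u) := by gcongr
      _ = 2 ^ (18 + 5 * u) := by
          rw [pow_add, mul_comm 5 u, pow_mul]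
          ring
  have hbig : 2 ^ 12 * h ≤ D := by
    refine le_trans (Nat.mul_le_mul_right _ ?_) hD30
    norm_num
  refine ⟨n / (512 * k ^ 2 * R), 1024 * k ^ 3 * R, e,
    18 + 5 * u + S * (1024 * k ^ 3 * R) + 2 * h * e, hL, hLr, hb, hLn, ?_, ?_, ?_⟩
  · rw [mul_comm (e + 1)]
    exact heE2.le
  · rw [pow_add, pow_add]
    exact Nat.mul_le_mul (Nat.mul_le_mul_right _ ht2) hns
  · have h5 : 2 * h * e = 2 * (h * e) := by ring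
    rw [h5]
    generalize S * (1024 * k ^ 3 * R) = X at hSr
    generalize h * e = Y at heD
    clear * - hSr heD hbig hρ hρh hu2
    omega

end NumericCoreAux

open NumericCoreAux

theorem RR2_le (k h : ℕ) (hk : 1 ≤ k) (hh : 1 ≤ h) :
    RR2 k (2 ^ 40 * h ^ 2) ≤ 2 ^ (252 * (Nat.log 2 (2 * k * h) + 1) * k ^ 2) := by
  obtain ⟨hu2, hu⟩ := u_facts k h hk hh
  exact RR2_le_aux k h _ hk hu2 hu

theorem typ2_le (k h : ℕ) (hk : 1 ≤ k) (hh : 1 ≤ h) :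
    typ2 k (2 ^ 40 * h ^ 2) ≤ 2 ^ 12 * k ^ 4 * (Nat.log 2 (2 * k * h) + 1) := by
  obtain ⟨hu2, hu⟩ := u_facts k h hk hh
  exact typ2_le_aux k h _ hk hh hu2 hu

set_option linter.unusedVariables false in
theorem numericCore (k h n D S : ℕ) (hk : 1 ≤ k) (hh : 1 ≤ h) (hS : 1 ≤ S)
    (h0 : 100000 * k ^ 2 * (Nat.log 2 (2 * k * h) + 1) ≤ h) (h1 : 3 * n < 2 ^ h * (4 * D))
    (h2 : 2 ^ h * D ≤ 32 * n) (h3 : S * 2 ^ h ≤ 16 * h * D) (h4 : 2 ^ h ≤ D) :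
    ∃ L r e lam : ℕ, 1 ≤ L ∧ k * n ≤ r * L ∧
      16 * k * RR2 k (2 ^ 40 * h ^ 2) * (16 * h * D) ≤ n ∧
      512 * k ^ 2 * RR2 k (2 ^ 40 * h ^ 2) * L ≤ n ∧
      64 * (16 * h * D) ≤ (e + 1) * (2 ^ 40 * h ^ 2) ∧
      64 * typ2 k (2 ^ 40 * h ^ 2) * 2 ^ (S * r) * nsub n e ≤ 2 ^ lam ∧
      64 * (lam + 4 * h + 2) ≤ D := by
  obtain ⟨hu2, hu⟩ := u_facts k h hk hh
  have hR := RR2_le k h hk hh
  have ht := typ2_le k h hk hh
  have hR1 := RR2_pos k h hk hh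
  obtain ⟨hku, hhu, -⟩ := k_le k h _ hk hh hu
  have hk2 : 1 ≤ k ^ 2 := Nat.one_le_pow _ _ hk
  generalize Nat.log 2 (2 * k * h) + 1 = u at *
  refine core k h n D S u (252 * u * k ^ 2) _ _ hk hh hku hhu hu2 ?_ ?_ hR1 hR ht h1 h2 h3 h4
  · exact Nat.le_mul_of_pos_right _ hk2
  · refine le_trans ?_ h0
    calc 396 * (252 * u * k ^ 2) = 99792 * (k ^ 2 * u) := by ring
      _ ≤ 100000 * (k ^ 2 * u) := Nat.mul_le_mul_right _ (by norm_num)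
      _ = 100000 * k ^ 2 * u := by ring

end Pool.Agent.LT
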