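import Pool.Agent.Lib.MP_b573ec_lc_LT.V2.Defs3

/-!
Phase 2 of the time-space tradeoff: a small part of `A` with a large sumset (greedy choice).
-/

set_option autoImplicit false

namespace Pool.Agent.LT

open Finset Polynomial

namespace ToepGreedyAux

/-- The sumset of `B` and `Ls`. -/
def cur {n D : ℕ} (B : Finset (Fin n)) (Ls : Finset (Fin D)) : Finset ℕ :=
  (B ×ˢ Ls).image fun p => (p.1 : ℕ) + (p.2 : ℕ)

/-- The translate of `Ls` by `v`. -/
def tr {n D : ℕ} (v : Fin n) (Ls : Finset (Fin D)) : Finset ℕ :=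
  Ls.image fun l : Fin D => (v : ℕ) + (l : ℕ)

lemma card_tr {n D : ℕ} (v : Fin n) (Ls : Finset (Fin D)) : (tr v Ls).card = Ls.card := by
  apply card_image_of_injective
  intro a b h
  simp only at h
  exact Fin.ext (by omega)

lemma cur_insert {n D : ℕ} (v : Fin n) (B : Finset (Fin n)) (Ls : Finset (Fin D)) :
    cur (insert v B) Ls = cur B Ls ∪ tr v Ls := by
  ext x
  simp only [cur, tr, mem_image, mem_product, mem_insert, mem_union, Prod.exists]
  constructor
  · rintro ⟨a, b, ⟨rfl | ha, hb⟩, rfl⟩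
    · exact Or.inr ⟨b, hb, rfl⟩
    · exact Or.inl ⟨a, b, ⟨ha, hb⟩, rfl⟩
  · rintro (⟨a, b, ⟨ha, hb⟩, rfl⟩ | ⟨b, hb, rfl⟩)
    · exact ⟨a, b, ⟨Or.inr ha, hb⟩, rfl⟩
    · exact ⟨v, b, ⟨Or.inl rfl, hb⟩, rfl⟩

lemma tr_subset {n D : ℕ} {v : Fin n} {B : Finset (Fin n)} (Ls : Finset (Fin D)) (hv : v ∈ B) :
    tr v Ls ⊆ cur B Ls := by
  intro x
  simp only [cur, tr, mem_image, mem_product, Prod.exists]
  rintro ⟨b, hb, rfl⟩
  exact ⟨v, b, ⟨hv, hb⟩, rfl⟩

/-- Double counting: the translates meet a set `C` at most `|Ls| |C|` times in all. -/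
lemma sum_inter_le {n D : ℕ} (A : Finset (Fin n)) (Ls : Finset (Fin D)) (C : Finset ℕ) :
    ∑ v ∈ A, (tr v Ls ∩ C).card ≤ Ls.card * C.card := by
  have h1 : ∀ v ∈ A, (tr v Ls ∩ C).card ≤ ∑ l ∈ Ls, ∑ x ∈ C, (if (v : ℕ) + (l : ℕ) = x then 1 else 0) := by
    intro v _
    have h2 : (tr v Ls ∩ C) ⊆ (Ls.filter fun l : Fin D => (v : ℕ) + (l : ℕ) ∈ C).image
        (fun l : Fin D => (v : ℕ) + (l : ℕ)) := by
      intro x hx
      simp only [tr, mem_inter, mem_image] at hx
      obtain ⟨⟨l, hl, rfl⟩, hC⟩ := hx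
      exact mem_image.mpr ⟨l, mem_filter.mpr ⟨hl, hC⟩, rfl⟩
    calc (tr v Ls ∩ C).card ≤ _ := card_le_card h2
      _ ≤ (Ls.filter fun l : Fin D => (v : ℕ) + (l : ℕ) ∈ C).card := card_image_le
      _ = ∑ l ∈ Ls, (if (v : ℕ) + (l : ℕ) ∈ C then 1 else 0) := by
          rw [card_filter]
      _ = ∑ l ∈ Ls, ∑ x ∈ C, (if (v : ℕ) + (l : ℕ) = x then 1 else 0) := by
          apply sum_congr rfl
          intro l _
          rw [sum_ite_eq]
  calc ∑ v ∈ A, (tr v Ls ∩ C).card
      ≤ ∑ v ∈ A, ∑ l ∈ Ls, ∑ x ∈ C, (if (v : ℕ) + (l : ℕ) = x then 1 else 0) := sum_le_sum h1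
    _ = ∑ l ∈ Ls, ∑ x ∈ C, ∑ v ∈ A, (if (v : ℕ) + (l : ℕ) = x then 1 else 0) := by
        rw [sum_comm]
        apply sum_congr rfl
        intro l _
        rw [sum_comm]
    _ ≤ ∑ l ∈ Ls, ∑ x ∈ C, 1 := by
        apply sum_le_sum
        intro l _
        apply sum_le_sum
        intro x _
        rw [← card_filter]
        apply card_le_one.mpr
        intro a ha b hb
        rw [mem_filter] at ha hb
        exact Fin.ext (by omega)
    _ = Ls.card * C.card := by simp

end ToepGreedyAux

open ToepGreedyAux in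
theorem greedy {n D g : ℕ} (hg : 1 ≤ g) (A : Finset (Fin n)) (Ls : Finset (Fin D))
    (hL : Ls.card = g) (hA : 8 * g * D ≤ A.card) :
    ∃ A' ⊆ A, A'.card = 4 * D ∧
      2 * g * D ≤ ((A' ×ˢ Ls).image fun p => (p.1 : ℕ) + (p.2 : ℕ)).card := by
  have hD : 1 ≤ D := by
    by_contra hcon
    have hD0 : D = 0 := by omega
    subst hD0
    have : Ls = ∅ := by
      ext x
      exact x.elim0
    rw [this, card_empty] at hL
    omega
  have key : ∀ t, t ≤ 4 * D → ∃ B ⊆ A, B.card = t ∧ min (4 * g * D) (t * g) ≤ 2 * (cur B Ls).card := by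
    intro t
    induction t with
    | zero => intro _; exact ⟨∅, empty_subset _, rfl, by simp⟩
    | succ t ih =>
      intro ht
      obtain ⟨B, hBA, hBt, hB⟩ := ih (by omega)
      by_cases hbig : 2 * g * D ≤ (cur B Ls).card
      · have hlt : B.card < A.card := by
          rw [hBt]
          nlinarith
        obtain ⟨v, hvA, hvB⟩ := exists_mem_notMem_of_card_lt_card hlt
        refine ⟨insert v B, insert_subset hvA hBA, by rw [card_insert_of_notMem hvB, hBt], ?_⟩
        have h1 : (cur B Ls).card ≤ (cur (insert v B) Ls).card := by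
          rw [cur_insert]
          exact card_le_card subset_union_left
        calc min (4 * g * D) ((t + 1) * g) ≤ 4 * g * D := min_le_left _ _
          _ ≤ 2 * (cur (insert v B) Ls).card := by nlinarith
      · push Not at hbig
        -- a translate which meets the current sumset in few points
        have hex : ∃ v ∈ A, 4 * (tr v Ls ∩ cur B Ls).card < g := by
          by_contra hcon
          push Not at hcon
          have h1 : A.card * g ≤ ∑ v ∈ A, 4 * (tr v Ls ∩ cur B Ls).card := by
            rw [← smul_eq_mul, ← sum_const]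
            exact sum_le_sum hcon
          rw [← mul_sum] at h1
          have h2 := sum_inter_le A Ls (cur B Ls)
          rw [hL] at h2
          have h3 : A.card * g ≤ 4 * (g * (cur B Ls).card) := h1.trans (Nat.mul_le_mul_left 4 h2)
          have h4 : 8 * g * D * g ≤ A.card * g := Nat.mul_le_mul_right g hA
          have h5 : 4 * (g * (cur B Ls).card) < 8 * g * D * g := by
            have : g * (cur B Ls).card < g * (2 * g * D) := Nat.mul_lt_mul_of_pos_left hbig hg
            nlinarith
          omega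
        obtain ⟨v, hvA, hv⟩ := hex
        have hvB : v ∉ B := by
          intro hvB
          rw [inter_eq_left.mpr (tr_subset Ls hvB), card_tr, hL] at hv
          omega
        refine ⟨insert v B, insert_subset hvA hBA, by rw [card_insert_of_notMem hvB, hBt], ?_⟩
        have h1 : (cur B Ls ∪ tr v Ls).card + (cur B Ls ∩ tr v Ls).card = (cur B Ls).card + g := by
          rw [card_union_add_card_inter, card_tr, hL]
        rw [inter_comm] at hv
        rw [cur_insert]
        have h2 : min (4 * g * D) (t * g) = 4 * g * D ∨ min (4 * g * D) (t * g) = t * g := by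
          rcases le_total (4 * g * D) (t * g) with h | h
          · exact Or.inl (min_eq_left h)
          · exact Or.inr (min_eq_right h)
        rcases h2 with h2 | h2
        · rw [h2] at hB
          exfalso
          nlinarith
        · rw [h2] at hB
          refine (min_le_right _ _).trans ?_
          have : (t + 1) * g = t * g + g := by ring
          rw [this]
          omega
  obtain ⟨B, hBA, hBt, hB⟩ := key (4 * D) le_rfl
  refine ⟨B, hBA, hBt, ?_⟩
  have h1 : min (4 * g * D) (4 * D * g) = 4 * g * D := by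
    rw [min_eq_left]
    exact le_of_eq (by ring)
  rw [h1] at hB
  change 2 * g * D ≤ (cur B Ls).card
  nlinarith

end Pool.Agent.LT
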