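import Pool.Agent.Lib.MP_b573ec_lc_LT.V2.UpperCommon

set_option autoImplicit false

namespace Pool.Agent.LT

open Finset Polynomial

namespace Upper1Aux

open UpperCommon

variable {K : Type} [Field K] [Algebra (ZMod 2) K]

/-- the transition function -/
def stp (N M : ℕ) (θ : K) (j : ℕ) (s : K × K × K × K) (b : ZMod 2) : K × K × K × K :=
  if 4 * N ≤ j then s
  else if j % 4 = 0 then (θ * s.1 + algebraMap (ZMod 2) K b, s.2.1, s.2.2.1, s.2.2.2)
  else if j % 4 = 1 then (s.1 + algebraMap (ZMod 2) K b * θ ^ (3 * M),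
    θ * s.2.1 + algebraMap (ZMod 2) K b, s.2.2.1, s.2.2.2)
  else if j % 4 = 2 then (s.1, s.2.1 + algebraMap (ZMod 2) K b * θ ^ M, s.2.2.1, s.2.2.2)
  else (s.1, s.2.1, s.2.2.1 + algebraMap (ZMod 2) K b * s.1,
    s.2.2.2 + algebraMap (ZMod 2) K b * s.2.1)

theorem run_eq (N M : ℕ) (θ : K) (x : ℕ → ZMod 2) (i : ℕ) (hi : i ≤ N) :
    run (0, 0, 0, 0) (stp N M θ) x (4 * i) =
      (aeval θ (window (3 * M) (fun i => x (4 * i)) (fun i => x (4 * i + 1)) i),
       aeval θ (window M (fun i => x (4 * i + 1)) (fun i => x (4 * i + 2)) i),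
       aeval θ (wsum i (fun i => x (4 * i + 3))
         (window (3 * M) (fun i => x (4 * i)) (fun i => x (4 * i + 1)))),
       aeval θ (wsum i (fun i => x (4 * i + 3))
         (window M (fun i => x (4 * i + 1)) (fun i => x (4 * i + 2))))) := by
  induction i with
  | zero => simp [run, window, wsum]
  | succ i ih =>
    have hi' : i < N := hi
    have e1 : 4 * (i + 1) = 4 * i + 1 + 1 + 1 + 1 := by ring
    have m0 : 4 * i % 4 = 0 := by omega
    have m1 : (4 * i + 1) % 4 = 1 := by omega
    have m2 : (4 * i + 1 + 1) % 4 = 2 := by omega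
    have m3 : (4 * i + 1 + 1 + 1) % 4 = 3 := by omega
    have n0 : ¬ 4 * N ≤ 4 * i := by omega
    have n1 : ¬ 4 * N ≤ 4 * i + 1 := by omega
    have n2 : ¬ 4 * N ≤ 4 * i + 1 + 1 := by omega
    have n3 : ¬ 4 * N ≤ 4 * i + 1 + 1 + 1 := by omega
    rw [e1]
    show stp N M θ (4 * i + 1 + 1 + 1) (stp N M θ (4 * i + 1 + 1) (stp N M θ (4 * i + 1)
      (stp N M θ (4 * i) (run (0, 0, 0, 0) (stp N M θ) x (4 * i)) (x (4 * i)))
        (x (4 * i + 1))) (x (4 * i + 1 + 1))) (x (4 * i + 1 + 1 + 1)) = _
    rw [ih hi'.le, aeval_window_succ, aeval_window_succ, aeval_wsum_succ, aeval_wsum_succ,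
      aeval_window_succ, aeval_window_succ]
    rw [stp, if_neg n3, if_neg (by omega), if_neg (by omega), if_neg (by omega)]
    rw [stp, if_neg n2, if_neg (by omega), if_neg (by omega), if_pos m2]
    rw [stp, if_neg n1, if_neg (by omega), if_pos m1]
    rw [stp, if_neg n0, if_pos m0]

open Classical in
theorem card_roots_le [Fintype K] (P : (ZMod 2)[X]) (hP : P ≠ 0) :
    (univ.filter fun θ : K => aeval θ P = 0).card ≤ P.natDegree := by
  have hinj : Function.Injective (algebraMap (ZMod 2) K) := (algebraMap (ZMod 2) K).injective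
  have hQ : P.map (algebraMap (ZMod 2) K) ≠ 0 :=
    (Polynomial.map_ne_zero_iff hinj).2 hP
  have h1 : (univ.filter fun θ : K => aeval θ P = 0) ⊆
      (P.map (algebraMap (ZMod 2) K)).roots.toFinset := by
    intro θ hθ
    rw [Finset.mem_filter] at hθ
    rw [Multiset.mem_toFinset, mem_roots hQ, IsRoot.def, eval_map_algebraMap]
    exact hθ.2
  refine (Finset.card_le_card h1).trans ((Multiset.toFinset_card_le _).trans
    ((card_roots' _).trans ?_))
  exact natDegree_map_le

end Upper1Aux

open Upper1Aux UpperCommon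

open Classical in
theorem cube_upper0 (n M : ℕ) (hMn : M ≤ n) :
    OneSidedOnePass (cubeFn n M) (2 ^ (4 * (Nat.log 2 n + 5))) := by
  generalize hl : Nat.log 2 n + 5 = l
  have hl0 : l ≠ 0 := by omega
  let K := GaloisField 2 l
  have : Fintype K := Fintype.ofFinite K
  have hK : Fintype.card K = 2 ^ l := by
    rw [← Nat.card_eq_fintype_card]
    exact GaloisField.card 2 l hl0
  have h8 : 8 * n ≤ 2 ^ l := by
    have h1 : n < 2 ^ (Nat.log 2 n + 1) := Nat.lt_pow_succ_log_self (by norm_num) n
    have h2 : (2 : ℕ) ^ l = 2 ^ (Nat.log 2 n + 1) * 16 := by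
      rw [← hl, show Nat.log 2 n + 5 = (Nat.log 2 n + 1) + 4 from rfl, pow_add 2 _ 4]
      norm_num
    omega
  have hc : Fintype.card (Fin l → Bool) = Fintype.card K := by
    rw [hK, Fintype.card_fun, Fintype.card_bool, Fintype.card_fin]
  obtain ⟨τ⟩ : Nonempty ((Fin l → Bool) ≃ K) := Fintype.card_eq.mp hc
  have hs : Fintype.card (K × K × K × K) = 2 ^ (4 * l) := by
    rw [Fintype.card_prod, Fintype.card_prod, Fintype.card_prod, hK, ← pow_add, ← pow_add,
      ← pow_add]
    congr 1
    omega
  let e : K × K × K × K ≃ Fin (2 ^ (4 * l)) := Fintype.equivFinOfCardEq hs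
  let P : (Fin l → Bool) → Prog n n (2 ^ (4 * l)) := fun c =>
    detProg e (0, 0, 0, 0) (stp (n / 4) M (τ c)) (fun s => decide (s.2.2.1 ≠ s.2.2.2 ^ 3))
  have hP : ∀ (c : Fin l → Bool) (x : Inp n), (P c).eval x = decide (
      aeval (τ c) (wsum (n / 4) (fun i => bit x (4 * i + 3))
        (window (3 * M) (fun i => bit x (4 * i)) (fun i => bit x (4 * i + 1))) -
        wsum (n / 4) (fun i => bit x (4 * i + 3))
          (window M (fun i => bit x (4 * i + 1)) (fun i => bit x (4 * i + 2))) ^ 3) ≠ 0) := by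
    intro c x
    have h1 : (P c).eval x = decide
        ((run (0, 0, 0, 0) (stp (n / 4) M (τ c)) (bit x) n).2.2.1 ≠
        (run (0, 0, 0, 0) (stp (n / 4) M (τ c)) (bit x) n).2.2.2 ^ 3) := by
      show (detProg e _ _ _).eval x = _
      rw [eval_detProg]
    rw [h1, run_stable _ _ _ (4 * (n / 4)) ?_ n (by omega), run_eq _ _ _ _ _ le_rfl]
    · simp only [map_sub, map_pow, ne_eq, sub_eq_zero]
    · intro j hj s b
      rw [stp, if_pos hj]
  refine ⟨l, P, fun c i s => rfl, fun x hx => ?_, fun x hx c => ?_⟩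
  · have hx' : wsum (n / 4) (fun i => bit x (4 * i + 3))
        (window (3 * M) (fun i => bit x (4 * i)) (fun i => bit x (4 * i + 1))) ≠
        wsum (n / 4) (fun i => bit x (4 * i + 3))
          (window M (fun i => bit x (4 * i + 1)) (fun i => bit x (4 * i + 2))) ^ 3 := by
      unfold cubeFn at hx
      exact of_decide_eq_true hx
    have hne := sub_ne_zero.2 hx'
    have hdeg : (wsum (n / 4) (fun i => bit x (4 * i + 3))
        (window (3 * M) (fun i => bit x (4 * i)) (fun i => bit x (4 * i + 1))) -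
        wsum (n / 4) (fun i => bit x (4 * i + 3))
          (window M (fun i => bit x (4 * i + 1)) (fun i => bit x (4 * i + 2))) ^ 3).natDegree
        ≤ 4 * n := by
      refine (natDegree_sub_le _ _).trans (max_le ?_ ?_)
      · refine (natDegree_wsum _ _ _ _ _).trans ?_
        omega
      · refine natDegree_pow_le.trans ?_
        have := natDegree_wsum (n / 4) M (fun i => bit x (4 * i + 3))
          (fun i => bit x (4 * i + 1)) (fun i => bit x (4 * i + 2))
        omega
    have hroots := (card_roots_le (K := K) _ hne).trans hdeg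
    generalize hPol : (wsum (n / 4) (fun i => bit x (4 * i + 3))
        (window (3 * M) (fun i => bit x (4 * i)) (fun i => bit x (4 * i + 1))) -
        wsum (n / 4) (fun i => bit x (4 * i + 3))
          (window M (fun i => bit x (4 * i + 1)) (fun i => bit x (4 * i + 2))) ^ 3) = R
      at hroots
    have hPx : ∀ c, (P c).eval x = decide (aeval (τ c) R ≠ 0) := by
      intro c
      rw [hP, hPol]
    have h2 : (univ.filter fun c => (P c).eval x = true).card =
        (univ.filter fun t : K => ¬ aeval t R = 0).card := by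
      refine Finset.card_bij (fun c _ => τ c) ?_ ?_ ?_
      · intro c hc'
        rw [Finset.mem_filter, hPx] at hc'
        rw [Finset.mem_filter]
        exact ⟨mem_univ _, of_decide_eq_true hc'.2⟩
      · intro c _ c' _ h
        exact τ.injective h
      · intro t ht
        refine ⟨τ.symm t, ?_, τ.apply_symm_apply t⟩
        rw [Finset.mem_filter] at ht
        rw [Finset.mem_filter, hPx, Equiv.apply_symm_apply]
        exact ⟨mem_univ _, decide_eq_true ht.2⟩
    have h3 := Finset.card_filter_add_card_filter_not (s := (univ : Finset K))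
      (fun t : K => aeval t R = 0)
    rw [Finset.card_univ, hK] at h3
    rw [h2]
    omega
  · have hx' : wsum (n / 4) (fun i => bit x (4 * i + 3))
        (window (3 * M) (fun i => bit x (4 * i)) (fun i => bit x (4 * i + 1))) =
        wsum (n / 4) (fun i => bit x (4 * i + 3))
          (window M (fun i => bit x (4 * i + 1)) (fun i => bit x (4 * i + 2))) ^ 3 := by
      unfold cubeFn at hx
      exact not_not.1 (of_decide_eq_false hx)
    rw [hP, decide_eq_false_iff_not, not_not, hx', sub_self, map_zero]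

theorem cube_upper (n M : ℕ) (_hM : 1 ≤ M) (hMn : M ≤ n) :
    OneSidedOnePass (cubeFn n M) (2 ^ (4 * (Nat.log 2 n + 5))) := cube_upper0 n M hMn

end Pool.Agent.LT
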