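import Pool.Agent.Lib.MP_b573ec_lc_LT.V2.Defs3

set_option autoImplicit false

/-!
# One-pass programs given by a transition function; window sums evaluated at a point
-/

namespace Pool.Agent.LT

open Finset Polynomial

namespace UpperCommon

/-- the states of an automaton reading a sequence over `GF(2)` -/
def run {σ : Type} (s0 : σ) (stp : ℕ → σ → ZMod 2 → σ) (x : ℕ → ZMod 2) : ℕ → σ
  | 0 => s0
  | i + 1 => stp i (run s0 stp x i) (x i)

theorem bit_of_lt {n : ℕ} (x : Inp n) {j : ℕ} (h : j < n) :
    bit x j = if x ⟨j, h⟩ then 1 else 0 := by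
  rw [bit, dif_pos h]

/-- the deterministic one-pass program with the transition function `stp` -/
def detProg {n w : ℕ} {σ : Type} (e : σ ≃ Fin w) (s0 : σ) (stp : ℕ → σ → ZMod 2 → σ)
    (A : σ → Bool) : Prog n n w where
  start := e s0
  var i _ := i
  next i s b := e (stp i (e.symm s) (if b then 1 else 0))
  acc s := A (e.symm s)

theorem state_detProg {n w : ℕ} {σ : Type} (e : σ ≃ Fin w) (s0 : σ)
    (stp : ℕ → σ → ZMod 2 → σ) (A : σ → Bool) (x : Inp n) (i : ℕ) (hi : i ≤ n) :
    (detProg e s0 stp A).state x i = e (run s0 stp (bit x) i) := by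
  induction i with
  | zero => rfl
  | succ i ih =>
    have hi' : i < n := hi
    rw [Prog.state, dif_pos hi', ih hi'.le]
    show e (stp i (e.symm (e _)) _) = e (stp i _ _)
    rw [Equiv.symm_apply_apply, bit_of_lt x hi']
    rfl

theorem eval_detProg {n w : ℕ} {σ : Type} (e : σ ≃ Fin w) (s0 : σ)
    (stp : ℕ → σ → ZMod 2 → σ) (A : σ → Bool) (x : Inp n) :
    (detProg e s0 stp A).eval x = A (run s0 stp (bit x) n) := by
  rw [Prog.eval, state_detProg e s0 stp A x n le_rfl]
  show A (e.symm (e _)) = _
  rw [Equiv.symm_apply_apply]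

/-- the nondeterministic one-pass program which guesses the initial state -/
def nonProg {n w : ℕ} {σ : Type} (e : σ ≃ Fin w) (S : σ → Prop) (stp : ℕ → σ → ZMod 2 → σ)
    (A : σ → Prop) : NProg n n w where
  start s := S (e.symm s)
  var i _ := i
  next i s b s' := e.symm s' = stp i (e.symm s) (if b then 1 else 0)
  acc s := A (e.symm s)

theorem accepts_nonProg {n w : ℕ} {σ : Type} (e : σ ≃ Fin w) (S : σ → Prop)
    (stp : ℕ → σ → ZMod 2 → σ) (A : σ → Prop) (x : Inp n) :
    (nonProg e S stp A : NProg n n w).Accepts x ↔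
      ∃ s0, S s0 ∧ A (run s0 stp (bit x) n) := by
  constructor
  · rintro ⟨p, hs, hn, ha⟩
    have hs' : S (e.symm (p 0)) := hs
    have hn' : ∀ i : Fin n, e.symm (p ((i : ℕ) + 1)) =
        stp i (e.symm (p (i : ℕ))) (if x i then 1 else 0) := hn
    have ha' : A (e.symm (p n)) := ha
    refine ⟨e.symm (p 0), hs', ?_⟩
    have key : ∀ i ≤ n, e.symm (p i) = run (e.symm (p 0)) stp (bit x) i := by
      intro i
      induction i with
      | zero => intro _; rfl
      | succ i ih =>
        intro hi
        have hi' : i < n := hi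
        have h1 := hn' ⟨i, hi'⟩
        simp only at h1
        rw [h1, ih hi'.le]
        show _ = stp i _ _
        rw [bit_of_lt x hi']
    rw [← key n le_rfl]
    exact ha'
  · rintro ⟨s0, hs, ha⟩
    refine ⟨fun i => e (run s0 stp (bit x) i), ?_, ?_, ?_⟩
    · show S (e.symm (e s0))
      rw [Equiv.symm_apply_apply]
      exact hs
    · intro i
      show e.symm (e (run s0 stp (bit x) ((i : ℕ) + 1))) =
        stp i (e.symm (e (run s0 stp (bit x) (i : ℕ)))) (if x i then 1 else 0)
      rw [Equiv.symm_apply_apply, Equiv.symm_apply_apply]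
      show stp i _ _ = _
      rw [bit_of_lt x i.2]
    · show A (e.symm (e _))
      rw [Equiv.symm_apply_apply]
      exact ha

/-- no change after position `m` -/
theorem run_stable {σ : Type} (s0 : σ) (stp : ℕ → σ → ZMod 2 → σ) (x : ℕ → ZMod 2) (m : ℕ)
    (h : ∀ j, m ≤ j → ∀ s b, stp j s b = s) (n : ℕ) (hn : m ≤ n) :
    run s0 stp x n = run s0 stp x m := by
  induction n, hn using Nat.le_induction with
  | base => rfl
  | succ n hn ih =>
    show stp n _ _ = _
    rw [h n hn, ih]

section

variable {K : Type} [Field K] [Algebra (ZMod 2) K]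

theorem aeval_window_succ (θ : K) (t : ℕ) (a b : ℕ → ZMod 2) (i : ℕ) :
    aeval θ (window t a b (i + 1)) = θ * aeval θ (window t a b i) + algebraMap (ZMod 2) K (a i) +
      algebraMap (ZMod 2) K (b i) * θ ^ t := by
  rw [window]
  simp only [map_add, map_mul, aeval_X, aeval_C, map_pow]

theorem aeval_wsum_succ (θ : K) (N : ℕ) (d : ℕ → ZMod 2) (W : ℕ → (ZMod 2)[X]) :
    aeval θ (wsum (N + 1) d W) = aeval θ (wsum N d W) +
      algebraMap (ZMod 2) K (d N) * aeval θ (W (N + 1)) := by
  rw [wsum, wsum, Finset.sum_range_succ, map_add, map_mul, aeval_C]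

theorem aeval_wsum_zero (θ : K) (d : ℕ → ZMod 2) (W : ℕ → (ZMod 2)[X]) :
    aeval θ (wsum 0 d W) = 0 := by
  rw [wsum, Finset.sum_range_zero, map_zero]

end

theorem natDegree_window (t : ℕ) (a b : ℕ → ZMod 2) (i : ℕ) :
    (window t a b i).natDegree ≤ i + t := by
  induction i with
  | zero => simp [window]
  | succ i ih =>
    rw [window]
    refine (natDegree_add_le _ _).trans (max_le ((natDegree_add_le _ _).trans (max_le ?_ ?_)) ?_)
    · refine natDegree_mul_le.trans ?_
      rw [natDegree_X]
      omega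
    · rw [natDegree_C]
      omega
    · refine (natDegree_C_mul_X_pow_le _ _).trans ?_
      omega

theorem natDegree_wsum (N t : ℕ) (d a b : ℕ → ZMod 2) :
    (wsum N d (window t a b)).natDegree ≤ N + t := by
  rw [wsum]
  refine natDegree_sum_le_of_forall_le _ _ fun i hi => ?_
  have hi' := Finset.mem_range.1 hi
  refine (natDegree_C_mul_le _ _).trans ((natDegree_window t a b (i + 1)).trans ?_)
  omega

end UpperCommon

end Pool.Agent.LT
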